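import Pool.Agent.U85.XL.Stm

set_option autoImplicit false

/-!
Project XL (helper85, helper511), package APPG (helper580): the factor in front of zeta.
-/

namespace Pool.Agent.U85.XLP.APPG

open MeasureTheory Filter Topology Complex
open Pool.Agent.U85.XL

theorem xi_eq (v : ℂ) (hv : 1 < v.re) : xi v = gg v * riemannZeta v := by
  have h0 : v ≠ 0 := by
    intro h
    rw [h] at hv
    simp at hv
    linarith
  have h1 : v - 1 ≠ 0 := by
    intro h
    have : v.re = 1 := by
      have h2 := congrArg Complex.re h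
      simp at h2
      linarith
    linarith
  have h1' : 1 - v ≠ 0 := fun h => h1 (by rw [← neg_sub, h, neg_zero])
  have hG : Gammaℝ v ≠ 0 := Gammaℝ_ne_zero_of_re_pos (by linarith)
  unfold xi gg
  rw [riemannZeta_def_of_ne_zero h0, completedRiemannZeta_eq]
  field_simp
  ring

lemma sin_le (z : ℂ) : ‖Complex.sin z‖ ≤ Real.exp |z.im| := by
  unfold Complex.sin
  rw [norm_div, norm_mul, Complex.norm_I, mul_one]
  have h2 : ‖(2 : ℂ)‖ = 2 := by simp
  rw [h2, div_le_iff₀ (by norm_num)]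
  refine (norm_sub_le _ _).trans ?_
  rw [Complex.norm_exp, Complex.norm_exp]
  have e1 : (-z * I).re = z.im := by simp
  have e2 : (z * I).re = -z.im := by simp
  rw [e1, e2]
  have a1 : Real.exp z.im ≤ Real.exp |z.im| := Real.exp_le_exp.2 (le_abs_self _)
  have a2 : Real.exp (-z.im) ≤ Real.exp |z.im| := Real.exp_le_exp.2 (neg_le_abs _)
  linarith

lemma gamma_le (s : ℂ) (hs : 0 < s.re) : ‖Complex.Gamma s‖ ≤ Real.Gamma s.re := by
  rw [Complex.Gamma_eq_integral hs, Real.Gamma_eq_integral hs]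
  unfold Complex.GammaIntegral
  refine (norm_integral_le_integral_norm _).trans (le_of_eq ?_)
  refine setIntegral_congr_fun measurableSet_Ioi ?_
  intro x hx
  have hx' : (0 : ℝ) < x := hx
  simp only
  rw [norm_mul, Complex.norm_real, Real.norm_eq_abs, abs_of_pos (Real.exp_pos _),
    Complex.norm_cpow_eq_rpow_re_of_pos hx']
  simp

theorem gg_lower : ∃ c : ℝ, 1 ≤ c ∧ ∀ x : ℝ, 1 ≤ x → Real.exp (-(c * x)) ≤ ‖gg (3 / 2 + I * x)‖ := by
  have hpi := Real.pi_pos
  have hG4 : 0 < Real.Gamma (1 / 4) := Real.Gamma_pos_of_pos (by norm_num)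
  obtain ⟨K, hK⟩ : ∃ K : ℝ, K = 1 / 2 * Real.pi ^ (-(3 / 4) : ℝ) * (Real.pi / Real.Gamma (1 / 4)) :=
    ⟨_, rfl⟩
  have hK0 : 0 < K := by rw [hK]; positivity
  refine ⟨Real.pi / 2 + |Real.log K|, ?_, ?_⟩
  · have := Real.pi_gt_three
    have := abs_nonneg (Real.log K)
    linarith
  · intro x hx
    obtain ⟨v, hv⟩ : ∃ v : ℂ, v = 3 / 2 + I * x := ⟨_, rfl⟩
    have hvre : v.re = 3 / 2 := by rw [hv]; simp
    have hvim : v.im = x := by rw [hv]; simp
    rw [← hv]
    have n1 : 1 ≤ ‖v‖ := by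
      have := Complex.abs_im_le_norm v
      rw [hvim, abs_of_pos (by linarith)] at this
      linarith
    have n2 : 1 ≤ ‖v - 1‖ := by
      have := Complex.abs_im_le_norm (v - 1)
      rw [Complex.sub_im, Complex.one_im, sub_zero, hvim, abs_of_pos (by linarith)] at this
      linarith
    -- the Gamma factor
    obtain ⟨s, hs⟩ : ∃ s : ℂ, s = v / 2 := ⟨_, rfl⟩
    have hsre : s.re = 3 / 4 := by
      rw [hs, Complex.div_ofNat_re, hvre]
      norm_num
    have hsim : s.im = x / 2 := by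
      rw [hs, Complex.div_ofNat_im, hvim]
    have hrefl := Complex.Gamma_mul_Gamma_one_sub s
    have hsin : Complex.sin (Real.pi * s) ≠ 0 := by
      intro h
      rw [Complex.sin_eq_zero_iff] at h
      obtain ⟨k, hk⟩ := h
      have h2 := congrArg Complex.im hk
      simp [hsim] at h2
      rcases h2 with h2 | h2 <;> linarith
    have h1s : 0 < (1 - s).re := by rw [Complex.sub_re, hsre]; norm_num
    have h1s' : (1 - s).re = 1 / 4 := by rw [Complex.sub_re, hsre]; norm_num
    have hg1 := gamma_le (1 - s) h1s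
    rw [h1s'] at hg1
    have hsl := sin_le (Real.pi * s)
    have him : ((Real.pi : ℂ) * s).im = Real.pi * (x / 2) := by
      rw [Complex.im_ofReal_mul, hsim]
    rw [him, abs_of_pos (by positivity)] at hsl
    have hnorm : ‖Complex.Gamma s‖ * ‖Complex.Gamma (1 - s)‖ = Real.pi / ‖Complex.sin (Real.pi * s)‖ := by
      rw [← norm_mul, hrefl, norm_div, Complex.norm_real, Real.norm_eq_abs, abs_of_pos hpi]
    have hsn : 0 < ‖Complex.sin (Real.pi * s)‖ := norm_pos_iff.2 hsin
    have hlow : Real.pi / Real.Gamma (1 / 4) * Real.exp (-(Real.pi * (x / 2))) ≤ ‖Complex.Gamma s‖ := by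
      have h3 : Real.pi / Real.exp (Real.pi * (x / 2)) ≤
          ‖Complex.Gamma s‖ * Real.Gamma (1 / 4) := by
        calc Real.pi / Real.exp (Real.pi * (x / 2)) ≤ Real.pi / ‖Complex.sin (Real.pi * s)‖ :=
              div_le_div_of_nonneg_left hpi.le hsn hsl
          _ = ‖Complex.Gamma s‖ * ‖Complex.Gamma (1 - s)‖ := hnorm.symm
          _ ≤ _ := mul_le_mul_of_nonneg_left hg1 (norm_nonneg _)
      rw [Real.exp_neg]
      calc Real.pi / Real.Gamma (1 / 4) * (Real.exp (Real.pi * (x / 2)))⁻¹ =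
            (Real.pi / Real.exp (Real.pi * (x / 2))) / Real.Gamma (1 / 4) := by
            field_simp
        _ ≤ ‖Complex.Gamma s‖ := by
            rw [div_le_iff₀ hG4]
            exact h3
    have hpow : ‖(Real.pi : ℂ) ^ (-v / 2)‖ = Real.pi ^ (-(3 / 4) : ℝ) := by
      rw [Complex.norm_cpow_eq_rpow_re_of_pos hpi]
      congr 1
      rw [Complex.div_ofNat_re, Complex.neg_re, hvre]
      norm_num
    have hgg : ‖gg v‖ = ‖v‖ * ‖v - 1‖ / 2 * (Real.pi ^ (-(3 / 4) : ℝ) * ‖Complex.Gamma s‖) := by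
      unfold gg
      rw [Gammaℝ_def, norm_mul, norm_div, norm_mul, norm_mul, hpow, ← hs]
      simp
    have hmain : K * Real.exp (-(Real.pi * (x / 2))) ≤ ‖gg v‖ := by
      rw [hgg, hK]
      have h5 : (1 / 2 : ℝ) ≤ ‖v‖ * ‖v - 1‖ / 2 := by
        have : 1 ≤ ‖v‖ * ‖v - 1‖ := by nlinarith
        linarith
      have h6 : 0 < Real.pi ^ (-(3 / 4) : ℝ) := by positivity
      calc 1 / 2 * Real.pi ^ (-(3 / 4) : ℝ) * (Real.pi / Real.Gamma (1 / 4)) *
            Real.exp (-(Real.pi * (x / 2)))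
          = 1 / 2 * (Real.pi ^ (-(3 / 4) : ℝ) *
            (Real.pi / Real.Gamma (1 / 4) * Real.exp (-(Real.pi * (x / 2))))) := by ring
        _ ≤ ‖v‖ * ‖v - 1‖ / 2 * (Real.pi ^ (-(3 / 4) : ℝ) * ‖Complex.Gamma s‖) := by
            refine mul_le_mul h5 (mul_le_mul_of_nonneg_left hlow h6.le) (by positivity)
              (by positivity)
    refine le_trans ?_ hmain
    rw [← Real.exp_log hK0, ← Real.exp_add, Real.exp_log hK0]
    apply Real.exp_le_exp.2
    have h7 := neg_abs_le (Real.log K)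
    have h8 : |Real.log K| ≤ |Real.log K| * x := by
      have := abs_nonneg (Real.log K)
      nlinarith
    nlinarith

end Pool.Agent.U85.XLP.APPG
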