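import Pool.Agent.U85.XL.Stm

/-!
Project XL, package APPM: the Gaussian mean of the zeta function is a Gaussian Dirichlet series.
-/

set_option autoImplicit false

namespace Pool.Agent.U85.XLP.APPM

open MeasureTheory Filter Topology Complex
open Pool.Agent.U85.XL

/-- the terms after the expansion of the zeta function -/
noncomputable def G (κ p a x : ℝ) (n : ℕ) (u : ℝ) : ℂ :=
  cexp ((-(1 / (4 * κ)) : ℂ) * (u : ℂ) ^ 2 +
    (I * (p + I * Real.pi / 4 - a / (2 * κ) - Real.log ((n : ℝ) + 1))) * u +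
    (-(Real.log ((n : ℝ) + 1) * (3 / 2 + I * x))))

theorem term_eq (κ p a x : ℝ) (n : ℕ) (u : ℝ) :
    cexp (I * u * (p + I * Real.pi / 4)) * (1 / ((n : ℂ) + 1) ^ (3 / 2 + I * (x + u) : ℂ)) *
      cexp (-(u : ℂ) ^ 2 / (4 * κ) - I * u * a / (2 * κ)) = G κ p a x n u := by
  have hn : ((n : ℂ) + 1) ≠ 0 := by exact_mod_cast Nat.succ_ne_zero n
  have hlog : Complex.log ((n : ℂ) + 1) = (Real.log ((n : ℝ) + 1) : ℂ) := by
    rw [Complex.ofReal_log (by positivity)]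
    push_cast
    rfl
  rw [cpow_def_of_ne_zero hn, hlog, one_div, ← Complex.exp_neg, ← Complex.exp_add,
    ← Complex.exp_add]
  unfold G
  congr 1
  ring

theorem integrand_eq (κ p a x u : ℝ) :
    cexp (I * u * (p + I * Real.pi / 4)) * riemannZeta (3 / 2 + I * (x + u)) *
      cexp (-(u : ℂ) ^ 2 / (4 * κ) - I * u * a / (2 * κ)) = ∑' n : ℕ, G κ p a x n u := by
  have hs : 1 < (3 / 2 + I * (x + u) : ℂ).re := by
    simp
    norm_num
  rw [zeta_eq_tsum_one_div_nat_add_one_cpow hs, ← tsum_mul_left, ← tsum_mul_right]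
  exact tsum_congr fun n => term_eq κ p a x n u

theorem re_b {κ : ℝ} (hκ : 0 < κ) : (-(1 / (4 * (κ : ℂ)))).re < 0 := by
  have h : (-(1 / (4 * (κ : ℂ)))) = ((-(1 / (4 * κ)) : ℝ) : ℂ) := by
    push_cast
    rfl
  rw [h, ofReal_re]
  have : 0 < 1 / (4 * κ) := by positivity
  linarith

theorem norm_G (κ p a x : ℝ) (n : ℕ) (u : ℝ) :
    ‖G κ p a x n u‖ = Real.exp (-(1 / (4 * κ)) * u ^ 2 - Real.pi / 4 * u) *
      ((n : ℝ) + 1) ^ (-(3 / 2) : ℝ) := by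
  have h : ((-(1 / (4 * κ)) : ℂ) * (u : ℂ) ^ 2 +
    (I * (p + I * Real.pi / 4 - a / (2 * κ) - Real.log ((n : ℝ) + 1))) * u +
    (-(Real.log ((n : ℝ) + 1) * (3 / 2 + I * x)))) =
      ((-(1 / (4 * κ)) * u ^ 2 - Real.pi / 4 * u + Real.log ((n : ℝ) + 1) * (-(3 / 2)) : ℝ) : ℂ) +
      (((p - a / (2 * κ) - Real.log ((n : ℝ) + 1)) * u - Real.log ((n : ℝ) + 1) * x : ℝ) : ℂ) *
        I := by
    push_cast
    linear_combination (Real.pi * u / 4 : ℂ) * I_sq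
  unfold G
  rw [h, Complex.norm_exp, Real.rpow_def_of_pos (by positivity), ← Real.exp_add,
    Complex.add_re, Complex.ofReal_re, Complex.re_ofReal_mul, Complex.I_re, mul_zero, add_zero]

theorem vterm (κ μ y : ℝ) (n : ℕ) :
    ((((n : ℝ) + 1) ^ (-(3 / 2) : ℝ) * Real.exp (-(κ * (μ - Real.log ((n : ℝ) + 1)) ^ 2)) : ℝ) : ℂ) *
      cexp (-(I * y * Real.log ((n : ℝ) + 1))) =
    cexp ((Real.log ((n : ℝ) + 1) : ℂ) * (-(3 / 2)) -
      (κ : ℂ) * ((μ : ℂ) - Real.log ((n : ℝ) + 1)) ^ 2 - I * y * Real.log ((n : ℝ) + 1)) := by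
  rw [Real.rpow_def_of_pos (by positivity), ← Real.exp_add, Complex.ofReal_exp, ← Complex.exp_add]
  congr 1
  push_cast
  ring

theorem integral_G {κ : ℝ} (hκ : 0 < κ) (p a x : ℝ) (n : ℕ) :
    ∫ u : ℝ, G κ p a x n u =
      ((Real.sqrt (4 * Real.pi * κ) : ℝ) : ℂ) *
        cexp (κ * Real.pi ^ 2 / 16 - I * κ * Real.pi * (p - a / (2 * κ)) / 2) *
        (((((n : ℝ) + 1) ^ (-(3 / 2) : ℝ) *
          Real.exp (-(κ * ((p - a / (2 * κ)) - Real.log ((n : ℝ) + 1)) ^ 2)) : ℝ) : ℂ) *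
        cexp (-(I * ((x - κ * Real.pi / 2 : ℝ) : ℂ) * Real.log ((n : ℝ) + 1)))) := by
  have hκ' : (κ : ℂ) ≠ 0 := by exact_mod_cast hκ.ne'
  unfold G
  rw [integral_cexp_quadratic (re_b hκ), vterm, mul_assoc, ← Complex.exp_add]
  have h1 : ((Real.pi : ℂ) / -(-(1 / (4 * (κ : ℂ))))) ^ (1 / 2 : ℂ) =
      ((Real.sqrt (4 * Real.pi * κ) : ℝ) : ℂ) := by
    have h2 : ((Real.pi : ℂ) / -(-(1 / (4 * (κ : ℂ))))) = ((4 * Real.pi * κ : ℝ) : ℂ) := by
      push_cast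
      field_simp
    rw [h2, Real.sqrt_eq_rpow, Complex.ofReal_cpow (by positivity)]
    norm_num
  rw [h1]
  congr 1
  congr 1
  have h3 : (I * ((p : ℂ) + I * Real.pi / 4 - a / (2 * κ) - Real.log ((n : ℝ) + 1))) ^ 2 /
      (4 * -(1 / (4 * (κ : ℂ)))) =
      κ * ((p : ℂ) + I * Real.pi / 4 - a / (2 * κ) - Real.log ((n : ℝ) + 1)) ^ 2 := by
    rw [mul_pow, I_sq]
    field_simp
  rw [h3]
  have h4 : (κ : ℂ) * ((p : ℂ) + I * Real.pi / 4 - a / (2 * κ) - Real.log ((n : ℝ) + 1)) ^ 2 =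
      κ * ((p : ℂ) - a / (2 * κ) - Real.log ((n : ℝ) + 1)) ^ 2 +
      I * κ * Real.pi * ((p : ℂ) - a / (2 * κ) - Real.log ((n : ℝ) + 1)) / 2 -
      κ * Real.pi ^ 2 / 16 := by
    linear_combination (κ * Real.pi ^ 2 / 16 : ℂ) * I_sq
  rw [h4]
  push_cast
  ring

theorem app_main (κ p a x : ℝ) (hκ : 0 < κ) :
    ∫ u : ℝ, cexp (I * u * (p + I * Real.pi / 4)) * riemannZeta (3 / 2 + I * (x + u)) * cexp (-(u : ℂ) ^ 2 / (4 * κ) - I * u * a / (2 * κ)) =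
      ((Real.sqrt (4 * Real.pi * κ) : ℝ) : ℂ) * cexp (κ * Real.pi ^ 2 / 16 - I * κ * Real.pi * (p - a / (2 * κ)) / 2) * V κ (p - a / (2 * κ)) (x - κ * Real.pi / 2) := by
  have h0 : (fun u : ℝ => cexp (I * u * (p + I * Real.pi / 4)) * riemannZeta (3 / 2 + I * (x + u)) *
      cexp (-(u : ℂ) ^ 2 / (4 * κ) - I * u * a / (2 * κ))) = fun u => ∑' n : ℕ, G κ p a x n u :=
    funext fun u => integrand_eq κ p a x u
  rw [h0]
  have hint : ∀ n, Integrable (G κ p a x n) := fun n => integrable_cexp_quadratic' (re_b hκ) _ _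
  have hsum : Summable fun n => ∫ u : ℝ, ‖G κ p a x n u‖ := by
    simp_rw [norm_G, integral_mul_const]
    refine Summable.mul_left _ ?_
    have h1 : Summable fun n : ℕ => ((n : ℝ)) ^ (-(3 / 2) : ℝ) :=
      Real.summable_nat_rpow.2 (by norm_num)
    have h2 := (summable_nat_add_iff 1).2 h1
    simpa using h2
  rw [← integral_tsum_of_summable_integral_norm hint hsum]
  unfold V
  rw [← tsum_mul_left]
  exact tsum_congr fun n => integral_G hκ p a x n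

end Pool.Agent.U85.XLP.APPM
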