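import Pool.Agent.U85.XL.Stm

/-!
Project XL, package CR (helper688): crude growth of the xi function in the half plane `1 ≤ re v`.
-/

set_option autoImplicit false

namespace Pool.Agent.U85.XLP.CR

open MeasureTheory Filter Topology Complex Set Pool.Agent.U85.XL

noncomputable section

/-- the modified theta function -/
def fm : ℝ → ℂ := (HurwitzZeta.hurwitzEvenFEPair 0).f_modif

theorem L0_eq (s : ℂ) : completedRiemannZeta₀ s = mellin fm (s / 2) / 2 := rfl

theorem fm_conv (s : ℂ) : MellinConvergent fm s :=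
  ((HurwitzZeta.hurwitzEvenFEPair 0).isStrongFEPair_toStrongFEPair.hasMellin s).1

theorem fm_decay : ∃ p C T1 : ℝ, 0 < p ∧ 0 < C ∧ 1 ≤ T1 ∧
    ∀ t : ℝ, T1 < t → ‖fm t‖ ≤ C * Real.exp (-p * t) := by
  obtain ⟨p, hp, h⟩ := HurwitzZeta.isBigO_atTop_evenKernel_sub 0
  obtain ⟨C, hC, h2⟩ := h.exists_pos
  obtain ⟨T, hT⟩ := eventually_atTop.1 h2.bound
  refine ⟨p, C, max T 1, hp, hC, le_max_right _ _, fun t ht => ?_⟩
  have h3 := hT t ((le_max_left _ _).trans ht.le)
  have ht1 : 1 < t := (le_max_right _ _).trans_lt ht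
  have e : fm t = ((HurwitzZeta.evenKernel 0 t - 1 : ℝ) : ℂ) := by
    unfold fm WeakFEPair.f_modif
    rw [Pi.add_apply, indicator_of_mem (mem_Ioi.mpr ht1),
      indicator_of_notMem (notMem_Ioo_of_ge ht1.le), add_zero]
    simp [HurwitzZeta.hurwitzEvenFEPair]
  rw [e, Complex.norm_real]
  simp only [if_true] at h3
  rw [Real.norm_of_nonneg (Real.exp_pos _).le] at h3
  exact h3

theorem pw {y x : ℝ} (hy : 0 < y) (hx : 0 < x) : y ^ x ≤ x ^ x * Real.exp y := by
  have h1 : y / x ≤ Real.exp (y / x) := by linarith [Real.add_one_le_exp (y / x)]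
  have h2 : (y / x) ^ x ≤ Real.exp (y / x) ^ x := Real.rpow_le_rpow (by positivity) h1 hx.le
  rw [← Real.exp_mul, div_mul_cancel₀ _ hx.ne'] at h2
  have h3 : y ^ x = x ^ x * (y / x) ^ x := by
    rw [← Real.mul_rpow hx.le (by positivity), mul_div_cancel₀ _ hx.ne']
  rw [h3]
  exact mul_le_mul_of_nonneg_left h2 (by positivity)

theorem mel_bound : ∃ A p C T1 : ℝ, 0 ≤ A ∧ 0 < p ∧ 0 ≤ C ∧ 1 ≤ T1 ∧ ∀ w : ℂ, 1 / 2 ≤ w.re →
    ‖mellin fm w‖ ≤ T1 ^ w.re * A + C * ((2 / p) ^ w.re * w.re ^ w.re) := by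
  obtain ⟨p, C, T1, hp, hC, hT1, hd⟩ := fm_decay
  have hA := (fm_conv (1 / 2)).norm
  have hE : IntegrableOn (fun t : ℝ => Real.exp (-(p / 2) * t)) (Ioi 0) :=
    exp_neg_integrableOn_Ioi 0 (by positivity)
  set A : ℝ := ∫ t in Ioi (0 : ℝ), ‖(t : ℂ) ^ ((1 / 2 : ℂ) - 1) • fm t‖ with hAd
  set E : ℝ := ∫ t in Ioi (0 : ℝ), Real.exp (-(p / 2) * t) with hEd
  have hA0 : 0 ≤ A := integral_nonneg fun t => norm_nonneg _
  have hE0 : 0 ≤ E := integral_nonneg fun t => (Real.exp_pos _).le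
  refine ⟨A, p, C * E, T1, hA0, hp, by positivity, hT1, ?_⟩
  intro w hw
  set x : ℝ := w.re with hx
  have hx0 : 0 < x := by linarith
  set D : ℝ := C * ((2 / p) ^ x * x ^ x) with hD
  have hD0 : 0 ≤ D := by positivity
  have hpt : ∀ t ∈ Ioi (0 : ℝ), ‖(t : ℂ) ^ (w - 1) • fm t‖ ≤
      T1 ^ x * ‖(t : ℂ) ^ ((1 / 2 : ℂ) - 1) • fm t‖ + D * Real.exp (-(p / 2) * t) := by
    intro t ht
    have ht0 : 0 < t := ht
    rw [norm_smul, norm_smul, Complex.norm_cpow_eq_rpow_re_of_pos ht0,
      Complex.norm_cpow_eq_rpow_re_of_pos ht0]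
    have r1 : (w - 1).re = x - 1 := by rw [Complex.sub_re, Complex.one_re]
    have r2 : ((1 / 2 : ℂ) - 1).re = -(1 / 2) := by
      rw [Complex.sub_re, Complex.one_re]
      norm_num
    rw [r1, r2]
    rcases le_or_gt t T1 with h | h
    · have h1 : t ^ (x - 1) ≤ T1 ^ x * t ^ (-(1 / 2) : ℝ) := by
        have e1 : t ^ (x - 1) = t ^ (x - 1 / 2) * t ^ (-(1 / 2) : ℝ) := by
          rw [← Real.rpow_add ht0]
          congr 1
          ring
        rw [e1]
        refine mul_le_mul_of_nonneg_right ?_ (by positivity)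
        calc t ^ (x - 1 / 2) ≤ T1 ^ (x - 1 / 2) := Real.rpow_le_rpow ht0.le h (by linarith)
          _ ≤ T1 ^ x := Real.rpow_le_rpow_of_exponent_le hT1 (by linarith)
      have h2 := mul_le_mul_of_nonneg_right h1 (norm_nonneg (fm t))
      have h3 : 0 ≤ D * Real.exp (-(p / 2) * t) := by positivity
      calc t ^ (x - 1) * ‖fm t‖ ≤ T1 ^ x * t ^ (-(1 / 2) : ℝ) * ‖fm t‖ := h2
        _ = T1 ^ x * (t ^ (-(1 / 2) : ℝ) * ‖fm t‖) := by ring
        _ ≤ _ := by linarith
    · have h1 : 1 ≤ t := hT1.trans h.le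
      have h2 : t ^ (x - 1) ≤ t ^ x := Real.rpow_le_rpow_of_exponent_le h1 (by linarith)
      have h3 := hd t h
      have h4 : t ^ x = (2 / p) ^ x * (p * t / 2) ^ x := by
        rw [← Real.mul_rpow (by positivity) (by positivity)]
        congr 1
        field_simp
      have h5 : (p * t / 2) ^ x ≤ x ^ x * Real.exp (p * t / 2) := pw (by positivity) hx0
      have h6 : t ^ (x - 1) * ‖fm t‖ ≤ D * Real.exp (-(p / 2) * t) := by
        calc t ^ (x - 1) * ‖fm t‖ ≤ t ^ x * (C * Real.exp (-p * t)) :=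
              mul_le_mul h2 h3 (norm_nonneg _) (by positivity)
          _ ≤ ((2 / p) ^ x * (x ^ x * Real.exp (p * t / 2))) * (C * Real.exp (-p * t)) := by
              rw [h4]
              exact mul_le_mul_of_nonneg_right (mul_le_mul_of_nonneg_left h5 (by positivity))
                (by positivity)
          _ = D * (Real.exp (p * t / 2) * Real.exp (-p * t)) := by rw [hD]; ring
          _ = D * Real.exp (-(p / 2) * t) := by
              rw [← Real.exp_add]
              congr 2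
              ring
      have h7 : 0 ≤ T1 ^ x * (t ^ (-(1 / 2) : ℝ) * ‖fm t‖) := by positivity
      linarith
  have hi : IntegrableOn (fun t : ℝ => T1 ^ x * ‖(t : ℂ) ^ ((1 / 2 : ℂ) - 1) • fm t‖ +
      D * Real.exp (-(p / 2) * t)) (Ioi 0) := (hA.const_mul _).add (hE.const_mul _)
  calc ‖mellin fm w‖ ≤ ∫ t in Ioi (0 : ℝ), ‖(t : ℂ) ^ (w - 1) • fm t‖ :=
        norm_integral_le_integral_norm _
    _ ≤ ∫ t in Ioi (0 : ℝ), (T1 ^ x * ‖(t : ℂ) ^ ((1 / 2 : ℂ) - 1) • fm t‖ +
          D * Real.exp (-(p / 2) * t)) :=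
        setIntegral_mono_on (fm_conv w).norm hi measurableSet_Ioi hpt
    _ = T1 ^ x * A + D * E := by
        rw [integral_add (hA.const_mul _) (hE.const_mul _), integral_const_mul,
          integral_const_mul]
    _ = _ := by rw [hD]; ring

theorem t_CR : S_CR := by
  obtain ⟨A, p, C, T1, hA, hp, hC, hT1, h⟩ := mel_bound
  set a : ℝ := 2 * Real.log T1 + 2 * A with ha
  set b : ℝ := 1 + 2 * |Real.log (2 / p)| + 2 * C with hb
  have hlT : 0 ≤ Real.log T1 := Real.log_nonneg hT1
  have ha0 : 0 ≤ a := by positivity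
  have hb0 : 1 ≤ b := by
    have : 0 ≤ |Real.log (2 / p)| := abs_nonneg _
    linarith
  refine ⟨4 + a + b, by linarith, ?_⟩
  intro v hv
  set n : ℝ := ‖v‖ with hn
  have hn0 : 0 ≤ n := norm_nonneg v
  have hre : v.re ≤ n := Complex.re_le_norm v
  set l : ℝ := Real.log (2 + n) with hl
  have hl2 : 1 / 2 ≤ l := by
    have h1 : Real.log 2 ≤ l := Real.log_le_log (by norm_num) (by linarith)
    linarith [Real.log_two_gt_d9]
  set X : ℝ := 1 + n with hX
  have hX1 : 1 ≤ X := by linarith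
  set E : ℝ := X * l with hE
  have hXE : X ≤ 2 * E := by
    rw [hE]
    nlinarith
  have hE1 : 1 / 2 ≤ E := by linarith
  have hEe : Real.exp ((4 + a + b) * (1 + n) * l) = Real.exp ((4 + a + b) * E) := by
    rw [hE, hX]
    congr 1
    ring
  rw [hEe]
  have hw : (v / 2).re = v.re / 2 := by
    rw [show (v / 2 : ℂ) = v / ((2 : ℝ) : ℂ) by norm_num, Complex.div_ofReal_re]
  have h1 := h (v / 2) (by rw [hw]; linarith)
  rw [hw] at h1
  set x : ℝ := v.re / 2 with hx
  have hx0 : 0 < x := by linarith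
  have hxX : x ≤ X := by linarith
  have k1 : T1 ^ x ≤ Real.exp (2 * Real.log T1 * E) := by
    rw [Real.rpow_def_of_pos (by linarith)]
    refine Real.exp_le_exp.2 ?_
    calc Real.log T1 * x ≤ Real.log T1 * (2 * E) :=
          mul_le_mul_of_nonneg_left (hxX.trans hXE) hlT
      _ = _ := by ring
  have k2 : A ≤ Real.exp (2 * A * E) := by
    have q1 : A ≤ 2 * A * E := by nlinarith
    linarith [Real.add_one_le_exp (2 * A * E)]
  have k3 : C ≤ Real.exp (2 * C * E) := by
    have q1 : C ≤ 2 * C * E := by nlinarith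
    linarith [Real.add_one_le_exp (2 * C * E)]
  have k4 : (2 / p) ^ x ≤ Real.exp (2 * |Real.log (2 / p)| * E) := by
    rw [Real.rpow_def_of_pos (by positivity)]
    refine Real.exp_le_exp.2 ?_
    calc Real.log (2 / p) * x ≤ |Real.log (2 / p)| * x :=
          mul_le_mul_of_nonneg_right (le_abs_self _) hx0.le
      _ ≤ |Real.log (2 / p)| * (2 * E) :=
          mul_le_mul_of_nonneg_left (hxX.trans hXE) (abs_nonneg _)
      _ = _ := by ring
  have k5 : x ^ x ≤ Real.exp E := by
    rw [Real.rpow_def_of_pos hx0]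
    refine Real.exp_le_exp.2 ?_
    have q1 : Real.log x ≤ l := Real.log_le_log hx0 (by linarith)
    calc Real.log x * x ≤ l * x := mul_le_mul_of_nonneg_right q1 hx0.le
      _ ≤ l * X := mul_le_mul_of_nonneg_left hxX (by linarith)
      _ = E := by rw [hE]; ring
  have m1 : T1 ^ x * A ≤ Real.exp (a * E) := by
    calc T1 ^ x * A ≤ Real.exp (2 * Real.log T1 * E) * Real.exp (2 * A * E) :=
          mul_le_mul k1 k2 hA (Real.exp_pos _).le
      _ = Real.exp (a * E) := by
          rw [← Real.exp_add, ha]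
          congr 1
          ring
  have m2 : C * ((2 / p) ^ x * x ^ x) ≤ Real.exp (b * E) := by
    calc C * ((2 / p) ^ x * x ^ x) ≤
          Real.exp (2 * C * E) * (Real.exp (2 * |Real.log (2 / p)| * E) * Real.exp E) := by
          refine mul_le_mul k3 (mul_le_mul k4 k5 (by positivity) (Real.exp_pos _).le)
            (by positivity) (Real.exp_pos _).le
      _ = Real.exp (b * E) := by
          rw [← Real.exp_add, ← Real.exp_add, hb]
          congr 1
          ring
  have m3 : Real.exp (a * E) ≤ Real.exp ((a + b) * E) :=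
    Real.exp_le_exp.2 (mul_le_mul_of_nonneg_right (by linarith) (by linarith))
  have m4 : Real.exp (b * E) ≤ Real.exp ((a + b) * E) :=
    Real.exp_le_exp.2 (mul_le_mul_of_nonneg_right (by linarith) (by linarith))
  have m5 : ‖completedRiemannZeta₀ v‖ ≤ Real.exp ((a + b) * E) := by
    rw [L0_eq, norm_div, Complex.norm_ofNat]
    linarith
  have m6 : X ≤ Real.exp (2 * E) := by linarith [Real.add_one_le_exp (2 * E)]
  have m7 : ‖v - 1‖ ≤ X := by
    calc ‖v - 1‖ ≤ ‖v‖ + ‖(1 : ℂ)‖ := norm_sub_le _ _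
      _ = X := by rw [norm_one, hX, hn]; ring
  have m8 : ‖v * (v - 1) * completedRiemannZeta₀ v‖ ≤ Real.exp ((4 + a + b) * E) := by
    rw [norm_mul, norm_mul]
    calc ‖v‖ * ‖v - 1‖ * ‖completedRiemannZeta₀ v‖ ≤
          Real.exp (2 * E) * Real.exp (2 * E) * Real.exp ((a + b) * E) := by
          refine mul_le_mul (mul_le_mul ?_ (m7.trans m6) (norm_nonneg _) (Real.exp_pos _).le) m5
            (norm_nonneg _) (by positivity)
          linarith
      _ = _ := by
          rw [← Real.exp_add, ← Real.exp_add]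
          congr 1
          ring
  have m9 : 1 ≤ Real.exp ((4 + a + b) * E) := Real.one_le_exp (by positivity)
  unfold xi
  rw [norm_div, Complex.norm_ofNat]
  have m10 : ‖v * (v - 1) * completedRiemannZeta₀ v + 1‖ ≤ 2 * Real.exp ((4 + a + b) * E) := by
    calc _ ≤ ‖v * (v - 1) * completedRiemannZeta₀ v‖ + ‖(1 : ℂ)‖ := norm_add_le _ _
      _ ≤ Real.exp ((4 + a + b) * E) + Real.exp ((4 + a + b) * E) := by
          rw [norm_one]
          exact add_le_add m8 m9
      _ = _ := by ring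
  linarith

end

end Pool.Agent.U85.XLP.CR
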