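import Mathlib
import Pool.Agent.U85.XL.Stm
import Pool.Agent.H370R2.Digamma

/-!
# Project XL, package DIG (helper129): the logarithmic derivative of the factor of the xi function in
front of zeta
-/

set_option autoImplicit false
set_option linter.all false

namespace Pool.Agent.U85.XLP.DIG

open Complex Filter Topology

theorem le_norm_add' {s : ℂ} (hs : 0 < s.re) {t : ℝ} (ht : 0 ≤ t) : ‖s‖ ≤ ‖s + (t : ℂ)‖ := by
  rw [Complex.norm_def, Complex.norm_def]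
  apply Real.sqrt_le_sqrt
  rw [normSq_apply, normSq_apply]
  simp only [add_re, ofReal_re, add_im, ofReal_im, add_zero]
  nlinarith [mul_nonneg hs.le ht]

theorem log_two {s : ℂ} (hs : 0 < s.re) : ‖log (s + 2) - log s‖ ≤ 2 / ‖s‖ := by
  have hr : 0 < ‖s‖ := lt_of_lt_of_le hs (re_le_norm s)
  have hd : ∀ t ∈ Set.Icc (0 : ℝ) 2,
      HasDerivWithinAt (fun t : ℝ => log (s + (t : ℂ))) (1 / (s + (t : ℂ))) (Set.Icc 0 2) t := by
    intro t ht
    have h1 : HasDerivAt (fun t : ℝ => s + (t : ℂ)) 1 t := by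
      have := (hasDerivAt_id t).ofReal_comp.const_add s
      simpa using this
    have h2 : s + (t : ℂ) ∈ slitPlane := by
      left
      simp only [add_re, ofReal_re]
      linarith [ht.1]
    exact (h1.clog_real h2).hasDerivWithinAt
  have hb : ∀ t ∈ Set.Ico (0 : ℝ) 2, ‖1 / (s + (t : ℂ))‖ ≤ 1 / ‖s‖ := by
    intro t ht
    rw [norm_div, norm_one]
    exact one_div_le_one_div_of_le hr (le_norm_add' hs ht.1)
  have h := norm_image_sub_le_of_norm_deriv_le_segment' hd hb 2 (by norm_num)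
  simp only [ofReal_ofNat, ofReal_zero, add_zero, sub_zero] at h
  refine h.trans (le_of_eq ?_)
  ring

theorem er_le (n : ℕ) {s : ℂ} (hs : 0 < s.re) :
    ‖H370.DG.er n s‖ ≤ 2 * (1 / (‖s‖ + n + 1) - 1 / (‖s‖ + (n + 1 : ℕ) + 1)) := by
  have hr : 0 < ‖s‖ := lt_of_lt_of_le hs (re_le_norm s)
  have hn : (0 : ℝ) ≤ n := Nat.cast_nonneg n
  have h2 := H370.DG.log_step (z := s + ((n : ℂ) + 2)) (by
    simp only [add_re, natCast_re, re_ofNat]
    linarith)
  have h3 : s + ((n : ℂ) + 2) + 1 = s + (n + 3) := by ring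
  rw [h3] at h2
  refine h2.trans ?_
  have h4 : ‖s‖ ^ 2 + ((n : ℝ) + 2) ^ 2 ≤ ‖s + ((n : ℂ) + 2)‖ ^ 2 := by
    rw [← Complex.normSq_eq_norm_sq, ← Complex.normSq_eq_norm_sq, normSq_apply, normSq_apply]
    simp only [add_re, natCast_re, re_ofNat, add_im, natCast_im, im_ofNat, add_zero]
    nlinarith [mul_nonneg hs.le (show (0 : ℝ) ≤ n + 2 by linarith)]
  have h5 : (‖s‖ + n + 1) * (‖s‖ + (n + 1 : ℕ) + 1) ≤ 2 * ‖s + ((n : ℂ) + 2)‖ ^ 2 := by
    push_cast
    nlinarith [sq_nonneg (‖s‖ - ((n : ℝ) + 2))]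
  have p1 : 0 < ‖s‖ + (n : ℝ) + 1 := by linarith
  have p2 : 0 < ‖s‖ + ((n + 1 : ℕ) : ℝ) + 1 := by push_cast; linarith
  have p3 : 0 < ‖s + ((n : ℂ) + 2)‖ ^ 2 := by nlinarith
  have e : 2 * (1 / (‖s‖ + n + 1) - 1 / (‖s‖ + (n + 1 : ℕ) + 1)) =
      2 / ((‖s‖ + n + 1) * (‖s‖ + (n + 1 : ℕ) + 1)) := by
    field_simp
    push_cast
    ring
  rw [e, div_le_div_iff₀ p3 (mul_pos p1 p2)]
  linarith

theorem tsum_er_le {s : ℂ} (hs : 0 < s.re) : ‖∑' n, H370.DG.er n s‖ ≤ 2 / ‖s‖ := by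
  have hr : 0 < ‖s‖ := lt_of_lt_of_le hs (re_le_norm s)
  have hpart : ∀ N : ℕ, ∑ n ∈ Finset.range N, ‖H370.DG.er n s‖ ≤
      2 * (1 / (‖s‖ + 1) - 1 / (‖s‖ + N + 1)) := by
    intro N
    induction N with
    | zero => simp
    | succ N ih =>
      rw [Finset.sum_range_succ]
      have := er_le N hs
      linarith
  have hle : ∀ N : ℕ, ∑ n ∈ Finset.range N, ‖H370.DG.er n s‖ ≤ 2 / ‖s‖ := by
    intro N
    refine (hpart N).trans ?_
    have h1 : 0 ≤ 1 / (‖s‖ + N + 1) := by positivity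
    have h2 : 1 / (‖s‖ + 1) ≤ 1 / ‖s‖ := one_div_le_one_div_of_le hr (by linarith)
    have h3 : 2 / ‖s‖ = 2 * (1 / ‖s‖) := by ring
    rw [h3]
    linarith
  have hsum : Summable fun n => ‖H370.DG.er n s‖ :=
    summable_of_sum_range_le (fun n => norm_nonneg _) hle
  exact (norm_tsum_le_tsum_norm hsum).trans
    (Real.tsum_le_of_sum_range_le (fun n => norm_nonneg _) hle)

/-- the digamma function is close to the logarithm in the right half plane -/
theorem psi_log {s : ℂ} (hs : 0 < s.re) : ‖logDeriv Gamma s - log s‖ ≤ 6 / ‖s‖ := by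
  have hr : 0 < ‖s‖ := lt_of_lt_of_le hs (re_le_norm s)
  rw [H370.DG.logDeriv_Gamma' hs]
  have h1 := log_two hs
  have h2 : ‖1 / s‖ ≤ 1 / ‖s‖ := by rw [norm_div, norm_one]
  have h3 : ‖1 / (s + 1)‖ ≤ 1 / ‖s‖ := by
    rw [norm_div, norm_one]
    have := le_norm_add' hs (t := 1) (by norm_num)
    rw [ofReal_one] at this
    exact one_div_le_one_div_of_le hr this
  have h4 := tsum_er_le hs
  have e : log (s + 2) - 1 / s - 1 / (s + 1) + ∑' n, H370.DG.er n s - log s =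
      (log (s + 2) - log s) - 1 / s - 1 / (s + 1) + ∑' n, H370.DG.er n s := by ring
  rw [e]
  calc ‖(log (s + 2) - log s) - 1 / s - 1 / (s + 1) + ∑' n, H370.DG.er n s‖
      ≤ ‖log (s + 2) - log s‖ + ‖1 / s‖ + ‖1 / (s + 1)‖ + ‖∑' n, H370.DG.er n s‖ := by
        refine (norm_add_le _ _).trans ?_
        gcongr
        refine (norm_sub_le _ _).trans ?_
        gcongr
        exact norm_sub_le _ _
    _ ≤ 2 / ‖s‖ + 1 / ‖s‖ + 1 / ‖s‖ + 2 / ‖s‖ := by gcongr
    _ = 6 / ‖s‖ := by ring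

/-- copy of a lemma of helper606 (`Pool.Agent.U606.MV2.TG`) -/
theorem logDeriv_Gammaℝ' {s : ℂ} (hs : 0 < s.re) : HasDerivAt Gammaℝ
    (Gammaℝ s * (-(Real.log Real.pi : ℂ) / 2 + 1 / 2 * logDeriv Gamma (s / 2))) s := by
  have hpi : (Real.pi : ℂ) ≠ 0 := by exact_mod_cast Real.pi_ne_zero
  have hs2 : 0 < (s / 2).re := by simpa using hs
  have hdG : HasDerivAt Gamma (deriv Gamma (s / 2)) (s / 2) :=
    (Complex.differentiableAt_Gamma _ (fun m h => by
      have := congrArg re h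
      simp only [neg_re, natCast_re] at this
      have hm : (0 : ℝ) ≤ m := Nat.cast_nonneg m
      linarith)).hasDerivAt
  have hne : Gamma (s / 2) ≠ 0 := Gamma_ne_zero_of_re_pos hs2
  have h1 : HasDerivAt (fun z : ℂ => z / 2) (1 / 2) s := (hasDerivAt_id s).div_const 2
  have h2 : HasDerivAt (fun z : ℂ => Gamma (z / 2)) (deriv Gamma (s / 2) * (1 / 2)) s :=
    HasDerivAt.comp s hdG h1
  have h3 : HasDerivAt (fun z : ℂ => (Real.pi : ℂ) ^ (-z / 2))
      ((Real.pi : ℂ) ^ (-s / 2) * log Real.pi * (-1 / 2)) s := by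
    have h4 : HasDerivAt (fun z : ℂ => -z / 2) (-1 / 2) s := ((hasDerivAt_id s).neg).div_const 2
    exact h4.const_cpow (Or.inl hpi)
  have h5 : HasDerivAt Gammaℝ (((Real.pi : ℂ) ^ (-s / 2) * log Real.pi * (-1 / 2)) * Gamma (s / 2) +
      (Real.pi : ℂ) ^ (-s / 2) * (deriv Gamma (s / 2) * (1 / 2))) s := by
    have := h3.mul h2
    exact this
  refine h5.congr_deriv ?_
  rw [logDeriv_apply, Gammaℝ_def, ← Complex.ofReal_log Real.pi_pos.le]
  field_simp

theorem t_DIG : Pool.Agent.U85.XL.S_DIG := by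
  refine ⟨9, by norm_num, fun v hre him => ?_⟩
  have hv0 : v ≠ 0 := by
    intro h
    rw [h] at hre
    simp at hre
    linarith
  have hv1 : v - 1 ≠ 0 := by
    intro h
    have := congrArg im h
    simp at this
    linarith
  have hvp : 0 < v.re := by linarith
  have hG : Gammaℝ v ≠ 0 := by
    rw [Gammaℝ_def]
    refine mul_ne_zero ?_ (Gamma_ne_zero_of_re_pos (by simpa using hvp))
    rw [Ne, cpow_eq_zero_iff]
    rintro ⟨h, -⟩
    exact Real.pi_ne_zero (by exact_mod_cast h)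
  have hgg : Pool.Agent.U85.XL.gg v ≠ 0 := by
    unfold Pool.Agent.U85.XL.gg
    exact mul_ne_zero (div_ne_zero (mul_ne_zero hv0 hv1) two_ne_zero) hG
  refine ⟨hgg, ?_⟩
  obtain ⟨ψ, hψ⟩ : ∃ ψ : ℂ, ψ = logDeriv Gamma (v / 2) := ⟨_, rfl⟩
  have hd : HasDerivAt Pool.Agent.U85.XL.gg
      ((2 * v - 1) / 2 * Gammaℝ v + v * (v - 1) / 2 *
        (Gammaℝ v * (-(Real.log Real.pi : ℂ) / 2 + 1 / 2 * ψ))) v := by
    have h1 : HasDerivAt (fun v : ℂ => v * (v - 1) / 2) ((2 * v - 1) / 2) v := by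
      have := ((hasDerivAt_id v).mul ((hasDerivAt_id v).sub_const 1)).div_const 2
      refine this.congr_deriv ?_
      simp only [id]
      ring
    rw [hψ]
    exact h1.mul (logDeriv_Gammaℝ' hvp)
  have hquot : deriv Pool.Agent.U85.XL.gg v / Pool.Agent.U85.XL.gg v =
      1 / v + 1 / (v - 1) + (-(Real.log Real.pi : ℂ) / 2 + 1 / 2 * ψ) := by
    rw [hd.deriv]
    unfold Pool.Agent.U85.XL.gg
    field_simp
    ring
  have hlog : Complex.log (v / (2 * Real.pi)) = Complex.log (v / 2) - (Real.log Real.pi : ℂ) := by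
    have hp : 0 < (1 / Real.pi : ℝ) := by positivity
    have e : v / (2 * Real.pi) = ((1 / Real.pi : ℝ) : ℂ) * (v / 2) := by
      push_cast
      have : (Real.pi : ℂ) ≠ 0 := by exact_mod_cast Real.pi_ne_zero
      field_simp
    rw [e, log_ofReal_mul hp (by simpa using hv0), one_div, Real.log_inv]
    push_cast
    ring
  rw [hquot, hlog]
  have e : 1 / v + 1 / (v - 1) + (-(Real.log Real.pi : ℂ) / 2 + 1 / 2 * ψ) -
      (Complex.log (v / 2) - (Real.log Real.pi : ℂ)) / 2 =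
      1 / v + 1 / (v - 1) + 1 / 2 * (ψ - Complex.log (v / 2)) := by ring
  rw [e]
  have hr : 0 < ‖v‖ := norm_pos_iff.2 hv0
  have n1 : ‖1 / v‖ = 1 / ‖v‖ := by rw [norm_div, norm_one]
  have n2 : ‖1 / (v - 1)‖ ≤ 2 / ‖v‖ := by
    have h1 : 1 ≤ ‖v - 1‖ := by
      have h2 := (le_abs_self _).trans (abs_im_le_norm (v - 1))
      simp only [sub_im, one_im, sub_zero] at h2
      linarith
    have h3 : ‖v‖ ≤ ‖v - 1‖ + 1 := by
      have := norm_add_le (v - 1) 1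
      rwa [sub_add_cancel, norm_one] at this
    rw [norm_div, norm_one, div_le_div_iff₀ (by linarith) hr]
    linarith
  have n3 : ‖(1 / 2 : ℂ) * (ψ - Complex.log (v / 2))‖ ≤ 6 / ‖v‖ := by
    have h1 := psi_log (s := v / 2) (by simpa using hvp)
    rw [← hψ] at h1
    have h2 : ‖v / 2‖ = ‖v‖ / 2 := by rw [norm_div]; norm_num
    rw [h2] at h1
    rw [norm_mul]
    have h3 : ‖(1 / 2 : ℂ)‖ = 1 / 2 := by rw [norm_div, norm_one]; norm_num
    rw [h3]
    calc 1 / 2 * ‖ψ - Complex.log (v / 2)‖ ≤ 1 / 2 * (6 / (‖v‖ / 2)) := by gcongr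
      _ = 6 / ‖v‖ := by field_simp
  calc ‖1 / v + 1 / (v - 1) + 1 / 2 * (ψ - Complex.log (v / 2))‖
      ≤ ‖1 / v‖ + ‖1 / (v - 1)‖ + ‖(1 / 2 : ℂ) * (ψ - Complex.log (v / 2))‖ := norm_add₃_le
    _ ≤ 1 / ‖v‖ + 2 / ‖v‖ + 6 / ‖v‖ := by
        rw [n1]
        gcongr
    _ = 9 / ‖v‖ := by ring

end Pool.Agent.U85.XLP.DIG
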