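import Mathlib
import Pool.Agent.U85.XL.Stm

/-!
# Package ENT of project XL: the deformed Xi functions are entire

(written by helper810)
-/

set_option autoImplicit false

namespace Pool.Agent.U85.XLP.ENT

open MeasureTheory Filter Topology Complex
open Pool.Agent.U85.XL

theorem norm_cexp_le (z : ℂ) (t : ℝ) : ‖cexp (I * z * t)‖ ≤ Real.exp (‖z‖ * |t|) := by
  rw [Complex.norm_exp]
  refine Real.exp_le_exp.2 ?_
  have h1 : (I * z * (t : ℂ)).re ≤ ‖I * z * (t : ℂ)‖ := Complex.re_le_norm _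
  rwa [norm_mul, norm_mul, Complex.norm_I, one_mul, Complex.norm_real, Real.norm_eq_abs] at h1

theorem t_ENT : S_X0 → S_ENT := by
  rintro ⟨hint, hpos, -⟩ lam hlam z₀
  -- measurability of the kernel
  have hΦ : AEStronglyMeasurable Phi volume := by
    have h1 := (hint 0).aestronglyMeasurable
    have h2 : (fun t : ℝ => |Phi t| * Real.exp (0 * |t|)) = Phi := by
      funext t
      rw [zero_mul, Real.exp_zero, mul_one, abs_of_pos (hpos t)]
    rwa [h2] at h1
  have hw : AEStronglyMeasurable (fun t : ℝ => ((Phi t * Real.exp (lam * t ^ 2) : ℝ) : ℂ)) volume := by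
    refine Complex.continuous_ofReal.comp_aestronglyMeasurable (hΦ.mul ?_)
    exact (by fun_prop : Continuous fun t : ℝ => Real.exp (lam * t ^ 2)).aestronglyMeasurable
  have hwle : ∀ t : ℝ, ‖((Phi t * Real.exp (lam * t ^ 2) : ℝ) : ℂ)‖ ≤ |Phi t| := by
    intro t
    rw [Complex.norm_real, Real.norm_eq_abs, abs_mul, Real.abs_exp]
    have h1 : Real.exp (lam * t ^ 2) ≤ 1 := by
      rw [Real.exp_le_one_iff]
      nlinarith [sq_nonneg t]
    calc |Phi t| * Real.exp (lam * t ^ 2) ≤ |Phi t| * 1 :=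
          mul_le_mul_of_nonneg_left h1 (abs_nonneg _)
      _ = |Phi t| := mul_one _
  have hcexp : ∀ z : ℂ, AEStronglyMeasurable (fun t : ℝ => cexp (I * z * t)) volume := fun z =>
    (by fun_prop : Continuous fun t : ℝ => cexp (I * z * t)).aestronglyMeasurable
  have hF : ∀ z : ℂ, AEStronglyMeasurable
      (fun t : ℝ => ((Phi t * Real.exp (lam * t ^ 2) : ℝ) : ℂ) * cexp (I * z * t)) volume :=
    fun z => hw.mul (hcexp z)
  have hFint : Integrable
      (fun t : ℝ => ((Phi t * Real.exp (lam * t ^ 2) : ℝ) : ℂ) * cexp (I * z₀ * t)) volume := by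
    refine (hint ‖z₀‖).mono' (hF z₀) (Filter.Eventually.of_forall fun t => ?_)
    rw [norm_mul]
    exact mul_le_mul (hwle t) (norm_cexp_le z₀ t) (norm_nonneg _) (abs_nonneg _)
  have hF' : AEStronglyMeasurable (fun t : ℝ => ((Phi t * Real.exp (lam * t ^ 2) : ℝ) : ℂ) *
      (cexp (I * z₀ * t) * (I * t))) volume :=
    hw.mul ((hcexp z₀).mul
      (by fun_prop : Continuous fun t : ℝ => (I * (t : ℂ))).aestronglyMeasurable)
  have hb : ∀ᵐ t : ℝ ∂volume, ∀ z ∈ Metric.ball z₀ 1,
      ‖((Phi t * Real.exp (lam * t ^ 2) : ℝ) : ℂ) * (cexp (I * z * t) * (I * t))‖ ≤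
        |Phi t| * Real.exp ((‖z₀‖ + 2) * |t|) := by
    refine Filter.Eventually.of_forall fun t z hz => ?_
    rw [norm_mul]
    refine mul_le_mul (hwle t) ?_ (norm_nonneg _) (abs_nonneg _)
    rw [norm_mul, norm_mul, Complex.norm_I, one_mul, Complex.norm_real, Real.norm_eq_abs]
    have h1 : ‖z‖ ≤ ‖z₀‖ + 1 := by
      have h2 : ‖z - z₀‖ < 1 := by rwa [Metric.mem_ball, dist_eq_norm] at hz
      have h3 : ‖z‖ ≤ ‖z₀‖ + ‖z - z₀‖ := by
        calc ‖z‖ = ‖z₀ + (z - z₀)‖ := by rw [add_sub_cancel]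
          _ ≤ _ := norm_add_le _ _
      linarith
    have h2 : |t| ≤ Real.exp |t| := by
      have := Real.add_one_le_exp |t|
      linarith
    calc ‖cexp (I * z * t)‖ * |t| ≤ Real.exp ((‖z₀‖ + 1) * |t|) * Real.exp |t| := by
          refine mul_le_mul ((norm_cexp_le z t).trans (Real.exp_le_exp.2 ?_)) h2 (abs_nonneg _)
            (Real.exp_pos _).le
          exact mul_le_mul_of_nonneg_right h1 (abs_nonneg _)
      _ = Real.exp ((‖z₀‖ + 2) * |t|) := by
          rw [← Real.exp_add]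
          congr 1
          ring
  have hd : ∀ᵐ t : ℝ ∂volume, ∀ z ∈ Metric.ball z₀ 1,
      HasDerivAt (fun z : ℂ => ((Phi t * Real.exp (lam * t ^ 2) : ℝ) : ℂ) * cexp (I * z * t))
        (((Phi t * Real.exp (lam * t ^ 2) : ℝ) : ℂ) * (cexp (I * z * t) * (I * t))) z := by
    refine Filter.Eventually.of_forall fun t z _ => ?_
    have h1 : HasDerivAt (fun z : ℂ => I * z * (t : ℂ)) (I * t) z := by
      have h2 := ((hasDerivAt_id z).const_mul I).mul_const (t : ℂ)
      rw [mul_one] at h2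
      exact h2
    exact (h1.cexp).const_mul _
  have hmain := hasDerivAt_integral_of_dominated_loc_of_deriv_le
    (F := fun (z : ℂ) (t : ℝ) => ((Phi t * Real.exp (lam * t ^ 2) : ℝ) : ℂ) * cexp (I * z * t))
    (F' := fun (z : ℂ) (t : ℝ) => ((Phi t * Real.exp (lam * t ^ 2) : ℝ) : ℂ) *
      (cexp (I * z * t) * (I * t)))
    (Metric.ball_mem_nhds z₀ one_pos) (Filter.Eventually.of_forall hF) hFint hF' hb
    (hint (‖z₀‖ + 2)) hd
  exact hmain.2.differentiableAt

end Pool.Agent.U85.XLP.ENT
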