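import Mathlib
import Pool.Agent.U85.XL.Stm

/-!
Project XL, package GR: integrated form of the logarithmic derivative.
-/

set_option autoImplicit false

namespace Pool.Agent.U85.XLP.GR

open MeasureTheory Filter Topology Complex
open Pool.Agent.U85.XL

noncomputable section

/-- an antiderivative of `log (v / 2 pi) / 2` -/
def P (v : ℂ) : ℂ := v / 2 * (Complex.log (v / (2 * Real.pi)) - 1)

/-- the corrected factor -/
def hh (v : ℂ) : ℂ := gg v * cexp (-(P v))

lemma im_div (z : ℂ) : (z / (2 * Real.pi)).im = z.im / (2 * Real.pi) := by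
  have h2 : (2 * (Real.pi : ℂ)) = ((2 * Real.pi : ℝ) : ℂ) := by push_cast; rfl
  rw [h2, Complex.div_ofReal_im]

lemma slit {z : ℂ} (h : 0 < z.im) : z / (2 * Real.pi) ∈ slitPlane := by
  rw [mem_slitPlane_iff]
  right
  rw [im_div]
  have := Real.pi_pos
  positivity

lemma hlog {z : ℂ} (h : 0 < z.im) :
    HasDerivAt (fun z : ℂ => Complex.log (z / (2 * Real.pi))) (1 / z) z := by
  have h1 : HasDerivAt (fun z : ℂ => z / (2 * Real.pi)) (1 / (2 * Real.pi)) z :=
    (hasDerivAt_id z).div_const _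
  have h2 := h1.clog (slit h)
  have hz : z ≠ 0 := by
    rintro rfl
    simp at h
  have hpi : (Real.pi : ℂ) ≠ 0 := by exact_mod_cast Real.pi_ne_zero
  have e : (1 / (2 * (Real.pi : ℂ))) / (z / (2 * Real.pi)) = 1 / z := by
    field_simp
  rw [e] at h2
  exact h2

lemma hP {z : ℂ} (h : 0 < z.im) : HasDerivAt P (Complex.log (z / (2 * Real.pi)) / 2) z := by
  have hz : z ≠ 0 := by
    rintro rfl
    simp at h
  have h1 := ((hasDerivAt_id z).div_const 2).mul ((hlog h).sub_const 1)
  have e : 1 / 2 * (Complex.log (z / (2 * Real.pi)) - 1) + id z / 2 * (1 / z) =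
      Complex.log (z / (2 * Real.pi)) / 2 := by
    simp only [id]
    field_simp
    ring
  rw [e] at h1
  exact h1

lemma logm {m : ℝ} (hm : 0 < m) {z z' : ℂ} (hz : m ≤ z.im) (hz' : m ≤ z'.im) :
    ‖Complex.log (z / (2 * Real.pi)) - Complex.log (z' / (2 * Real.pi))‖ ≤ ‖z - z'‖ / m := by
  have h := Convex.norm_image_sub_le_of_norm_hasDerivWithin_le
    (f := fun z : ℂ => Complex.log (z / (2 * Real.pi))) (f' := fun z => 1 / z) (C := 1 / m)
    (s := {z : ℂ | m ≤ z.im}) (x := z') (y := z)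
    (fun x hx => (hlog (lt_of_lt_of_le hm hx)).hasDerivWithinAt)
    (fun x hx => by
      rw [norm_div, norm_one]
      apply one_div_le_one_div_of_le hm
      exact (le_trans hx (le_abs_self _)).trans (Complex.abs_im_le_norm x))
    (convex_halfSpace_im_ge m) hz' hz
  rw [one_div, inv_mul_eq_div] at h
  exact h

lemma logI {y : ℝ} (hy : 0 < y) : Complex.log (I * y / (2 * Real.pi)) =
    ((Real.log (y / (2 * Real.pi)) : ℝ) : ℂ) + I * Real.pi / 2 := by
  have hp := Real.pi_pos
  have e : I * (y : ℂ) / (2 * Real.pi) = ((y / (2 * Real.pi) : ℝ) : ℂ) * I := by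
    push_cast; ring
  rw [e, Complex.log_ofReal_mul (by positivity) I_ne_zero, Complex.log_I]
  ring

lemma dG {v : ℂ} (h : 1 ≤ v.re) : DifferentiableAt ℂ gg v := by
  have h1 : DifferentiableAt ℂ Gammaℝ v := by
    have e : Gammaℝ = fun s : ℂ => (Real.pi : ℂ) ^ (-s / 2) * Complex.Gamma (s / 2) := by
      funext s; exact Complex.Gammaℝ_def s
    rw [e]
    refine DifferentiableAt.mul ?_ ?_
    · refine DifferentiableAt.const_cpow (by fun_prop) (Or.inl ?_)
      exact_mod_cast Real.pi_ne_zero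
    · have h2 : DifferentiableAt ℂ Complex.Gamma (v / 2) := by
        apply Complex.differentiableAt_Gamma
        intro m hm
        have := congrArg Complex.re hm
        simp at this
        have hm0 : (0 : ℝ) ≤ m := Nat.cast_nonneg m
        linarith
      exact h2.comp v (by fun_prop)
  unfold gg
  exact DifferentiableAt.mul (by fun_prop) h1

lemma dhh {v : ℂ} (hr : 1 ≤ v.re) (hi : 0 < v.im) (hne : gg v ≠ 0) :
    HasDerivAt hh (hh v * (deriv gg v / gg v - Complex.log (v / (2 * Real.pi)) / 2)) v := by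
  have h1 := (dG hr).hasDerivAt.mul (hP hi).neg.cexp
  have e : deriv gg v * cexp (-(P v)) + gg v * (cexp (-(P v)) *
      -(Complex.log (v / (2 * Real.pi)) / 2)) =
      hh v * (deriv gg v / gg v - Complex.log (v / (2 * Real.pi)) / 2) := by
    unfold hh
    field_simp
    ring
  rw [← e]
  exact h1

lemma gron {C m : ℝ} (hC : 0 ≤ C) (hm : 1 ≤ m)
    (hD : ∀ v : ℂ, 1 ≤ v.re → 1 ≤ v.im → gg v ≠ 0 ∧
      ‖deriv gg v / gg v - Complex.log (v / (2 * Real.pi)) / 2‖ ≤ C / ‖v‖)
    {v v' : ℂ} (hr : 1 ≤ v.re) (hr' : 1 ≤ v'.re) (hi : m ≤ v.im) (hi' : m ≤ v'.im) :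
    ‖hh v'‖ ≤ ‖hh v‖ * Real.exp (C * ‖v' - v‖ / m) ∧
    ‖hh v' - hh v‖ ≤ C * ‖v' - v‖ / m * Real.exp (C * ‖v' - v‖ / m) * ‖hh v‖ := by
  set K : ℝ := C * ‖v' - v‖ / m with hK
  have hm0 : 0 < m := by linarith
  have hK0 : 0 ≤ K := by positivity
  let γ : ℝ → ℂ := fun t => v + (t : ℂ) * (v' - v)
  have hγ : ∀ t : ℝ, HasDerivAt γ (v' - v) t := by
    intro t
    have h := ((hasDerivAt_id t).ofReal_comp.mul_const (v' - v)).const_add v
    simpa [γ] using h
  have hre : ∀ t ∈ Set.Icc (0 : ℝ) 1, 1 ≤ (γ t).re := by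
    intro t ht
    have : (γ t).re = v.re + t * (v'.re - v.re) := by simp [γ]
    rw [this]
    nlinarith [ht.1, ht.2]
  have him : ∀ t ∈ Set.Icc (0 : ℝ) 1, m ≤ (γ t).im := by
    intro t ht
    have : (γ t).im = v.im + t * (v'.im - v.im) := by simp [γ]
    rw [this]
    nlinarith [ht.1, ht.2]
  let H' : ℝ → ℂ := fun t => (v' - v) • (hh (γ t) *
    (deriv gg (γ t) / gg (γ t) - Complex.log (γ t / (2 * Real.pi)) / 2))
  have hH : ∀ t ∈ Set.Icc (0 : ℝ) 1, HasDerivAt (fun t => hh (γ t)) (H' t) t := by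
    intro t ht
    have h1 := dhh (hre t ht) (by linarith [him t ht])
      (hD _ (hre t ht) (by linarith [him t ht])).1
    exact HasDerivAt.scomp t h1 (hγ t)
  have hb : ∀ t ∈ Set.Icc (0 : ℝ) 1, ‖H' t‖ ≤ K * ‖hh (γ t)‖ := by
    intro t ht
    have h1 := (hD _ (hre t ht) (by linarith [him t ht])).2
    have h2 : m ≤ ‖γ t‖ := (le_trans (him t ht) (le_abs_self _)).trans (Complex.abs_im_le_norm _)
    have h3 : C / ‖γ t‖ ≤ C / m := div_le_div_of_nonneg_left hC hm0 h2
    simp only [H']
    rw [norm_smul, norm_mul]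
    calc ‖v' - v‖ * (‖hh (γ t)‖ * _) ≤ ‖v' - v‖ * (‖hh (γ t)‖ * (C / m)) := by
          gcongr
          exact h1.trans h3
      _ = K * ‖hh (γ t)‖ := by rw [hK]; ring
  have hcont : ContinuousOn (fun t => hh (γ t)) (Set.Icc 0 1) := fun t ht =>
    (hH t ht).continuousAt.continuousWithinAt
  have hG := norm_le_gronwallBound_of_norm_deriv_right_le (f := fun t => hh (γ t)) (f' := H')
    (δ := ‖hh (γ 0)‖) (K := K) (ε := 0) (a := 0) (b := 1) hcont
    (fun t ht => (hH t ⟨ht.1, ht.2.le⟩).hasDerivWithinAt) le_rfl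
    (fun t ht => by rw [add_zero]; exact hb t ⟨ht.1, ht.2.le⟩)
  have h0 : γ 0 = v := by simp [γ]
  have h1 : γ 1 = v' := by simp [γ]
  have hall : ∀ t ∈ Set.Icc (0 : ℝ) 1, ‖hh (γ t)‖ ≤ ‖hh v‖ * Real.exp K := by
    intro t ht
    have h := hG t ht
    rw [gronwallBound_ε0, h0] at h
    refine h.trans (mul_le_mul_of_nonneg_left (Real.exp_le_exp.2 ?_) (norm_nonneg _))
    nlinarith [ht.2]
  refine ⟨?_, ?_⟩
  · have := hall 1 ⟨zero_le_one, le_rfl⟩
    rwa [h1] at this
  · have h := norm_image_sub_le_of_norm_deriv_le_segment_01' (f := fun t => hh (γ t)) (f' := H')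
      (C := K * (‖hh v‖ * Real.exp K))
      (fun t ht => (hH t ht).hasDerivWithinAt)
      (fun t ht => (hb t ⟨ht.1, ht.2.le⟩).trans
        (mul_le_mul_of_nonneg_left (hall t ⟨ht.1, ht.2.le⟩) hK0))
    simp only [h0, h1] at h
    calc ‖hh v' - hh v‖ ≤ K * (‖hh v‖ * Real.exp K) := h
      _ = K * Real.exp K * ‖hh v‖ := by ring

lemma gg_eq (v : ℂ) : gg v = hh v * cexp (P v) := by
  unfold hh
  rw [mul_assoc, ← Complex.exp_add, neg_add_cancel, Complex.exp_zero, mul_one]

lemma norm_gg (v : ℂ) : ‖gg v‖ = ‖hh v‖ * Real.exp (P v).re := by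
  rw [gg_eq, norm_mul, Complex.norm_exp]

/-- the real part of the antiderivative -/
lemma reP {x c y : ℝ} (hx : 0 < x) (hc : 0 < c) (hy1 : x / 2 ≤ y) (hy2 : y ≤ 3 * x / 2)
    (hcx : c ≤ x / 2) :
    |(P (c + I * y)).re - (c / 2 * Real.log x - Real.pi * y / 4)| ≤ 3 * c := by
  have hy0 : 0 < y := by linarith
  set z : ℂ := c + I * y with hz
  have hzi : z.im = y := by simp [hz]
  have hzr : z.re = c := by simp [hz]
  have h1 := logm hy0 (z := z) (z' := I * y) (by rw [hzi]) (by simp)
  have h2 : z - I * y = (c : ℂ) := by rw [hz]; ring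
  rw [h2, Complex.norm_real, Real.norm_eq_abs, abs_of_pos hc, logI hy0] at h1
  set δ : ℂ := Complex.log (z / (2 * Real.pi)) -
    (((Real.log (y / (2 * Real.pi)) : ℝ) : ℂ) + I * Real.pi / 2) with hδ
  have h3 : P z = z / 2 * ((((Real.log (y / (2 * Real.pi)) : ℝ) : ℂ) + I * Real.pi / 2) - 1) +
      z / 2 * δ := by
    rw [hδ]; unfold P; ring
  have h4 : (z / 2 * ((((Real.log (y / (2 * Real.pi)) : ℝ) : ℂ) + I * Real.pi / 2) - 1)).re =
      c / 2 * (Real.log (y / (2 * Real.pi)) - 1) - Real.pi * y / 4 := by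
    rw [hz]
    have e : ((c : ℂ) + I * y) / 2 *
        ((((Real.log (y / (2 * Real.pi)) : ℝ) : ℂ) + I * Real.pi / 2) - 1) =
        ((c / 2 * (Real.log (y / (2 * Real.pi)) - 1) - Real.pi * y / 4 : ℝ) : ℂ) +
        ((c * Real.pi / 4 + y / 2 * (Real.log (y / (2 * Real.pi)) - 1) : ℝ) : ℂ) * I := by
      push_cast
      linear_combination (y : ℂ) * Real.pi / 4 * I_sq
    rw [e]
    simp
  have h5 : ‖z / 2 * δ‖ ≤ c := by
    rw [norm_mul, norm_div]
    have : ‖z‖ ≤ c + y := by
      rw [hz]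
      refine (norm_add_le _ _).trans ?_
      rw [norm_mul, Complex.norm_I, Complex.norm_real, Complex.norm_real, Real.norm_eq_abs,
        Real.norm_eq_abs, abs_of_pos hc, abs_of_pos hy0, one_mul]
    have h6 : ‖(2 : ℂ)‖ = 2 := by simp
    rw [h6]
    calc ‖z‖ / 2 * ‖δ‖ ≤ (c + y) / 2 * (c / y) := by
          apply mul_le_mul (by linarith) h1 (norm_nonneg _) (by positivity)
      _ ≤ y * (c / y) := by
          apply mul_le_mul_of_nonneg_right (by linarith) (by positivity)
      _ = c := by field_simp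
  have h6 : |(z / 2 * δ).re| ≤ c := (Complex.abs_re_le_norm _).trans h5
  have hlp : Real.log (2 * Real.pi) ≤ 2 := by
    have h7 : 2 * Real.pi ≤ Real.exp 2 := by
      have h8 := Real.pi_lt_d2
      have h9 := Real.exp_one_gt_d9
      have h10 : Real.exp 2 = Real.exp 1 * Real.exp 1 := by rw [← Real.exp_add]; norm_num
      rw [h10]
      nlinarith
    calc Real.log (2 * Real.pi) ≤ Real.log (Real.exp 2) :=
          Real.log_le_log (by positivity) h7
      _ = 2 := Real.log_exp 2
  have hlp0 : 0 ≤ Real.log (2 * Real.pi) := Real.log_nonneg (by linarith [Real.pi_gt_three])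
  have hly : |Real.log y - Real.log x| ≤ 7 / 10 := by
    have hl2 := Real.log_two_lt_d9
    have a1 : Real.log (x / 2) ≤ Real.log y := Real.log_le_log (by positivity) hy1
    have a2 : Real.log y ≤ Real.log (2 * x) := Real.log_le_log hy0 (by linarith)
    rw [Real.log_div hx.ne' (by norm_num)] at a1
    rw [Real.log_mul (by norm_num) hx.ne'] at a2
    rw [abs_le]
    constructor <;> linarith
  have hld : Real.log (y / (2 * Real.pi)) = Real.log y - Real.log (2 * Real.pi) :=
    Real.log_div hy0.ne' (by positivity)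
  rw [h3, Complex.add_re, h4, hld]
  rw [abs_le] at h6 hly ⊢
  constructor <;> nlinarith

/-- the difference of the antiderivative over a short vertical segment -/
lemma difP {x c u : ℝ} (hx : 0 < x) (hc : 0 < c) (hu : |u| ≤ x / 2) :
    ‖P (c + I * (x + u)) - P (c + I * x) -
      I * u * (Real.log (x / (2 * Real.pi)) / 2 + I * Real.pi / 4)‖ ≤ |u| * (c + |u|) / x := by
  set w₀ : ℂ := ((Real.log (x / (2 * Real.pi)) : ℝ) : ℂ) / 2 + I * Real.pi / 4 with hw
  have hu' := abs_le.1 hu
  have h := Convex.norm_image_sub_le_of_norm_hasDerivWithin_le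
    (f := fun z : ℂ => P z - z * w₀)
    (f' := fun z => Complex.log (z / (2 * Real.pi)) / 2 - w₀) (C := (c + |u|) / x)
    (s := {z : ℂ | x / 2 ≤ z.im} ∩ Metric.closedBall (I * x) (c + |u|))
    (x := c + I * x) (y := c + I * (x + u))
    (fun z hz => by
      have h1 := (hP (z := z) (by
        have := hz.1
        simp only [Set.mem_ofPred_eq] at this
        linarith)).sub ((hasDerivAt_id z).mul_const w₀)
      rw [one_mul] at h1
      exact h1.hasDerivWithinAt)
    (fun z hz => by
      have h1 := logm (m := x / 2) (by positivity) (z := z) (z' := I * x) hz.1 (by simp; linarith)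
      rw [logI hx] at h1
      have h2 : ‖z - I * x‖ ≤ c + |u| := by
        have := hz.2
        rwa [Metric.mem_closedBall, dist_eq_norm] at this
      have h3 : Complex.log (z / (2 * Real.pi)) / 2 - w₀ = (Complex.log (z / (2 * Real.pi)) -
          (((Real.log (x / (2 * Real.pi)) : ℝ) : ℂ) + I * Real.pi / 2)) / 2 := by
        rw [hw]; ring
      rw [h3, norm_div]
      have h6 : ‖(2 : ℂ)‖ = 2 := by simp
      rw [h6]
      have h7 : ‖z - I * x‖ / (x / 2) ≤ (c + |u|) / (x / 2) :=
        div_le_div_of_nonneg_right h2 (by positivity)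
      have h8 : (c + |u|) / (x / 2) = 2 * ((c + |u|) / x) := by field_simp
      linarith)
    ((convex_halfSpace_im_ge _).inter (convex_closedBall _ _))
    ⟨by simp; linarith, by
      rw [Metric.mem_closedBall, dist_eq_norm]
      have : (c : ℂ) + I * x - I * x = c := by ring
      rw [this, Complex.norm_real, Real.norm_eq_abs, abs_of_pos hc]
      linarith [abs_nonneg u]⟩
    ⟨by simp; linarith, by
      rw [Metric.mem_closedBall, dist_eq_norm]
      have : (c : ℂ) + I * (x + u) - I * x = c + I * u := by ring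
      rw [this]
      refine (norm_add_le _ _).trans ?_
      rw [norm_mul, Complex.norm_I, Complex.norm_real, Complex.norm_real, Real.norm_eq_abs,
        Real.norm_eq_abs, abs_of_pos hc, one_mul]⟩
  have e1 : P (c + I * (x + u)) - (c + I * (x + u)) * w₀ - (P (c + I * x) - (c + I * x) * w₀) =
      P (c + I * (x + u)) - P (c + I * x) - I * u * w₀ := by ring
  have e2 : (c : ℂ) + I * (x + u) - (c + I * x) = I * u := by ring
  simp only [e1, e2] at h
  rw [norm_mul I, Complex.norm_I, Complex.norm_real, Real.norm_eq_abs, one_mul] at h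
  calc _ ≤ (c + |u|) / x * |u| := h
    _ = _ := by ring

lemma pi_abs (u : ℝ) : |Real.pi * u / 4| ≤ |u| := by
  rw [abs_div, abs_mul, abs_of_pos Real.pi_pos, abs_of_pos (by norm_num : (0 : ℝ) < 4),
    div_le_iff₀ (by norm_num)]
  have := mul_le_mul_of_nonneg_right Real.pi_le_four (abs_nonneg u)
  linarith

lemma exp2 : Real.exp 1 * Real.exp 1 ≤ 8 := by
  have h1 := Real.exp_one_lt_d9
  have h0 := Real.exp_pos 1
  nlinarith

lemma abs_le_sq (u : ℝ) : |u| ≤ 1 + u ^ 2 := by
  rw [← sq_abs]
  nlinarith [sq_nonneg (|u| - 1), abs_nonneg u]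

lemma sq_le_mul {u L : ℝ} (h : 1 ≤ L) : u ^ 2 ≤ (1 + u ^ 2) * L := by
  nlinarith [sq_nonneg u]

theorem t_GR : S_DIG → S_GR := by
  rintro ⟨C₀, hC₀, hD⟩ B hB
  refine ⟨18 * C₀ + 10 * B + 2, (8 * B + 2 * C₀ + 1) ^ 4, by linarith, ?_, ?_⟩
  · have h1 : (3 : ℝ) ≤ 8 * B + 2 * C₀ + 1 := by linarith
    calc (3 : ℝ) ≤ 3 ^ 4 := by norm_num
      _ ≤ _ := pow_le_pow_left₀ (by norm_num) h1 4
  intro x hx c c' hc1 hcB hc1' hcB'
  set q : ℝ := x ^ (1 / 4 : ℝ) with hq
  have hx0 : 0 < x := lt_of_lt_of_le (by positivity) hx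
  have hq0 : 0 < q := Real.rpow_pos_of_pos hx0 _
  have hq4 : q ^ 4 = x := by
    rw [hq, ← Real.rpow_natCast, ← Real.rpow_mul hx0.le]
    norm_num
  have hqq : 8 * B + 2 * C₀ + 1 ≤ q := by
    by_contra hlt
    rw [not_le] at hlt
    have := pow_lt_pow_left₀ hlt hq0.le (n := 4) (by norm_num)
    rw [hq4] at this
    linarith
  have hq11 : 11 ≤ q := by linarith
  have hq2 : q ≤ q ^ 2 := le_self_pow₀ (by linarith) (by norm_num)
  have hq3 : q ≤ q ^ 3 := le_self_pow₀ (by linarith) (by norm_num)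
  have hxq : x = q * q ^ 3 := by rw [← hq4]; ring
  have hxq2 : x = q ^ 2 * q ^ 2 := by rw [← hq4]; ring
  have hx3 : 11 ≤ x := by
    rw [← hq4]
    exact hq11.trans (le_self_pow₀ (by linarith) (by norm_num))
  have hL1 : 1 ≤ Real.log x := by
    rw [← Real.log_exp 1]
    exact Real.log_le_log (Real.exp_pos _) (by linarith [Real.exp_one_lt_d9])
  have hL2 : Real.log x ≤ 4 * q := by
    have : Real.log x = 4 * Real.log q := by rw [← hq4, Real.log_pow]; norm_num
    rw [this]
    linarith [Real.log_le_sub_one_of_pos hq0]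
  set L : ℝ := Real.log x with hL
  have F3 : B * L ≤ x / 2 := by
    have h1 : B * L ≤ B * (4 * q) := mul_le_mul_of_nonneg_left hL2 (by linarith)
    have h2 : q * (8 * B) ≤ q * q ^ 3 := mul_le_mul_of_nonneg_left (by linarith) hq0.le
    rw [hxq]
    linarith
  have F4 : q * (B * L + q) ≤ x := by
    have h1 : B * L ≤ B * (4 * q) := mul_le_mul_of_nonneg_left hL2 (by linarith)
    have h2 : q ^ 2 * (4 * B + 1) ≤ q ^ 2 * q ^ 2 :=
      mul_le_mul_of_nonneg_left (by linarith) (by positivity)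
    have h3 : q * (B * L) ≤ q * (B * (4 * q)) := mul_le_mul_of_nonneg_left h1 hq0.le
    rw [hxq2]
    linarith
  have F5 : 2 * C₀ * q ≤ x := by
    have h2 : q * (2 * C₀) ≤ q * q ^ 3 := mul_le_mul_of_nonneg_left (by linarith) hq0.le
    rw [hxq]
    linarith
  have F6 : q ≤ x / 2 := by
    have h2 : q * 2 ≤ q * q ^ 3 := mul_le_mul_of_nonneg_left (by linarith) hq0.le
    rw [hxq]
    linarith
  have hcx : c ≤ x / 2 := hcB.trans F3
  have hcx' : c' ≤ x / 2 := hcB'.trans F3
  have hpi4 := Real.pi_le_four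
  have hpi0 := Real.pi_pos
  have hP0 := reP (x := x) (c := c) (y := x) hx0 (by linarith) (by linarith) (by linarith) hcx
  rw [← hL] at hP0
  have hP0' := abs_le.1 hP0
  refine ⟨fun u hu => ?_, fun u hu => ?_⟩
  · have hu' := abs_le.1 hu
    have hP1 := reP (x := x) (c := c') (y := x + u) hx0 (by linarith) (by linarith) (by linarith)
      hcx'
    rw [← hL, Complex.ofReal_add] at hP1
    have hP1' := abs_le.1 hP1
    have hre : ((c : ℂ) + I * x).re = c := by simp
    have him : ((c : ℂ) + I * x).im = x := by simp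
    have hre' : ((c' : ℂ) + I * (x + u)).re = c' := by simp
    have him' : ((c' : ℂ) + I * (x + u)).im = x + u := by simp
    have hdist : ‖((c' : ℂ) + I * (x + u)) - ((c : ℂ) + I * x)‖ ≤ x := by
      have e : ((c' : ℂ) + I * (x + u)) - ((c : ℂ) + I * x) = ((c' - c : ℝ) : ℂ) + I * u := by
        push_cast; ring
      rw [e]
      refine (norm_add_le _ _).trans ?_
      rw [norm_mul, Complex.norm_I, Complex.norm_real, Complex.norm_real, Real.norm_eq_abs,
        Real.norm_eq_abs, one_mul]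
      have : |c' - c| ≤ x / 2 := by rw [abs_le]; constructor <;> linarith
      linarith
    have hK : ∀ d : ℝ, d ≤ x → C₀ * d / (x / 2) ≤ 2 * C₀ := by
      intro d hd
      rw [div_le_iff₀ (by positivity)]
      have := mul_le_mul_of_nonneg_left hd (by linarith : 0 ≤ C₀)
      linarith
    have g1 := (gron (C := C₀) (m := x / 2) (by linarith) (by linarith) hD
      (v := (c : ℂ) + I * x) (v' := (c' : ℂ) + I * (x + u)) (by rw [hre]; exact hc1)
      (by rw [hre']; exact hc1') (by rw [him]; linarith) (by rw [him']; linarith)).1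
    have g2 := (gron (C := C₀) (m := x / 2) (by linarith) (by linarith) hD
      (v := (c' : ℂ) + I * (x + u)) (v' := (c : ℂ) + I * x) (by rw [hre']; exact hc1')
      (by rw [hre]; exact hc1) (by rw [him']; linarith) (by rw [him]; linarith)).1
    have k1 := hK _ hdist
    have k2 := hK ‖((c : ℂ) + I * x) - ((c' : ℂ) + I * (x + u))‖ (by
      rw [norm_sub_rev]; exact hdist)
    have g1' := g1.trans (mul_le_mul_of_nonneg_left (Real.exp_le_exp.2 k1) (norm_nonneg _))
    have g2' := g2.trans (mul_le_mul_of_nonneg_left (Real.exp_le_exp.2 k2) (norm_nonneg _))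
    have hpu : |Real.pi * u / 4| ≤ |u| := pi_abs u
    have hpu' := abs_le.1 hpu
    have hCL : 2 * C₀ + 3 * c + 3 * c' ≤ (18 * C₀ + 10 * B + 2) * L := by
      have j1 := mul_le_mul_of_nonneg_left hL1 (by linarith : 0 ≤ C₀)
      have j2 : 0 ≤ B * L := mul_nonneg (by linarith) (by linarith)
      have j3 : 0 ≤ C₀ * L := mul_nonneg (by linarith) (by linarith)
      linarith
    refine ⟨(hD _ (by rw [hre']; exact hc1') (by rw [him']; linarith)).1, ?_, ?_⟩
    · rw [norm_gg, norm_gg]
      calc ‖hh (c' + I * (x + u))‖ * Real.exp (P (c' + I * (x + u))).re ≤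
            (‖hh (c + I * x)‖ * Real.exp (2 * C₀)) * Real.exp (P (c' + I * (x + u))).re :=
            mul_le_mul_of_nonneg_right g1' (Real.exp_pos _).le
        _ = ‖hh (c + I * x)‖ * Real.exp (2 * C₀ + (P (c' + I * (x + u))).re) := by
            rw [mul_assoc, ← Real.exp_add]
        _ ≤ ‖hh (c + I * x)‖ * Real.exp ((P (c + I * x)).re +
              ((c' - c) / 2 * L + |u| + (18 * C₀ + 10 * B + 2) * L)) := by
            refine mul_le_mul_of_nonneg_left (Real.exp_le_exp.2 ?_) (norm_nonneg _)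
            linarith
        _ = _ := by rw [Real.exp_add, mul_assoc]
    · rw [norm_gg, norm_gg]
      calc ‖hh (c + I * x)‖ * Real.exp (P (c + I * x)).re *
            Real.exp ((c' - c) / 2 * L - |u| - (18 * C₀ + 10 * B + 2) * L) ≤
            (‖hh (c' + I * (x + u))‖ * Real.exp (2 * C₀)) * Real.exp (P (c + I * x)).re *
            Real.exp ((c' - c) / 2 * L - |u| - (18 * C₀ + 10 * B + 2) * L) := by
            refine mul_le_mul_of_nonneg_right ?_ (Real.exp_pos _).le
            exact mul_le_mul_of_nonneg_right g2' (Real.exp_pos _).le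
        _ = ‖hh (c' + I * (x + u))‖ * Real.exp (2 * C₀ + (P (c + I * x)).re +
            ((c' - c) / 2 * L - |u| - (18 * C₀ + 10 * B + 2) * L)) := by
            rw [Real.exp_add, Real.exp_add]; ring
        _ ≤ _ := by
            refine mul_le_mul_of_nonneg_left (Real.exp_le_exp.2 ?_) (norm_nonneg _)
            linarith
  · have hux : |u| ≤ x / 2 := hu.trans F6
    have hu' := abs_le.1 hux
    have hre : ((c : ℂ) + I * x).re = c := by simp
    have him : ((c : ℂ) + I * x).im = x := by simp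
    have hre' : ((c : ℂ) + I * (x + u)).re = c := by simp
    have him' : ((c : ℂ) + I * (x + u)).im = x + u := by simp
    have hdist : ‖((c : ℂ) + I * (x + u)) - ((c : ℂ) + I * x)‖ = |u| := by
      have e : ((c : ℂ) + I * (x + u)) - ((c : ℂ) + I * x) = I * u := by ring
      rw [e, norm_mul, Complex.norm_I, Complex.norm_real, Real.norm_eq_abs, one_mul]
    have g := (gron (C := C₀) (m := x / 2) (by linarith) (by linarith) hD
      (v := (c : ℂ) + I * x) (v' := (c : ℂ) + I * (x + u)) (by rw [hre]; exact hc1)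
      (by rw [hre']; exact hc1) (by rw [him]; linarith) (by rw [him']; linarith)).2
    rw [hdist] at g
    set K : ℝ := C₀ * |u| / (x / 2) with hK
    have hK0 : 0 ≤ K := by positivity
    have hK1 : K ≤ 1 := by
      rw [hK, div_le_iff₀ (by positivity)]
      have := mul_le_mul_of_nonneg_left hu (by linarith : 0 ≤ C₀)
      linarith
    set w : ℂ := I * u * (Real.log (x / (2 * Real.pi)) / 2 + I * Real.pi / 4) with hw
    have hd := difP (x := x) (c := c) (u := u) hx0 (by linarith) hux
    rw [← hw] at hd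
    set D : ℂ := P (c + I * (x + u)) - P (c + I * x) - w with hDdef
    have hcu : |u| * (c + |u|) ≤ x := by
      refine le_trans ?_ F4
      exact mul_le_mul hu (by linarith) (by positivity) hq0.le
    have hD1 : ‖D‖ ≤ 1 := by
      refine hd.trans ?_
      rw [div_le_one hx0]
      exact hcu
    have hu2 : |u| ≤ 1 + u ^ 2 := abs_le_sq u
    have hD2 : ‖D‖ ≤ (B + 1) * ((1 + u ^ 2) * L / x) := by
      refine hd.trans ?_
      rw [← mul_div_assoc]
      refine div_le_div_of_nonneg_right ?_ hx0.le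
      have h1 : |u| * c ≤ (1 + u ^ 2) * (B * L) :=
        mul_le_mul hu2 hcB (by linarith) (by positivity)
      have h2 : |u| * |u| = u ^ 2 := by rw [← sq, sq_abs]
      have h3 : u ^ 2 ≤ (1 + u ^ 2) * L := sq_le_mul hL1
      linarith
    have hK2 : K ≤ 2 * C₀ * ((1 + u ^ 2) * L / x) := by
      have e : K = 2 * C₀ * (|u| / x) := by rw [hK]; field_simp
      rw [e]
      refine mul_le_mul_of_nonneg_left (div_le_div_of_nonneg_right ?_ hx0.le) (by linarith)
      exact hu2.trans (le_mul_of_one_le_right (by positivity) hL1)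
    have hsplit : gg (c + I * (x + u)) - gg (c + I * x) * cexp w =
        cexp w * cexp (P (c + I * x)) * ((hh (c + I * (x + u)) - hh (c + I * x)) * cexp D +
          hh (c + I * x) * (cexp D - 1)) := by
      have e1 : P (c + I * (x + u)) = w + P (c + I * x) + D := by rw [hDdef]; ring
      rw [gg_eq (c + I * (x + u)), gg_eq (c + I * x), e1, Complex.exp_add, Complex.exp_add]
      ring
    have hew : ‖cexp w‖ ≤ Real.exp |u| := by
      rw [Complex.norm_exp]
      apply Real.exp_le_exp.2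
      have e : w = ((-(u * Real.pi / 4) : ℝ) : ℂ) +
          ((u * Real.log (x / (2 * Real.pi)) / 2 : ℝ) : ℂ) * I := by
        rw [hw]; push_cast
        linear_combination (u : ℂ) * Real.pi / 4 * I_sq
      have e2 : w.re = -(u * Real.pi / 4) := by rw [e]; simp
      rw [e2]
      have h1 := neg_le_of_abs_le (pi_abs u)
      linarith
    have heD : ‖cexp D‖ ≤ Real.exp 1 := by
      rw [Complex.norm_exp]
      exact Real.exp_le_exp.2 ((le_abs_self _).trans ((Complex.abs_re_le_norm D).trans hD1))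
    have heD' : ‖cexp D - 1‖ ≤ 2 * ‖D‖ := Complex.norm_exp_sub_one_le hD1
    have he1 := Real.exp_one_lt_d9
    have he0 := Real.exp_pos 1
    have heK : Real.exp K ≤ Real.exp 1 := Real.exp_le_exp.2 hK1
    set W : ℝ := (1 + u ^ 2) * L / x with hW
    have hW0 : 0 ≤ W := by positivity
    have hA : ‖(hh (c + I * (x + u)) - hh (c + I * x)) * cexp D‖ ≤
        (16 * C₀ * W) * ‖hh (c + I * x)‖ := by
      rw [norm_mul]
      calc ‖hh (c + I * (x + u)) - hh (c + I * x)‖ * ‖cexp D‖ ≤
            (K * Real.exp K * ‖hh (c + I * x)‖) * Real.exp 1 :=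
            mul_le_mul g heD (norm_nonneg _) (by positivity)
        _ = K * (Real.exp K * Real.exp 1) * ‖hh (c + I * x)‖ := by ring
        _ ≤ (2 * C₀ * W) * 8 * ‖hh (c + I * x)‖ := by
            refine mul_le_mul_of_nonneg_right ?_ (norm_nonneg _)
            refine mul_le_mul hK2 ?_ (by positivity) (by positivity)
            exact (mul_le_mul_of_nonneg_right heK he0.le).trans exp2
        _ = _ := by ring
    have hB2 : ‖hh (c + I * x) * (cexp D - 1)‖ ≤ (2 * (B + 1) * W) * ‖hh (c + I * x)‖ := by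
      rw [norm_mul]
      calc ‖hh (c + I * x)‖ * ‖cexp D - 1‖ ≤ ‖hh (c + I * x)‖ * (2 * ((B + 1) * W)) :=
            mul_le_mul_of_nonneg_left (by linarith) (norm_nonneg _)
        _ = _ := by ring
    rw [hsplit, norm_mul, norm_mul, norm_gg (c + I * x), Complex.norm_exp (P (c + I * x))]
    have hsum := (norm_add_le ((hh (c + I * (x + u)) - hh (c + I * x)) * cexp D)
      (hh (c + I * x) * (cexp D - 1))).trans (add_le_add hA hB2)
    calc ‖cexp w‖ * Real.exp (P (c + I * x)).re * _ ≤
          Real.exp |u| * Real.exp (P (c + I * x)).re *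
          ((16 * C₀ * W) * ‖hh (c + I * x)‖ + (2 * (B + 1) * W) * ‖hh (c + I * x)‖) := by
          refine mul_le_mul (mul_le_mul_of_nonneg_right hew (Real.exp_pos _).le) hsum
            (norm_nonneg _) (by positivity)
      _ = ‖hh (c + I * x)‖ * Real.exp (P (c + I * x)).re *
          ((16 * C₀ + 2 * (B + 1)) * (Real.exp |u| * W)) := by ring
      _ ≤ ‖hh (c + I * x)‖ * Real.exp (P (c + I * x)).re *
          ((18 * C₀ + 10 * B + 2) * (Real.exp |u| * W)) := by
          refine mul_le_mul_of_nonneg_left ?_ (by positivity)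
          refine mul_le_mul_of_nonneg_right (by linarith) (by positivity)
      _ = _ := by rw [hW]; ring

end

end Pool.Agent.U85.XLP.GR
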