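import Pool.Agent.U85.XL.Stm

/-!
# Project XL, package JEN: the number of zeros in a disc (helper858)
-/

set_option autoImplicit false

open MeasureTheory Filter Topology Complex Metric

namespace Pool.Agent.U85.XLP.JEN

open Pool.Agent.U85.XL

theorem div_eq (g : ℂ → ℂ) (R : ℝ) (hg : AnalyticOnNhd ℂ g (closedBall 0 R)) (u : ℂ)
    (hu : u ∈ closedBall (0 : ℂ) R) :
    MeromorphicOn.divisor g (closedBall 0 R) u = (analyticOrderNatAt g u : ℤ) := by
  rw [MeromorphicOn.AnalyticOnNhd.divisor_apply hg hu]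
  unfold analyticOrderNatAt
  cases h : analyticOrderAt g u with
  | top => simp
  | coe n => simp

/-- the number of zeros in a disc -/
theorem zeros_le (g : ℂ → ℂ) (hg : Differentiable ℂ g) (hg0 : g 0 ≠ 0) (T M : ℝ) (hT : 0 < T)
    (hM : 1 ≤ M) (hb : ∀ z : ℂ, ‖z‖ ≤ 2 * T → ‖g z‖ ≤ M) (Z : Finset ℂ) (hZ : ∀ z ∈ Z, ‖z‖ ≤ T) :
    ∑ z ∈ Z, (analyticOrderNatAt g z : ℝ) ≤ Real.log (M / ‖g 0‖) / Real.log 2 := by
  classical
  have habs : |T| = T := abs_of_pos hT
  have habs2 : |2 * T| = 2 * T := abs_of_pos (by positivity)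
  have han : AnalyticOnNhd ℂ g Set.univ := fun z _ => hg.analyticAt z
  have h := AnalyticOnNhd.sum_divisor_le (c := 0) (r := T) (R := 2 * T) (M := M) (f := g)
    (by rw [habs]; exact hT) (by rw [habs, habs2]; linarith) hM (han.mono (Set.subset_univ _)) hg0
    (fun z hz => hb z (by
      rw [habs2, mem_sphere_zero_iff_norm] at hz
      exact hz.le))
  rw [habs] at h
  have e1 : 2 * T / T = 2 := by field_simp
  rw [e1] at h
  refine le_trans ?_ h
  have hanT : AnalyticOnNhd ℂ g (closedBall 0 T) := han.mono (Set.subset_univ _)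
  have hfin : (MeromorphicOn.divisor g (closedBall (0 : ℂ) T)).support.Finite :=
    (MeromorphicOn.divisor g (closedBall (0 : ℂ) T)).finiteSupport (isCompact_closedBall 0 T)
  have hnn : ∀ u : ℂ, 0 ≤ MeromorphicOn.divisor g (closedBall (0 : ℂ) T) u := by
    intro u
    by_cases hu : u ∈ closedBall (0 : ℂ) T
    · rw [div_eq g T hanT u hu]
      positivity
    · rw [Function.locallyFinsuppWithin.apply_eq_zero_of_notMem _ hu]
  have h1 : ∑ᶠ u, MeromorphicOn.divisor g (closedBall (0 : ℂ) T) u =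
      ∑ u ∈ hfin.toFinset ∪ Z, MeromorphicOn.divisor g (closedBall (0 : ℂ) T) u := by
    rw [finsum_eq_sum_of_support_subset]
    intro u hu
    rw [Finset.coe_union]
    left
    rw [Set.Finite.coe_toFinset]
    exact hu
  rw [h1]
  have h2 : ∑ z ∈ Z, (analyticOrderNatAt g z : ℤ) ≤
      ∑ u ∈ hfin.toFinset ∪ Z, MeromorphicOn.divisor g (closedBall (0 : ℂ) T) u := by
    calc ∑ z ∈ Z, (analyticOrderNatAt g z : ℤ)
        = ∑ z ∈ Z, MeromorphicOn.divisor g (closedBall (0 : ℂ) T) z := by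
          refine Finset.sum_congr rfl fun z hz => ?_
          rw [div_eq g T hanT z (mem_closedBall_zero_iff.2 (hZ z hz))]
      _ ≤ _ := Finset.sum_le_sum_of_subset_of_nonneg Finset.subset_union_right
          fun u _ _ => hnn u
  exact_mod_cast h2

theorem phi_exp (hX0 : S_X0) (s : ℝ) : Integrable (fun t : ℝ => Phi t * Real.exp (s * t)) := by
  obtain ⟨hint, hpos, -⟩ := hX0
  have hm : AEStronglyMeasurable Phi volume := by
    have h0 := (hint 0).aestronglyMeasurable
    refine h0.congr (Eventually.of_forall fun t => ?_)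
    simp only [zero_mul, Real.exp_zero, mul_one]
    exact abs_of_pos (hpos t)
  refine Integrable.mono' (hint |s|) (hm.mul (by fun_prop)) (Eventually.of_forall fun t => ?_)
  rw [norm_mul, Real.norm_eq_abs, Real.norm_eq_abs, abs_of_pos (Real.exp_pos _)]
  refine mul_le_mul_of_nonneg_left (Real.exp_le_exp.2 ?_) (abs_nonneg _)
  calc s * t ≤ |s * t| := le_abs_self _
    _ = |s| * |t| := abs_mul _ _

theorem xi_real (hX0 : S_X0) (s : ℝ) :
    ∫ t : ℝ, Phi t * Real.exp (s * t) = ‖xi (1 / 2 + (s : ℂ))‖ := by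
  obtain ⟨hint, hpos, hxi⟩ := hX0
  have h1 : Xi 0 (-(I * s)) = ((∫ t : ℝ, Phi t * Real.exp (s * t) : ℝ) : ℂ) := by
    unfold Xi
    rw [← integral_complex_ofReal]
    refine integral_congr_ae (Eventually.of_forall fun t => ?_)
    simp only [zero_mul, Real.exp_zero, mul_one]
    have h2 : I * -(I * (s : ℂ)) * (t : ℂ) = ((s * t : ℝ) : ℂ) := by
      push_cast
      linear_combination (-(s : ℂ) * t) * I_mul_I
    rw [h2, ← Complex.ofReal_exp, ← Complex.ofReal_mul]
  have h3 : xi (1 / 2 + (s : ℂ)) = ((∫ t : ℝ, Phi t * Real.exp (s * t) : ℝ) : ℂ) := by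
    rw [← h1, hxi]
    congr 2
    linear_combination (s : ℂ) * I_mul_I
  rw [h3, Complex.norm_real, Real.norm_eq_abs, abs_of_nonneg]
  exact integral_nonneg fun t => mul_nonneg (hpos t).le (Real.exp_pos _).le

theorem xi_symm (s : ℂ) : xi (1 / 2 - s) = xi (1 / 2 + s) := by
  unfold xi
  have h : completedRiemannZeta₀ (1 / 2 - s) = completedRiemannZeta₀ (1 / 2 + s) := by
    rw [← completedRiemannZeta₀_one_sub]
    congr 1
    ring
  rw [h]
  ring

/-- the size of the deformed function -/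
theorem bound (hX0 : S_X0) (κ : ℝ) (hκ : 0 < κ) (z : ℂ) (r : ℝ) (hr : ‖z‖ ≤ r) :
    ‖Xi (-κ) z‖ ≤ 2 * ‖xi (1 / 2 + (r : ℂ))‖ := by
  have hpos := hX0.2.1
  have i1 := phi_exp hX0 r
  have i2 := phi_exp hX0 (-r)
  have e1 := xi_real hX0 r
  have e2 := xi_real hX0 (-r)
  have e3 : xi (1 / 2 + ((-r : ℝ) : ℂ)) = xi (1 / 2 + (r : ℂ)) := by
    rw [← xi_symm]
    congr 1
    push_cast
    ring
  rw [e3] at e2
  calc ‖Xi (-κ) z‖ ≤ ∫ t : ℝ, (Phi t * Real.exp (r * t) + Phi t * Real.exp (-r * t)) := by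
        unfold Xi
        refine norm_integral_le_of_norm_le (i1.add i2) (Eventually.of_forall fun t => ?_)
        rw [norm_mul, Complex.norm_real, Real.norm_eq_abs, Complex.norm_exp,
          abs_of_pos (mul_pos (hpos t) (Real.exp_pos _))]
        have h1 : Real.exp (-κ * t ^ 2) ≤ 1 := by
          apply Real.exp_le_one_iff.2
          nlinarith [sq_nonneg t]
        have h2 : (I * z * (t : ℂ)).re ≤ r * |t| := by
          calc (I * z * (t : ℂ)).re ≤ ‖I * z * (t : ℂ)‖ := Complex.re_le_norm _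
            _ = ‖z‖ * |t| := by
                rw [norm_mul, norm_mul, Complex.norm_I, one_mul, Complex.norm_real,
                  Real.norm_eq_abs]
            _ ≤ r * |t| := mul_le_mul_of_nonneg_right hr (abs_nonneg _)
        have h3 : Real.exp (r * |t|) ≤ Real.exp (r * t) + Real.exp (-r * t) := by
          rcases abs_cases t with ⟨h, _⟩ | ⟨h, _⟩
          · rw [h]
            linarith [Real.exp_pos (-r * t)]
          · rw [h]
            have h4 : r * -t = -r * t := by ring
            rw [h4]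
            linarith [Real.exp_pos (r * t)]
        have h5 : Real.exp (I * z * (t : ℂ)).re ≤ Real.exp (r * t) + Real.exp (-r * t) :=
          (Real.exp_le_exp.2 h2).trans h3
        calc Phi t * Real.exp (-κ * t ^ 2) * Real.exp (I * z * (t : ℂ)).re
            ≤ Phi t * 1 * (Real.exp (r * t) + Real.exp (-r * t)) := by
              refine mul_le_mul (mul_le_mul_of_nonneg_left h1 (hpos t).le) h5 (Real.exp_pos _).le ?_
              rw [mul_one]
              exact (hpos t).le
          _ = _ := by ring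
    _ = 2 * ‖xi (1 / 2 + (r : ℂ))‖ := by
        rw [integral_add i1 i2, e1, e2]
        ring

theorem at_zero (hX0 : S_X0) (κ : ℝ) (hκ : 0 < κ) : Xi (-κ) 0 ≠ 0 := by
  have hpos := hX0.2.1
  have i0 : Integrable (fun t : ℝ => Phi t * Real.exp (-κ * t ^ 2)) := by
    have hm : AEStronglyMeasurable Phi volume := by
      refine (phi_exp hX0 0).aestronglyMeasurable.congr (Eventually.of_forall fun t => ?_)
      simp only [zero_mul, Real.exp_zero, mul_one]
    refine Integrable.mono' (phi_exp hX0 0) (hm.mul (by fun_prop)) (Eventually.of_forall fun t => ?_)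
    · rw [zero_mul, Real.exp_zero, mul_one, norm_mul, Real.norm_eq_abs, Real.norm_eq_abs,
        abs_of_pos (Real.exp_pos _), abs_of_pos (hpos t)]
      have h1 : Real.exp (-κ * t ^ 2) ≤ 1 := by
        apply Real.exp_le_one_iff.2
        nlinarith [sq_nonneg t]
      calc Phi t * Real.exp (-κ * t ^ 2) ≤ Phi t * 1 := mul_le_mul_of_nonneg_left h1 (hpos t).le
        _ = Phi t := mul_one _
  have h1 : Xi (-κ) 0 = ((∫ t : ℝ, Phi t * Real.exp (-κ * t ^ 2) : ℝ) : ℂ) := by
    unfold Xi
    rw [← integral_complex_ofReal]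
    refine integral_congr_ae (Eventually.of_forall fun t => ?_)
    simp only [mul_zero, zero_mul, Complex.exp_zero, mul_one]
  rw [h1]
  have h2 : 0 < ∫ t : ℝ, Phi t * Real.exp (-κ * t ^ 2) := by
    rw [integral_pos_iff_support_of_nonneg (fun t => mul_nonneg (hpos t).le (Real.exp_pos _).le) i0]
    have h3 : (Function.support fun t : ℝ => Phi t * Real.exp (-κ * t ^ 2)) = Set.univ := by
      ext t
      simp only [Function.mem_support, Set.mem_univ, iff_true]
      exact (mul_pos (hpos t) (Real.exp_pos _)).ne'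
    rw [h3]
    simp
  exact_mod_cast h2.ne'

theorem t_JEN : S_X0 → S_ENT → S_CR → S_JEN := by
  intro hX0 hENT hCR κ hκ
  obtain ⟨C, hC1, hC⟩ := hCR
  set b : ℝ := |Real.log ‖Xi (-κ) 0‖| with hb
  have hb0 : 0 ≤ b := abs_nonneg _
  refine ⟨2 * (1 + 6 * C + b), 3, by linarith, le_rfl, fun T hT Z hZ => ?_⟩
  have hf0 := at_zero hX0 κ hκ
  have hT0 : 0 < T := by linarith
  have hlogT : 1 ≤ Real.log T := by
    have h1 : Real.log 3 ≤ Real.log T := Real.log_le_log (by norm_num) hT
    have h2 : 1 ≤ Real.log 3 := by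
      rw [Real.le_log_iff_exp_le (by norm_num)]
      linarith [Real.exp_one_lt_d9]
    linarith
  set M : ℝ := 2 * Real.exp (6 * C * (T * Real.log T)) with hM
  have hM1 : 1 ≤ M := by
    have : 1 ≤ Real.exp (6 * C * (T * Real.log T)) := Real.one_le_exp (by positivity)
    linarith
  have hxib : ‖xi (1 / 2 + ((2 * T : ℝ) : ℂ))‖ ≤ Real.exp (6 * C * (T * Real.log T)) := by
    have hre : (1 : ℝ) ≤ (1 / 2 + ((2 * T : ℝ) : ℂ)).re := by
      rw [Complex.add_re, Complex.ofReal_re]
      norm_num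
      linarith
    have hnorm : ‖(1 / 2 + ((2 * T : ℝ) : ℂ))‖ = 1 / 2 + 2 * T := by
      have h1 : (1 / 2 + ((2 * T : ℝ) : ℂ)) = ((1 / 2 + 2 * T : ℝ) : ℂ) := by
        push_cast
        ring
      rw [h1, Complex.norm_real, Real.norm_eq_abs, abs_of_pos (by linarith)]
    refine (hC _ hre).trans (Real.exp_le_exp.2 ?_)
    rw [hnorm]
    have h2 : Real.log (2 + (1 / 2 + 2 * T)) ≤ 2 * Real.log T := by
      have h3 : 2 * Real.log T = Real.log (T ^ 2) := by
        rw [Real.log_pow]
        norm_num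
      rw [h3]
      refine Real.log_le_log (by linarith) ?_
      nlinarith
    have h4 : 0 ≤ Real.log (2 + (1 / 2 + 2 * T)) := Real.log_nonneg (by linarith)
    calc C * (1 + (1 / 2 + 2 * T)) * Real.log (2 + (1 / 2 + 2 * T))
        ≤ C * (3 * T) * (2 * Real.log T) := by
          refine mul_le_mul ?_ h2 h4 (by positivity)
          refine mul_le_mul_of_nonneg_left ?_ (by linarith)
          linarith
      _ = 6 * C * (T * Real.log T) := by ring
  have hbd : ∀ z : ℂ, ‖z‖ ≤ 2 * T → ‖Xi (-κ) z‖ ≤ M := by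
    intro z hz
    refine (bound hX0 κ hκ z (2 * T) hz).trans ?_
    rw [hM]
    exact mul_le_mul_of_nonneg_left hxib (by norm_num)
  have hmain := zeros_le (Xi (-κ)) (hENT (-κ) (by linarith)) hf0 T M hT0 hM1 hbd Z
    (fun z hz => (hZ z hz).2)
  refine hmain.trans ?_
  have hfpos : 0 < ‖Xi (-κ) 0‖ := norm_pos_iff.2 hf0
  have hl2 : 0.69 < Real.log 2 := by linarith [Real.log_two_gt_d9]
  have hl2' : Real.log 2 < 0.7 := by linarith [Real.log_two_lt_d9]
  rw [div_le_iff₀ (by linarith), Real.log_div (by linarith) hfpos.ne', hM,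
    Real.log_mul (by norm_num) (Real.exp_pos _).ne', Real.log_exp]
  have h5 : -Real.log ‖Xi (-κ) 0‖ ≤ b := by
    rw [hb]
    exact neg_le_abs _
  have hTL : 1 ≤ T * Real.log T := by nlinarith
  have h6 : b ≤ b * (T * Real.log T) := le_mul_of_one_le_right hb0 hTL
  have h7 : Real.log 2 + 6 * C * (T * Real.log T) - Real.log ‖Xi (-κ) 0‖ ≤
      (1 + 6 * C + b) * (T * Real.log T) := by nlinarith
  have h8 : 0 ≤ (1 + 6 * C + b) * (T * Real.log T) := by positivity
  calc Real.log 2 + 6 * C * (T * Real.log T) - Real.log ‖Xi (-κ) 0‖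
      ≤ (1 + 6 * C + b) * (T * Real.log T) := h7
    _ ≤ (1 + 6 * C + b) * (T * Real.log T) * (2 * Real.log 2) := by
        refine le_mul_of_one_le_right h8 ?_
        linarith
    _ = 2 * (1 + 6 * C + b) * T * Real.log T * Real.log 2 := by ring

end Pool.Agent.U85.XLP.JEN
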