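import Pool.Agent.U85.XL.Stm

set_option autoImplicit false

/-!
Project XL, package MA: the mean of the local mean square of the Gaussian Dirichlet series.
-/

namespace Pool.Agent.U85.XLP.MA

open MeasureTheory Filter Topology Complex Pool.Agent.U85.XL

noncomputable section

/-- the coefficients -/
def vv (κ μ : ℝ) (n : ℕ) : ℝ :=
  ((n : ℝ) + 1) ^ (-(3 / 2) : ℝ) * Real.exp (-(κ * (μ - Real.log ((n : ℝ) + 1)) ^ 2))

/-- the frequencies -/
def lam (n : ℕ) : ℝ := Real.log ((n : ℝ) + 1)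

/-- partial sums -/
def P (κ μ : ℝ) (N : ℕ) (x : ℝ) : ℂ :=
  ∑ n ∈ Finset.range N, ((vv κ μ n : ℝ) : ℂ) * cexp (-(I * x * Real.log ((n : ℝ) + 1)))

theorem vv_nonneg (κ μ : ℝ) (n : ℕ) : 0 ≤ vv κ μ n :=
  mul_nonneg (Real.rpow_nonneg (by positivity) _) (Real.exp_nonneg _)

theorem norm_P_sq (κ μ : ℝ) (N : ℕ) (x : ℝ) : ‖P κ μ N x‖ ^ 2 =
    ∑ m ∈ Finset.range N, ∑ n ∈ Finset.range N,
      vv κ μ m * vv κ μ n * Real.cos ((lam m - lam n) * x) := by
  have h1 : P κ μ N x = ((∑ n ∈ Finset.range N, vv κ μ n * Real.cos (x * lam n) : ℝ) : ℂ) +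
      ((-∑ n ∈ Finset.range N, vv κ μ n * Real.sin (x * lam n) : ℝ) : ℂ) * I := by
    unfold P
    push_cast
    rw [neg_mul, ← sub_eq_add_neg, Finset.sum_mul, ← Finset.sum_sub_distrib]
    refine Finset.sum_congr rfl fun n _ => ?_
    have e : (-(I * (x : ℂ) * (Real.log ((n : ℝ) + 1) : ℂ))) = -((x * lam n : ℝ) : ℂ) * I := by
      unfold lam
      push_cast
      ring
    rw [e, Complex.exp_mul_I, Complex.cos_neg, Complex.sin_neg]
    push_cast
    ring
  rw [h1, ← Complex.normSq_eq_norm_sq, Complex.normSq_add_mul_I, pow_two, pow_two, neg_mul_neg,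
    Finset.sum_mul_sum, Finset.sum_mul_sum, ← Finset.sum_add_distrib]
  refine Finset.sum_congr rfl fun m _ => ?_
  rw [← Finset.sum_add_distrib]
  refine Finset.sum_congr rfl fun n _ => ?_
  have e : (lam m - lam n) * x = x * lam m - x * lam n := by ring
  rw [e, Real.cos_sub]
  ring

theorem int_cos {δ A B : ℝ} (hδ : δ ≠ 0) : |∫ x in A..B, Real.cos (δ * x)| ≤ 2 / |δ| := by
  have h1 : ∫ x in A..B, Real.cos (δ * x) = (Real.sin (δ * B) - Real.sin (δ * A)) / δ := by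
    rw [intervalIntegral.integral_comp_mul_left (fun y => Real.cos y) hδ, integral_cos, smul_eq_mul]
    field_simp
  rw [h1, abs_div]
  apply div_le_div_of_nonneg_right _ (abs_nonneg _)
  have h2 := Real.abs_sin_le_one (δ * B)
  have h3 := Real.abs_sin_le_one (δ * A)
  have h4 := abs_sub (Real.sin (δ * B)) (Real.sin (δ * A))
  linarith

theorem lam_sep {m n : ℕ} (h : n < m) : 1 / (((m : ℝ) + 1) * ((n : ℝ) + 1)) ≤ lam m - lam n := by
  unfold lam
  have hm : (0 : ℝ) < (m : ℝ) + 1 := by positivity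
  have hn : (0 : ℝ) < (n : ℝ) + 1 := by positivity
  have hn1 : (1 : ℝ) ≤ (n : ℝ) + 1 := by
    have : (0 : ℝ) ≤ (n : ℝ) := Nat.cast_nonneg n
    linarith
  rw [← Real.log_div hm.ne' hn.ne']
  have h1 := Real.one_sub_inv_le_log_of_pos (show 0 < ((m : ℝ) + 1) / ((n : ℝ) + 1) by positivity)
  refine le_trans ?_ h1
  rw [inv_div]
  have h2 : (n : ℝ) + 1 ≤ (m : ℝ) := by exact_mod_cast h
  have h3 : 1 / (((m : ℝ) + 1) * ((n : ℝ) + 1)) ≤ 1 / ((m : ℝ) + 1) := by
    apply one_div_le_one_div_of_le hm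
    nlinarith
  have h4 : 1 / ((m : ℝ) + 1) ≤ 1 - ((n : ℝ) + 1) / ((m : ℝ) + 1) := by
    rw [one_sub_div hm.ne']
    apply div_le_div_of_nonneg_right _ hm.le
    linarith
  linarith

theorem lam_abs {m n : ℕ} (h : m ≠ n) : lam m - lam n ≠ 0 ∧
    2 / |lam m - lam n| ≤ 2 * (((m : ℝ) + 1) * ((n : ℝ) + 1)) := by
  have hm : (0 : ℝ) < (m : ℝ) + 1 := by positivity
  have hn : (0 : ℝ) < (n : ℝ) + 1 := by positivity
  have h1 : 1 / (((m : ℝ) + 1) * ((n : ℝ) + 1)) ≤ |lam m - lam n| := by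
    rcases lt_or_gt_of_ne h with h | h
    · have := lam_sep h
      rw [abs_sub_comm, mul_comm]
      exact this.trans (le_abs_self _)
    · exact (lam_sep h).trans (le_abs_self _)
  have h0 : 0 < 1 / (((m : ℝ) + 1) * ((n : ℝ) + 1)) := by positivity
  have h2 : 0 < |lam m - lam n| := lt_of_lt_of_le h0 h1
  refine ⟨abs_pos.1 h2, ?_⟩
  rw [div_le_iff₀ h2]
  rw [div_le_iff₀ (by positivity)] at h1
  nlinarith

theorem P_lower (κ μ : ℝ) (N : ℕ) (A B : ℝ) :
    (B - A) * ∑ n ∈ Finset.range N, vv κ μ n ^ 2 -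
      2 * (∑ n ∈ Finset.range N, ((n : ℝ) + 1) * vv κ μ n) ^ 2 ≤ ∫ x in A..B, ‖P κ μ N x‖ ^ 2 := by
  classical
  have h1 : ∫ x in A..B, ‖P κ μ N x‖ ^ 2 = ∑ m ∈ Finset.range N, ∑ n ∈ Finset.range N,
      vv κ μ m * vv κ μ n * ∫ x in A..B, Real.cos ((lam m - lam n) * x) := by
    simp only [norm_P_sq]
    rw [intervalIntegral.integral_finsetSum]
    · refine Finset.sum_congr rfl fun m _ => ?_
      rw [intervalIntegral.integral_finsetSum]
      · refine Finset.sum_congr rfl fun n _ => ?_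
        rw [intervalIntegral.integral_const_mul]
      · intro n _
        exact (by fun_prop : Continuous fun x : ℝ =>
          vv κ μ m * vv κ μ n * Real.cos ((lam m - lam n) * x)).intervalIntegrable _ _
    · intro m _
      exact (by fun_prop : Continuous fun x : ℝ => ∑ n ∈ Finset.range N,
          vv κ μ m * vv κ μ n * Real.cos ((lam m - lam n) * x)).intervalIntegrable _ _
  rw [h1]
  have h2 : (B - A) * ∑ n ∈ Finset.range N, vv κ μ n ^ 2 -
      2 * (∑ n ∈ Finset.range N, ((n : ℝ) + 1) * vv κ μ n) ^ 2 =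
      ∑ m ∈ Finset.range N, ∑ n ∈ Finset.range N,
        ((if m = n then (B - A) * vv κ μ n ^ 2 else 0) -
          2 * ((((m : ℝ) + 1) * vv κ μ m) * (((n : ℝ) + 1) * vv κ μ n))) := by
    simp only [Finset.sum_sub_distrib]
    congr 1
    · rw [Finset.mul_sum]
      refine Finset.sum_congr rfl fun m hm => ?_
      rw [Finset.sum_ite_eq, if_pos hm]
    · rw [pow_two, Finset.sum_mul_sum, Finset.mul_sum]
      refine Finset.sum_congr rfl fun m _ => ?_
      rw [Finset.mul_sum]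
  rw [h2]
  refine Finset.sum_le_sum fun m _ => Finset.sum_le_sum fun n _ => ?_
  have hvm := vv_nonneg κ μ m
  have hvn := vv_nonneg κ μ n
  have hm : (0 : ℝ) < (m : ℝ) + 1 := by positivity
  have hn : (0 : ℝ) < (n : ℝ) + 1 := by positivity
  by_cases h : m = n
  · subst h
    rw [if_pos rfl, sub_self]
    simp only [zero_mul, Real.cos_zero, intervalIntegral.integral_const, smul_eq_mul, mul_one]
    have : 0 ≤ ((m : ℝ) + 1) * vv κ μ m := by positivity
    nlinarith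
  · rw [if_neg h]
    obtain ⟨h3, h4⟩ := lam_abs h
    have h5 := int_cos (A := A) (B := B) h3
    have h6 := neg_abs_le (∫ x in A..B, Real.cos ((lam m - lam n) * x))
    have h7 : -(2 * (((m : ℝ) + 1) * ((n : ℝ) + 1))) ≤
      ∫ x in A..B, Real.cos ((lam m - lam n) * x) := by linarith
    have h8 := mul_le_mul_of_nonneg_left h7 (mul_nonneg hvm hvn)
    linarith

theorem norm_term (κ μ x : ℝ) (n : ℕ) :
    ‖((vv κ μ n : ℝ) : ℂ) * cexp (-(I * x * Real.log ((n : ℝ) + 1)))‖ = vv κ μ n := by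
  have e : (-(I * (x : ℂ) * (Real.log ((n : ℝ) + 1) : ℂ))) =
      ((-(x * Real.log ((n : ℝ) + 1)) : ℝ) : ℂ) * I := by
    push_cast
    ring
  rw [e, norm_mul, Complex.norm_real, Real.norm_eq_abs, abs_of_nonneg (vv_nonneg _ _ _),
    Complex.norm_exp_ofReal_mul_I, mul_one]

theorem vv_bound {κ : ℝ} (hκ : 0 < κ) (μ : ℝ) (n : ℕ) :
    ((n : ℝ) + 1) * vv κ μ n ≤ Real.exp (1 / κ + 2 * μ) * (1 / ((n : ℝ) + 1) ^ 2) := by
  have hn : (0 : ℝ) < (n : ℝ) + 1 := by positivity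
  have hn1 : (1 : ℝ) ≤ (n : ℝ) + 1 := by
    have : (0 : ℝ) ≤ (n : ℝ) := Nat.cast_nonneg n
    linarith
  have h1 : ((n : ℝ) + 1) ^ (-(3 / 2) : ℝ) ≤ ((n : ℝ) + 1)⁻¹ := by
    rw [← Real.rpow_neg_one]
    exact Real.rpow_le_rpow_of_exponent_le hn1 (by norm_num)
  have h2 : ((n : ℝ) + 1) * ((n : ℝ) + 1) ^ (-(3 / 2) : ℝ) ≤ 1 := by
    calc ((n : ℝ) + 1) * ((n : ℝ) + 1) ^ (-(3 / 2) : ℝ) ≤ ((n : ℝ) + 1) * ((n : ℝ) + 1)⁻¹ :=
          mul_le_mul_of_nonneg_left h1 hn.le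
      _ = 1 := mul_inv_cancel₀ hn.ne'
  have h3 : Real.exp (1 / κ + 2 * μ) * (1 / ((n : ℝ) + 1) ^ 2) =
      Real.exp (1 / κ + 2 * (μ - Real.log ((n : ℝ) + 1))) := by
    have e : 1 / κ + 2 * (μ - Real.log ((n : ℝ) + 1)) =
        (1 / κ + 2 * μ) + -(2 * Real.log ((n : ℝ) + 1)) := by ring
    have e2 : Real.exp (-(2 * Real.log ((n : ℝ) + 1))) = 1 / ((n : ℝ) + 1) ^ 2 := by
      rw [Real.exp_neg, two_mul, Real.exp_add, Real.exp_log hn, one_div, pow_two]
    rw [e, Real.exp_add (1 / κ + 2 * μ), e2]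
  have h4 : Real.exp (-(κ * (μ - Real.log ((n : ℝ) + 1)) ^ 2)) ≤
      Real.exp (1 / κ + 2 * (μ - Real.log ((n : ℝ) + 1))) := by
    apply Real.exp_le_exp.2
    have h5 : 0 ≤ κ * ((μ - Real.log ((n : ℝ) + 1)) + 1 / κ) ^ 2 := by positivity
    have h6 : κ * ((μ - Real.log ((n : ℝ) + 1)) + 1 / κ) ^ 2 =
        κ * (μ - Real.log ((n : ℝ) + 1)) ^ 2 + 2 * (μ - Real.log ((n : ℝ) + 1)) + 1 / κ := by
      field_simp
      ring
    linarith
  rw [h3]
  unfold vv
  rw [← mul_assoc]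
  calc ((n : ℝ) + 1) * ((n : ℝ) + 1) ^ (-(3 / 2) : ℝ) *
        Real.exp (-(κ * (μ - Real.log ((n : ℝ) + 1)) ^ 2))
      ≤ 1 * Real.exp (-(κ * (μ - Real.log ((n : ℝ) + 1)) ^ 2)) :=
        mul_le_mul_of_nonneg_right h2 (Real.exp_nonneg _)
    _ ≤ _ := by rw [one_mul]; exact h4

theorem sum2 : Summable fun n : ℕ => 1 / ((n : ℝ) + 1) ^ 2 := by
  have h := (summable_nat_add_iff 1).2 (Real.summable_one_div_nat_pow.2 (by norm_num : 1 < 2))
  refine h.congr fun n => ?_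
  push_cast
  rfl

/-- the constant -/
def Z2 : ℝ := ∑' n : ℕ, 1 / ((n : ℝ) + 1) ^ 2

theorem fin_bound {κ : ℝ} (hκ : 0 < κ) (μ : ℝ) (N : ℕ) :
    ∑ n ∈ Finset.range N, ((n : ℝ) + 1) * vv κ μ n ≤ Real.exp (1 / κ + 2 * μ) * Z2 := by
  calc ∑ n ∈ Finset.range N, ((n : ℝ) + 1) * vv κ μ n
      ≤ ∑ n ∈ Finset.range N, Real.exp (1 / κ + 2 * μ) * (1 / ((n : ℝ) + 1) ^ 2) :=
        Finset.sum_le_sum fun n _ => vv_bound hκ μ n
    _ = Real.exp (1 / κ + 2 * μ) * ∑ n ∈ Finset.range N, (1 / ((n : ℝ) + 1) ^ 2) := by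
        rw [Finset.mul_sum]
    _ ≤ _ := mul_le_mul_of_nonneg_left (sum2.sum_le_tsum _ fun n _ => by positivity)
        (Real.exp_nonneg _)

theorem sumV {κ : ℝ} (hκ : 0 < κ) (μ : ℝ) : Summable (vv κ μ) := by
  refine Summable.of_nonneg_of_le (fun n => vv_nonneg κ μ n) (fun n => ?_)
    (sum2.mul_left (Real.exp (1 / κ + 2 * μ)))
  refine le_trans ?_ (vv_bound hκ μ n)
  have h0 := vv_nonneg κ μ n
  have : (0 : ℝ) ≤ (n : ℝ) := Nat.cast_nonneg n
  nlinarith

theorem V_cont {κ : ℝ} (hκ : 0 < κ) (μ : ℝ) : Continuous (V κ μ) := by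
  refine continuous_tsum (fun n => ?_) (sumV hκ μ) (fun n x => (norm_term κ μ x n).le)
  fun_prop

theorem P_tendsto {κ : ℝ} (hκ : 0 < κ) (μ x : ℝ) :
    Tendsto (fun N => P κ μ N x) atTop (𝓝 (V κ μ x)) := by
  have h : Summable fun n : ℕ =>
      ((vv κ μ n : ℝ) : ℂ) * cexp (-(I * x * Real.log ((n : ℝ) + 1))) := by
    apply Summable.of_norm
    simp only [norm_term]
    exact sumV hκ μ
  exact h.hasSum.tendsto_sum_nat

theorem P_norm {κ : ℝ} (hκ : 0 < κ) (μ : ℝ) (N : ℕ) (x : ℝ) : ‖P κ μ N x‖ ≤ ∑' n, vv κ μ n := by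
  refine (norm_sum_le _ _).trans ?_
  simp only [norm_term]
  exact (sumV hκ μ).sum_le_tsum _ fun n _ => vv_nonneg κ μ n

theorem P_cont (κ μ : ℝ) (N : ℕ) : Continuous (P κ μ N) := by
  unfold P
  fun_prop

theorem V_lower {κ : ℝ} (hκ : 0 < κ) (μ : ℝ) (N₀ : ℕ) {A B : ℝ} (hAB : A ≤ B) :
    (B - A) * ∑ n ∈ Finset.range N₀, vv κ μ n ^ 2 -
      2 * (Real.exp (1 / κ + 2 * μ) * Z2) ^ 2 ≤ ∫ x in A..B, ‖V κ μ x‖ ^ 2 := by
  have hlim : Tendsto (fun N => ∫ x in A..B, ‖P κ μ N x‖ ^ 2) atTop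
      (𝓝 (∫ x in A..B, ‖V κ μ x‖ ^ 2)) := by
    refine intervalIntegral.tendsto_integral_filter_of_dominated_convergence
      (fun _ => (∑' n, vv κ μ n) ^ 2) ?_ ?_ ?_ ?_
    · exact Eventually.of_forall fun N => ((P_cont κ μ N).norm.pow 2).aestronglyMeasurable
    · refine Eventually.of_forall fun N => Eventually.of_forall fun x _ => ?_
      rw [Real.norm_eq_abs, abs_of_nonneg (by positivity)]
      exact pow_le_pow_left₀ (norm_nonneg _) (P_norm hκ μ N x) 2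
    · exact intervalIntegrable_const
    · exact Eventually.of_forall fun x _ => ((P_tendsto hκ μ x).norm.pow 2)
  refine ge_of_tendsto hlim ?_
  filter_upwards [eventually_ge_atTop N₀] with N hN
  refine le_trans ?_ (P_lower κ μ N A B)
  have h1 : ∑ n ∈ Finset.range N₀, vv κ μ n ^ 2 ≤ ∑ n ∈ Finset.range N, vv κ μ n ^ 2 :=
    Finset.sum_le_sum_of_subset_of_nonneg (Finset.range_mono hN) fun n _ _ => sq_nonneg _
  have h2 : (∑ n ∈ Finset.range N, ((n : ℝ) + 1) * vv κ μ n) ^ 2 ≤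
      (Real.exp (1 / κ + 2 * μ) * Z2) ^ 2 :=
    pow_le_pow_left₀ (Finset.sum_nonneg fun n _ => mul_nonneg (by positivity) (vv_nonneg κ μ n))
      (fin_bound hκ μ N) 2
  have h3 := mul_le_mul_of_nonneg_left h1 (sub_nonneg.2 hAB)
  linarith

theorem sq_lower {κ : ℝ} (hκ : 0 < κ) {μ : ℝ} (hμ : 2 ≤ Real.exp μ) : ∃ N₀ : ℕ,
    Real.exp (-(2 * κ * Real.log 3 ^ 2)) / 27 * Real.exp (-(2 * μ)) ≤
      ∑ n ∈ Finset.range N₀, vv κ μ n ^ 2 := by
  obtain ⟨k, hk⟩ : ∃ k : ℕ, k = ⌈Real.exp μ⌉₊ := ⟨_, rfl⟩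
  have hk1 : Real.exp μ ≤ k := by rw [hk]; exact Nat.le_ceil _
  have hk2 : (k : ℝ) < Real.exp μ + 1 := by rw [hk]; exact Nat.ceil_lt_add_one (Real.exp_nonneg _)
  have hk3 : 1 ≤ k := by
    have : (1 : ℝ) ≤ k := by linarith
    exact_mod_cast this
  refine ⟨2 * k - 1, ?_⟩
  have hsub : Finset.Ico (k - 1) (2 * k - 1) ⊆ Finset.range (2 * k - 1) := by
    intro n hn
    rw [Finset.mem_Ico] at hn
    exact Finset.mem_range.2 hn.2
  refine le_trans ?_ (Finset.sum_le_sum_of_subset_of_nonneg hsub fun n _ _ => sq_nonneg _)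
  have hterm : ∀ n ∈ Finset.Ico (k - 1) (2 * k - 1),
      Real.exp (-(2 * κ * Real.log 3 ^ 2)) / (27 * Real.exp μ ^ 3) ≤ vv κ μ n ^ 2 := by
    intro n hn
    rw [Finset.mem_Ico] at hn
    have hn0 : (0 : ℝ) < (n : ℝ) + 1 := by positivity
    have e1 : (k : ℝ) ≤ (n : ℝ) + 1 := by
      have : k ≤ n + 1 := by omega
      exact_mod_cast this
    have e2 : (n : ℝ) + 1 ≤ 3 * Real.exp μ := by
      have : n + 1 + 1 ≤ 2 * k := by omega
      have h : (n : ℝ) + 1 + 1 ≤ 2 * k := by exact_mod_cast this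
      linarith
    have e3 : μ ≤ Real.log ((n : ℝ) + 1) := by
      rw [Real.le_log_iff_exp_le hn0]
      linarith
    have e4 : Real.log ((n : ℝ) + 1) ≤ Real.log 3 + μ := by
      have h := Real.log_le_log hn0 e2
      rw [Real.log_mul (by norm_num) (Real.exp_pos μ).ne', Real.log_exp] at h
      exact h
    have e5 : (μ - Real.log ((n : ℝ) + 1)) ^ 2 ≤ Real.log 3 ^ 2 := by
      have h3 : 0 ≤ Real.log 3 := Real.log_nonneg (by norm_num)
      nlinarith
    unfold vv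
    rw [mul_pow]
    have e6 : (((n : ℝ) + 1) ^ (-(3 / 2) : ℝ)) ^ 2 = 1 / ((n : ℝ) + 1) ^ 3 := by
      rw [← Real.rpow_natCast, ← Real.rpow_mul hn0.le, one_div, ← Real.rpow_natCast,
        ← Real.rpow_neg hn0.le]
      norm_num
    have e7 : Real.exp (-(κ * (μ - Real.log ((n : ℝ) + 1)) ^ 2)) ^ 2 =
        Real.exp (-(2 * κ * (μ - Real.log ((n : ℝ) + 1)) ^ 2)) := by
      rw [← Real.exp_nat_mul]
      congr 1
      push_cast
      ring
    rw [e6, e7]
    have e8 : ((n : ℝ) + 1) ^ 3 ≤ 27 * Real.exp μ ^ 3 := by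
      calc ((n : ℝ) + 1) ^ 3 ≤ (3 * Real.exp μ) ^ 3 := pow_le_pow_left₀ hn0.le e2 3
        _ = 27 * Real.exp μ ^ 3 := by ring
    have e9 : 1 / (27 * Real.exp μ ^ 3) ≤ 1 / ((n : ℝ) + 1) ^ 3 :=
      one_div_le_one_div_of_le (by positivity) e8
    have e10 : Real.exp (-(2 * κ * Real.log 3 ^ 2)) ≤
        Real.exp (-(2 * κ * (μ - Real.log ((n : ℝ) + 1)) ^ 2)) := by
      apply Real.exp_le_exp.2
      nlinarith
    calc Real.exp (-(2 * κ * Real.log 3 ^ 2)) / (27 * Real.exp μ ^ 3)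
        = 1 / (27 * Real.exp μ ^ 3) * Real.exp (-(2 * κ * Real.log 3 ^ 2)) := by ring
      _ ≤ _ := mul_le_mul e9 e10 (Real.exp_nonneg _) (by positivity)
  have hsum := Finset.card_nsmul_le_sum _ _ _ hterm
  refine le_trans ?_ hsum
  rw [Nat.card_Ico, nsmul_eq_mul]
  have hc : 2 * k - 1 - (k - 1) = k := by omega
  rw [hc]
  have hE : 0 < Real.exp μ := Real.exp_pos μ
  have h1 : Real.exp (-(2 * κ * Real.log 3 ^ 2)) / 27 * Real.exp (-(2 * μ)) =
      Real.exp μ * (Real.exp (-(2 * κ * Real.log 3 ^ 2)) / (27 * Real.exp μ ^ 3)) := by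
    have e : Real.exp (-(2 * μ)) = 1 / Real.exp μ ^ 2 := by
      rw [Real.exp_neg, two_mul, Real.exp_add, one_div, pow_two]
    rw [e]
    field_simp
  rw [h1]
  exact mul_le_mul_of_nonneg_right hk1 (by positivity)

theorem fub {f : ℝ → ℝ → ℝ} (hf : Continuous (Function.uncurry f)) {a b c d : ℝ} (hab : a ≤ b)
    (hcd : c ≤ d) : ∫ x in a..b, ∫ u in c..d, f x u = ∫ u in c..d, ∫ x in a..b, f x u := by
  simp only [intervalIntegral.integral_of_le hab, intervalIntegral.integral_of_le hcd]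
  apply integral_integral_swap
  rw [Measure.prod_restrict]
  exact (hf.continuousOn.integrableOn_compact (isCompact_Icc.prod isCompact_Icc)).mono_set
    (Set.prod_mono Set.Ioc_subset_Icc_self Set.Ioc_subset_Icc_self)

theorem int_w {R : ℝ} (hR : 0 < R) : ∫ u in (-R)..R, (1 - |u| / R) / R = 1 := by
  have hc : Continuous fun u : ℝ => (1 - |u| / R) / R := by fun_prop
  rw [← intervalIntegral.integral_add_adjacent_intervals (hc.intervalIntegrable (-R) 0)
    (hc.intervalIntegrable 0 R)]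
  have h1 : ∫ u in (-R)..0, (1 - |u| / R) / R = ∫ u in (-R)..0, (R⁻¹ + (R ^ 2)⁻¹ * u) := by
    apply intervalIntegral.integral_congr
    intro u hu
    rw [Set.uIcc_of_le (by linarith)] at hu
    simp only
    rw [abs_of_nonpos hu.2]
    field_simp
    ring
  have h2 : ∫ u in (0 : ℝ)..R, (1 - |u| / R) / R = ∫ u in (0 : ℝ)..R, (R⁻¹ - (R ^ 2)⁻¹ * u) := by
    apply intervalIntegral.integral_congr
    intro u hu
    rw [Set.uIcc_of_le hR.le] at hu
    simp only
    rw [abs_of_nonneg hu.1]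
    field_simp
  rw [h1, h2, intervalIntegral.integral_add (by simp) (by
      exact (by fun_prop : Continuous fun u : ℝ => (R ^ 2)⁻¹ * u).intervalIntegrable _ _),
    intervalIntegral.integral_sub (by simp) (by
      exact (by fun_prop : Continuous fun u : ℝ => (R ^ 2)⁻¹ * u).intervalIntegrable _ _),
    intervalIntegral.integral_const_mul, intervalIntegral.integral_const_mul,
    intervalIntegral.integral_const, intervalIntegral.integral_const, integral_id, integral_id]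
  simp only [smul_eq_mul]
  field_simp
  ring

theorem FL_lower {κ : ℝ} (hκ : 0 < κ) (μ : ℝ) {R A B K : ℝ} (hR : 0 < R) (hAB : A ≤ B)
    (hK : ∀ A' B' : ℝ, A' ≤ B' → B' - A' = B - A → K ≤ ∫ x in A'..B', ‖V κ μ x‖ ^ 2) :
    K ≤ ∫ x in A..B, FL κ μ R x := by
  have hV := V_cont hκ μ
  have hc : Continuous (Function.uncurry fun x u : ℝ =>
      (1 - |u| / R) / R * ‖V κ μ (x + u)‖ ^ 2) := by
    unfold Function.uncurry
    fun_prop
  have h1 : ∫ x in A..B, FL κ μ R x =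
      ∫ u in (-R)..R, ∫ x in A..B, (1 - |u| / R) / R * ‖V κ μ (x + u)‖ ^ 2 := by
    unfold FL
    exact fub hc hAB (by linarith)
  rw [h1]
  have h2 : K = ∫ u in (-R)..R, (1 - |u| / R) / R * K := by
    rw [intervalIntegral.integral_mul_const, int_w hR, one_mul]
  have hc2 : Continuous fun u : ℝ =>
      ∫ x in A..B, (1 - |u| / R) / R * ‖V κ μ (x + u)‖ ^ 2 := by
    apply intervalIntegral.continuous_parametric_intervalIntegral_of_continuous'
    unfold Function.uncurry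
    fun_prop
  rw [h2]
  refine intervalIntegral.integral_mono_on (by linarith) ?_ (hc2.intervalIntegrable _ _) ?_
  · exact (by fun_prop : Continuous fun u : ℝ => (1 - |u| / R) / R * K).intervalIntegrable _ _
  · intro u hu
    rw [intervalIntegral.integral_const_mul]
    apply mul_le_mul_of_nonneg_left
    · rw [intervalIntegral.integral_comp_add_right (fun x => ‖V κ μ x‖ ^ 2) u]
      exact hK _ _ (by linarith) (by ring)
    · apply div_nonneg _ hR.le
      rw [sub_nonneg, div_le_one hR, abs_le]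
      exact ⟨hu.1, hu.2⟩

theorem t_MA : S_MA := by
  intro κ b hκ
  obtain ⟨E, hE⟩ : ∃ E : ℝ, E = Real.exp (-(2 * κ * Real.log 3 ^ 2)) := ⟨_, rfl⟩
  have hE0 : 0 < E := by rw [hE]; exact Real.exp_pos _
  obtain ⟨D, hD⟩ : ∃ D : ℝ, D = 432 * (Real.exp (1 / κ) * Z2) ^ 2 / E * Real.exp (6 * b) :=
    ⟨_, rfl⟩
  have hlog := Real.tendsto_log_atTop
  have ev1 : ∀ᶠ X : ℝ in atTop, 2 ≤ Real.exp (Real.log X / 100 + b) := by
    have h : Tendsto (fun X : ℝ => Real.exp (Real.log X / 100 + b)) atTop atTop :=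
      Real.tendsto_exp_atTop.comp
        (tendsto_atTop_add_const_right _ _ (hlog.atTop_div_const (by norm_num)))
    exact h.eventually (eventually_ge_atTop 2)
  have ev2 : ∀ᶠ X : ℝ in atTop, D ≤ Real.exp (Real.log X * (44 / 100)) := by
    have h : Tendsto (fun X : ℝ => Real.exp (Real.log X * (44 / 100))) atTop atTop :=
      Real.tendsto_exp_atTop.comp (hlog.atTop_mul_const (by norm_num))
    exact h.eventually (eventually_ge_atTop D)
  obtain ⟨X₁, hX₁⟩ := eventually_atTop.1 (ev1.and ev2)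
  refine ⟨E / 216, max X₁ 3, by positivity, le_max_right _ _, ?_⟩
  intro X hX
  obtain ⟨g1, g2⟩ := hX₁ X ((le_max_left _ _).trans hX)
  have hX3 : 3 ≤ X := (le_max_right _ _).trans hX
  have hX0 : 0 < X := by linarith
  obtain ⟨μ, hμ⟩ : ∃ μ : ℝ, μ = Real.log X / 100 + b := ⟨_, rfl⟩
  rw [← hμ] at g1 ⊢
  have hL : 0 < Real.log X := Real.log_pos (by linarith)
  have hs : 0 < Real.sqrt X := Real.sqrt_pos.2 hX0
  obtain ⟨N₀, hN₀⟩ := sq_lower hκ g1
  rw [← hE] at hN₀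
  refine FL_lower hκ μ hL (by linarith) fun A' B' h1 h2 => ?_
  refine le_trans ?_ (V_lower hκ μ N₀ h1)
  have h3 : B' - A' = Real.sqrt X / 4 := by rw [h2]; ring
  rw [h3]
  have h4 := mul_le_mul_of_nonneg_left hN₀ (show 0 ≤ Real.sqrt X / 4 by positivity)
  -- the error term
  have h5 : 2 * (Real.exp (1 / κ + 2 * μ) * Z2) ^ 2 ≤
      Real.sqrt X * (E / 216) * Real.exp (-(2 * μ)) := by
    have e1 : Real.sqrt X = Real.exp (Real.log X * (44 / 100)) * Real.exp (Real.log X * (6 / 100)) := by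
      rw [← Real.exp_add, Real.sqrt_eq_rpow, Real.rpow_def_of_pos hX0]
      congr 1
      ring
    have e2 : Real.exp (6 * μ) = Real.exp (Real.log X * (6 / 100)) * Real.exp (6 * b) := by
      rw [← Real.exp_add, hμ]
      congr 1
      ring
    have e3 : Real.exp (4 * μ) = Real.exp (6 * μ) * Real.exp (-(2 * μ)) := by
      rw [← Real.exp_add]
      congr 1
      ring
    have e4 : (Real.exp (1 / κ + 2 * μ) * Z2) ^ 2 =
        (Real.exp (1 / κ) * Z2) ^ 2 * Real.exp (4 * μ) := by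
      have e5 : Real.exp (4 * μ) = Real.exp (2 * μ) ^ 2 := by
        rw [← Real.exp_nat_mul]
        congr 1
        push_cast
        ring
      rw [e5, Real.exp_add]
      ring
    have e6 : 2 * (Real.exp (1 / κ) * Z2) ^ 2 * Real.exp (6 * b) = D * (E / 216) := by
      rw [hD]
      field_simp
      ring
    rw [e4, e3, e2]
    calc 2 * ((Real.exp (1 / κ) * Z2) ^ 2 *
          (Real.exp (Real.log X * (6 / 100)) * Real.exp (6 * b) * Real.exp (-(2 * μ))))
        = (2 * (Real.exp (1 / κ) * Z2) ^ 2 * Real.exp (6 * b)) *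
            (Real.exp (Real.log X * (6 / 100)) * Real.exp (-(2 * μ))) := by ring
      _ = D * ((E / 216) * (Real.exp (Real.log X * (6 / 100)) * Real.exp (-(2 * μ)))) := by
          rw [e6]; ring
      _ ≤ Real.exp (Real.log X * (44 / 100)) *
            ((E / 216) * (Real.exp (Real.log X * (6 / 100)) * Real.exp (-(2 * μ)))) :=
          mul_le_mul_of_nonneg_right g2 (by positivity)
      _ = Real.sqrt X * (E / 216) * Real.exp (-(2 * μ)) := by rw [e1]; ring
  have h6 : E / 216 * Real.sqrt X * Real.exp (-(2 * μ)) =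
      Real.sqrt X / 4 * (E / 27 * Real.exp (-(2 * μ))) -
        Real.sqrt X * (E / 216) * Real.exp (-(2 * μ)) := by ring
  rw [h6]
  linarith

end

end Pool.Agent.U85.XLP.MA
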