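import Mathlib

set_option autoImplicit false

namespace Pool.Agent.U85.XLP.MB

open MeasureTheory Filter Topology Complex Finset

theorem sumA (T : ℝ) (hT : 0 < T) (n : ℕ) :
    ∑ h ∈ Finset.Icc 1 n, min 1 (T ^ 2 / (h : ℝ) ^ 2) ≤ 4 * T := by
  have h1 : ∑ h ∈ Finset.Icc 1 n, min 1 (T ^ 2 / (h : ℝ) ^ 2) ≤ 4 * T * ((n : ℝ) / (n + T)) := by
    induction n with
    | zero => simp
    | succ n ih =>
      rw [Finset.sum_Icc_succ_top (by omega)]
      have h2 : min 1 (T ^ 2 / (((n + 1 : ℕ) : ℝ)) ^ 2) ≤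
          4 * T * ((((n + 1 : ℕ) : ℝ)) / (((n + 1 : ℕ) : ℝ) + T)) - 4 * T * ((n : ℝ) / (n + T)) := by
        have hn : (0 : ℝ) ≤ n := Nat.cast_nonneg n
        push_cast
        have h3 : 4 * T * (((n : ℝ) + 1) / ((n : ℝ) + 1 + T)) - 4 * T * ((n : ℝ) / (n + T)) =
            4 * T ^ 2 / (((n : ℝ) + 1 + T) * (n + T)) := by
          field_simp
          ring
        rw [h3]
        rcases le_total T ((n : ℝ) + 1) with h | h
        · refine (min_le_right _ _).trans ?_
          rw [div_le_div_iff₀ (by positivity) (by positivity)]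
          have : ((n : ℝ) + 1 + T) * (n + T) ≤ 4 * ((n : ℝ) + 1) ^ 2 := by nlinarith
          nlinarith [sq_nonneg T, mul_le_mul_of_nonneg_left this (sq_nonneg T)]
        · refine (min_le_left _ _).trans ?_
          rw [le_div_iff₀ (by positivity)]
          nlinarith
      linarith
  refine h1.trans ?_
  have : (n : ℝ) / (n + T) ≤ 1 := by
    rw [div_le_one (by positivity)]
    linarith
  nlinarith

/-- the coefficients -/
noncomputable def w (κ μ : ℝ) (n : ℕ) : ℝ :=
  (n : ℝ) ^ (-(3 / 2) : ℝ) * Real.exp (-(κ * (μ - Real.log n) ^ 2))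

theorem w_nonneg (κ μ : ℝ) (n : ℕ) : 0 ≤ w κ μ n := by unfold w; positivity

theorem w_sq (κ μ : ℝ) (hκ : 0 < κ) (n : ℕ) (hn : 1 ≤ n) :
    w κ μ n ^ 2 ≤ Real.exp (9 / (8 * κ)) * Real.exp (-(2 * μ)) *
      ((1 / n) * Real.exp (-|Real.log n - μ|)) := by
  have hn0 : (0 : ℝ) < n := by exact_mod_cast hn
  unfold w
  rw [mul_pow, ← Real.rpow_natCast ((n : ℝ) ^ (-(3 / 2) : ℝ)) 2, ← Real.rpow_mul hn0.le, ← Real.exp_nat_mul]
  have h1 : (n : ℝ) ^ (-(3 / 2) * ((2 : ℕ) : ℝ)) = (1 / n) * Real.exp (-(2 * Real.log n)) := by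
    rw [show (-(3 / 2) * ((2 : ℕ) : ℝ) : ℝ) = -1 + -2 by norm_num, Real.rpow_add hn0,
      Real.rpow_neg_one, one_div]
    congr 1
    rw [Real.rpow_def_of_pos hn0]
    congr 1; ring
  rw [h1]
  obtain ⟨s, hs⟩ : ∃ s : ℝ, s = Real.log n - μ := ⟨_, rfl⟩
  have h2 : Real.exp (-(2 * Real.log n)) * Real.exp (((2 : ℕ) : ℝ) * -(κ * (μ - Real.log n) ^ 2)) ≤
      Real.exp (9 / (8 * κ)) * Real.exp (-(2 * μ)) * Real.exp (-|Real.log n - μ|) := by
    rw [← Real.exp_add, ← Real.exp_add, ← Real.exp_add, ← hs, show Real.log n = s + μ by rw [hs]; ring]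
    apply Real.exp_le_exp.2
    push_cast
    have h3 : 3 * |s| - 2 * κ * |s| ^ 2 ≤ 9 / (8 * κ) := by
      rw [le_div_iff₀ (by positivity)]
      nlinarith [sq_nonneg (4 * κ * |s| - 3)]
    have h4 : -s ≤ |s| := neg_le_abs s
    have h5 : (μ - (s + μ)) ^ 2 = |s| ^ 2 := by rw [sq_abs]; ring
    rw [h5]
    linarith
  have h0 : (0 : ℝ) ≤ 1 / n := by positivity
  calc (1 / (n : ℝ)) * Real.exp (-(2 * Real.log n)) * Real.exp (((2 : ℕ) : ℝ) * -(κ * (μ - Real.log n) ^ 2))
      = (1 / (n : ℝ)) * (Real.exp (-(2 * Real.log n)) * Real.exp (((2 : ℕ) : ℝ) * -(κ * (μ - Real.log n) ^ 2))) := by ring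
    _ ≤ (1 / (n : ℝ)) * (Real.exp (9 / (8 * κ)) * Real.exp (-(2 * μ)) * Real.exp (-|Real.log n - μ|)) :=
        mul_le_mul_of_nonneg_left h2 h0
    _ = _ := by ring

theorem expabs (g : ℝ) (hg : 0 < g) (t : ℝ) :
    (1 / g) * Real.exp (-|Real.log g - t|) = (1 / Real.exp t) * min 1 (Real.exp t ^ 2 / g ^ 2) := by
  have hT := Real.exp_pos t
  rcases le_total (Real.log g) t with h | h
  · have h1 : g ≤ Real.exp t := by rwa [Real.log_le_iff_le_exp hg] at h
    rw [abs_of_nonpos (by linarith), min_eq_left, neg_neg, Real.exp_sub, Real.exp_log hg]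
    · field_simp
    · rw [one_le_div (by positivity)]
      exact pow_le_pow_left₀ hg.le h1 2
  · have h1 : Real.exp t ≤ g := by rwa [Real.le_log_iff_exp_le hg] at h
    rw [abs_of_nonneg (by linarith), min_eq_right, neg_sub, Real.exp_sub, Real.exp_log hg]
    · field_simp
    · rw [div_le_one (by positivity)]
      exact pow_le_pow_left₀ hT.le h1 2

theorem sumS (κ μ : ℝ) (hκ : 0 < κ) (N a : ℕ) (ha : 1 ≤ a) :
    ∑ g ∈ Finset.Icc 1 N, w κ μ (g * a) ^ 2 ≤
      4 * Real.exp (9 / (8 * κ)) * Real.exp (-(2 * μ)) * (1 / a) := by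
  have ha0 : (0 : ℝ) < a := by exact_mod_cast ha
  have h1 : ∀ g ∈ Finset.Icc 1 N, w κ μ (g * a) ^ 2 ≤
      Real.exp (9 / (8 * κ)) * Real.exp (-(2 * μ)) * (1 / a) * (1 / Real.exp (μ - Real.log a)) *
        min 1 (Real.exp (μ - Real.log a) ^ 2 / (g : ℝ) ^ 2) := by
    intro g hg
    rw [Finset.mem_Icc] at hg
    have hg0 : (0 : ℝ) < g := by exact_mod_cast hg.1
    refine (w_sq κ μ hκ (g * a) (Nat.mul_pos hg.1 ha)).trans (le_of_eq ?_)
    have h2 := expabs (g : ℝ) hg0 (μ - Real.log a)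
    push_cast
    rw [Real.log_mul hg0.ne' ha0.ne', show Real.log (g : ℝ) + Real.log a - μ = Real.log g - (μ - Real.log a) by ring]
    calc _ = Real.exp (9 / (8 * κ)) * Real.exp (-(2 * μ)) * (1 / a) *
          ((1 / (g : ℝ)) * Real.exp (-|Real.log g - (μ - Real.log a)|)) := by
          field_simp
      _ = _ := by rw [h2]; ring
  refine (Finset.sum_le_sum h1).trans ?_
  rw [← Finset.mul_sum]
  have hT := Real.exp_pos (μ - Real.log a)
  have h3 := sumA (Real.exp (μ - Real.log a)) hT N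
  calc _ ≤ Real.exp (9 / (8 * κ)) * Real.exp (-(2 * μ)) * (1 / a) * (1 / Real.exp (μ - Real.log a)) *
        (4 * Real.exp (μ - Real.log a)) := mul_le_mul_of_nonneg_left h3 (by positivity)
    _ = _ := by field_simp

/-- the sum over the fractions -/
theorem sumK (kn : ℝ → ℝ) (R : ℝ) (hR : 0 < R) (N : ℕ) (hH : ∑ h ∈ Finset.Icc 1 N, 1 / (h : ℝ) ≤ R)
    (h0 : ∀ v, 0 ≤ kn v) (h2 : ∀ v, kn v ≤ 2) (h4 : ∀ v, v ≠ 0 → kn v ≤ 4 / (R * v) ^ 2)
    (hs : ∀ v, kn (-v) = kn v) :
    ∑ a ∈ Finset.Icc 1 N, ∑ b ∈ Finset.Icc 1 N, kn (Real.log b - Real.log a) ^ 2 * (1 / a * (1 / b)) ≤ 96 := by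
  have key : ∀ a h : ℕ, 1 ≤ a → 1 ≤ h →
      kn (Real.log ((a + h : ℕ) : ℝ) - Real.log a) ^ 2 * (1 / a * (1 / ((a + h : ℕ) : ℝ))) ≤
        4 / (a : ℝ) ^ 2 * min 1 ((2 * a / R) ^ 2 / (h : ℝ) ^ 2) + 8 / R ^ 2 * (1 / a * (1 / h)) := by
    intro a h ha hh
    have ha0 : (0 : ℝ) < a := by exact_mod_cast ha
    have hh0 : (0 : ℝ) < h := by exact_mod_cast hh
    obtain ⟨q, hq⟩ : ∃ q : ℝ, q = kn (Real.log ((a + h : ℕ) : ℝ) - Real.log a) ^ 2 := ⟨_, rfl⟩
    rw [← hq]
    push_cast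
    have hb0 : (0 : ℝ) < (a : ℝ) + h := by positivity
    have hv : (h : ℝ) / (a + h) ≤ Real.log ((a : ℝ) + h) - Real.log a := by
      rw [← Real.log_div hb0.ne' ha0.ne']
      have := Real.one_sub_inv_le_log_of_pos (x := ((a : ℝ) + h) / a) (by positivity)
      refine le_trans (le_of_eq ?_) this
      field_simp
      ring
    have hvp : 0 < (h : ℝ) / (a + h) := by positivity
    have hv0 : 0 < Real.log ((a : ℝ) + h) - Real.log a := lt_of_lt_of_le hvp hv
    have hq0 : 0 ≤ q := by rw [hq]; positivity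
    have hq4 : q ≤ 4 := by
      rw [hq]
      have := h0 (Real.log ((a + h : ℕ) : ℝ) - Real.log a)
      have := h2 (Real.log ((a + h : ℕ) : ℝ) - Real.log a)
      nlinarith
    have hq8 : q ≤ 8 * (a + h) ^ 2 / (R ^ 2 * h ^ 2) := by
      have e0 := h0 (Real.log ((a + h : ℕ) : ℝ) - Real.log a)
      have e2 := h2 (Real.log ((a + h : ℕ) : ℝ) - Real.log a)
      have e4 := h4 (Real.log ((a + h : ℕ) : ℝ) - Real.log a) (by push_cast; exact hv0.ne')
      have e5 : 4 / (R * (Real.log ((a + h : ℕ) : ℝ) - Real.log a)) ^ 2 ≤ 4 * (a + h) ^ 2 / (R ^ 2 * h ^ 2) := by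
        push_cast
        rw [mul_pow]
        calc 4 / (R ^ 2 * (Real.log ((a : ℝ) + h) - Real.log a) ^ 2) ≤ 4 / (R ^ 2 * ((h : ℝ) / (a + h)) ^ 2) := by
              apply div_le_div_of_nonneg_left (by norm_num) (by positivity)
              apply mul_le_mul_of_nonneg_left _ (by positivity)
              exact pow_le_pow_left₀ hvp.le hv 2
          _ = _ := by field_simp
      have e6 := e4.trans e5
      rw [hq, sq]
      calc _ ≤ 2 * (4 * ((a : ℝ) + h) ^ 2 / (R ^ 2 * h ^ 2)) := mul_le_mul e2 e6 e0 (by norm_num)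
        _ = _ := by ring
    have hsplit : (1 : ℝ) / a * (1 / (a + h)) = 1 / (a + h) ^ 2 + h / ((a + h) ^ 2 * a) := by
      field_simp
    rw [hsplit, mul_add]
    apply add_le_add
    · rcases le_total (1 : ℝ) ((2 * a / R) ^ 2 / (h : ℝ) ^ 2) with hc | hc
      · rw [min_eq_left hc, mul_one]
        calc q * (1 / ((a : ℝ) + h) ^ 2) ≤ 4 * (1 / (a : ℝ) ^ 2) := by
              apply mul_le_mul hq4 _ (by positivity) (by norm_num)
              apply one_div_le_one_div_of_le (by positivity)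
              exact pow_le_pow_left₀ ha0.le (by linarith) 2
          _ = _ := by ring
      · rw [min_eq_right hc]
        calc q * (1 / ((a : ℝ) + h) ^ 2) ≤ (8 * (a + h) ^ 2 / (R ^ 2 * h ^ 2)) * (1 / ((a : ℝ) + h) ^ 2) :=
              mul_le_mul_of_nonneg_right hq8 (by positivity)
          _ = 8 / (R ^ 2 * h ^ 2) := by field_simp
          _ ≤ 16 / (R ^ 2 * h ^ 2) := by
              apply div_le_div_of_nonneg_right _ (by positivity); norm_num
          _ = _ := by field_simp; ring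
    · calc q * ((h : ℝ) / ((a + h) ^ 2 * a)) ≤ (8 * (a + h) ^ 2 / (R ^ 2 * h ^ 2)) * ((h : ℝ) / ((a + h) ^ 2 * a)) :=
              mul_le_mul_of_nonneg_right hq8 (by positivity)
        _ = _ := by field_simp
  have hterm : ∀ a b : ℕ, 0 ≤ kn (Real.log b - Real.log a) ^ 2 * (1 / a * (1 / b)) := by
    intro a b; positivity
  -- the part above the diagonal
  have hup : ∀ a ∈ Finset.Icc 1 N, ∑ b ∈ (Finset.Icc 1 N).filter (fun b => a < b),
      kn (Real.log b - Real.log a) ^ 2 * (1 / a * (1 / b)) ≤ 40 / R * (1 / a) := by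
    intro a ha
    rw [Finset.mem_Icc] at ha
    have ha0 : (0 : ℝ) < a := by exact_mod_cast ha.1
    have e1 : ∑ b ∈ (Finset.Icc 1 N).filter (fun b => a < b),
        kn (Real.log b - Real.log a) ^ 2 * (1 / a * (1 / b)) ≤
        ∑ h ∈ Finset.Icc 1 N, kn (Real.log ((a + h : ℕ) : ℝ) - Real.log a) ^ 2 * (1 / a * (1 / ((a + h : ℕ) : ℝ))) := by
      have e2 : ∑ b ∈ (Finset.Icc 1 N).filter (fun b => a < b),
          kn (Real.log b - Real.log a) ^ 2 * (1 / a * (1 / b)) =
          ∑ h ∈ ((Finset.Icc 1 N).filter (fun b => a < b)).image (fun b => b - a),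
            kn (Real.log ((a + h : ℕ) : ℝ) - Real.log a) ^ 2 * (1 / a * (1 / ((a + h : ℕ) : ℝ))) := by
        rw [Finset.sum_image]
        · apply Finset.sum_congr rfl
          intro b hb
          rw [Finset.mem_filter] at hb
          rw [show a + (b - a) = b by omega]
        · intro x hx y hy hxy
          simp only [Finset.coe_filter, Set.mem_ofPred_eq] at hx hy
          dsimp only at hxy
          omega
      rw [e2]
      apply Finset.sum_le_sum_of_subset_of_nonneg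
      · intro h hh
        rw [Finset.mem_image] at hh
        obtain ⟨b, hb, rfl⟩ := hh
        rw [Finset.mem_filter, Finset.mem_Icc] at hb
        rw [Finset.mem_Icc]; omega
      · intro h _ _; exact hterm a (a + h)
    refine e1.trans ?_
    have e3 : ∑ h ∈ Finset.Icc 1 N, kn (Real.log ((a + h : ℕ) : ℝ) - Real.log a) ^ 2 * (1 / a * (1 / ((a + h : ℕ) : ℝ))) ≤
        ∑ h ∈ Finset.Icc 1 N, (4 / (a : ℝ) ^ 2 * min 1 ((2 * a / R) ^ 2 / (h : ℝ) ^ 2) + 8 / R ^ 2 * (1 / a * (1 / h))) := by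
      apply Finset.sum_le_sum
      intro h hh
      rw [Finset.mem_Icc] at hh
      exact key a h ha.1 hh.1
    refine e3.trans ?_
    rw [Finset.sum_add_distrib, ← Finset.mul_sum, ← Finset.mul_sum, ← Finset.mul_sum]
    have e4 := sumA (2 * a / R) (by positivity) N
    calc _ ≤ 4 / (a : ℝ) ^ 2 * (4 * (2 * a / R)) + 8 / R ^ 2 * (1 / a * R) := by
          apply add_le_add
          · exact mul_le_mul_of_nonneg_left e4 (by positivity)
          · apply mul_le_mul_of_nonneg_left _ (by positivity)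
            exact mul_le_mul_of_nonneg_left hH (by positivity)
      _ = _ := by field_simp; ring
  have hupper : ∑ a ∈ Finset.Icc 1 N, ∑ b ∈ (Finset.Icc 1 N).filter (fun b => a < b),
      kn (Real.log b - Real.log a) ^ 2 * (1 / a * (1 / b)) ≤ 40 := by
    refine (Finset.sum_le_sum hup).trans ?_
    rw [← Finset.mul_sum]
    calc 40 / R * ∑ h ∈ Finset.Icc 1 N, 1 / (h : ℝ) ≤ 40 / R * R := mul_le_mul_of_nonneg_left hH (by positivity)
      _ = 40 := by field_simp
  have hlower : ∑ a ∈ Finset.Icc 1 N, ∑ b ∈ (Finset.Icc 1 N).filter (fun b => b < a),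
      kn (Real.log b - Real.log a) ^ 2 * (1 / a * (1 / b)) ≤ 40 := by
    refine le_trans (le_of_eq ?_) hupper
    simp only [Finset.sum_filter]
    rw [Finset.sum_comm]
    apply Finset.sum_congr rfl
    intro b _
    apply Finset.sum_congr rfl
    intro a _
    split_ifs
    · rw [← hs (Real.log a - Real.log b), neg_sub]; ring
    · rfl
  have hdiag : ∑ a ∈ Finset.Icc 1 N, ∑ b ∈ (Finset.Icc 1 N).filter (fun b => a = b),
      kn (Real.log b - Real.log a) ^ 2 * (1 / a * (1 / b)) ≤ 16 := by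
    have e1 : ∀ a ∈ Finset.Icc 1 N, ∑ b ∈ (Finset.Icc 1 N).filter (fun b => a = b),
        kn (Real.log b - Real.log a) ^ 2 * (1 / a * (1 / b)) ≤ 4 * min 1 ((1 : ℝ) ^ 2 / (a : ℝ) ^ 2) := by
      intro a ha
      rw [Finset.sum_filter, Finset.sum_ite_eq, if_pos ha]
      rw [Finset.mem_Icc] at ha
      have ha1 : (1 : ℝ) ≤ a := by exact_mod_cast ha.1
      have ha0 : (0 : ℝ) < a := by linarith
      rw [min_eq_right]
      · have e0 := h0 (Real.log a - Real.log a)
        have e2 := h2 (Real.log a - Real.log a)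
        have e3 : kn (Real.log a - Real.log a) ^ 2 ≤ 4 := by nlinarith
        calc _ ≤ 4 * (1 / (a : ℝ) * (1 / a)) := mul_le_mul_of_nonneg_right e3 (by positivity)
          _ = _ := by field_simp
      · rw [one_pow, div_le_one (by positivity)]
        exact one_le_pow₀ ha1
    refine (Finset.sum_le_sum e1).trans ?_
    rw [← Finset.mul_sum]
    have := sumA 1 one_pos N
    linarith
  have hall : ∑ a ∈ Finset.Icc 1 N, ∑ b ∈ Finset.Icc 1 N, kn (Real.log b - Real.log a) ^ 2 * (1 / a * (1 / b)) =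
      (∑ a ∈ Finset.Icc 1 N, ∑ b ∈ (Finset.Icc 1 N).filter (fun b => a < b),
        kn (Real.log b - Real.log a) ^ 2 * (1 / a * (1 / b))) +
      (∑ a ∈ Finset.Icc 1 N, ∑ b ∈ (Finset.Icc 1 N).filter (fun b => b < a),
        kn (Real.log b - Real.log a) ^ 2 * (1 / a * (1 / b))) +
      (∑ a ∈ Finset.Icc 1 N, ∑ b ∈ (Finset.Icc 1 N).filter (fun b => a = b),
        kn (Real.log b - Real.log a) ^ 2 * (1 / a * (1 / b))) := by
    rw [← Finset.sum_add_distrib, ← Finset.sum_add_distrib]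
    apply Finset.sum_congr rfl
    intro a _
    simp only [Finset.sum_filter]
    rw [← Finset.sum_add_distrib, ← Finset.sum_add_distrib]
    apply Finset.sum_congr rfl
    intro b _
    rcases lt_trichotomy a b with h | h | h
    · rw [if_pos h, if_neg (by omega), if_neg (by omega)]; ring
    · rw [if_neg (by omega), if_neg (by omega), if_pos h]; ring
    · rw [if_neg (by omega), if_pos h, if_neg (by omega)]; ring
  rw [hall]
  linarith

end Pool.Agent.U85.XLP.MB
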