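import Mathlib
import Pool.Agent.U85.XLP.MBa

set_option autoImplicit false

namespace Pool.Agent.U85.XLP.MB

open MeasureTheory Filter Topology Complex Finset

/-- the diagonal -/
theorem diag (κ μ : ℝ) (hκ : 0 < κ) (kn : ℝ → ℝ) (R : ℝ) (hR : 0 < R) (N : ℕ)
    (hH : ∑ h ∈ Finset.Icc 1 N, 1 / (h : ℝ) ≤ R)
    (h0 : ∀ v, 0 ≤ kn v) (h2 : ∀ v, kn v ≤ 2) (h4 : ∀ v, v ≠ 0 → kn v ≤ 4 / (R * v) ^ 2)
    (hs : ∀ v, kn (-v) = kn v) :
    ∑ z ∈ (((Finset.Icc 1 N) ×ˢ (Finset.Icc 1 N)) ×ˢ ((Finset.Icc 1 N) ×ˢ (Finset.Icc 1 N))).filter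
        (fun z : (ℕ × ℕ) × (ℕ × ℕ) => z.1.2 * z.2.1 = z.2.2 * z.1.1),
      (w κ μ z.1.1 * w κ μ z.1.2 * kn (Real.log z.1.2 - Real.log z.1.1)) *
        (w κ μ z.2.1 * w κ μ z.2.2 * kn (Real.log z.2.2 - Real.log z.2.1)) ≤
      96 * (4 * Real.exp (9 / (8 * κ)) * Real.exp (-(2 * μ))) ^ 2 := by
  classical
  obtain ⟨A, hA⟩ : ∃ A : Finset ℕ, A = Finset.Icc 1 N := ⟨_, rfl⟩
  obtain ⟨F, hF⟩ : ∃ F : (ℕ × ℕ) × (ℕ × ℕ) → ℝ, F = fun z =>
    (w κ μ z.1.1 * w κ μ z.1.2 * kn (Real.log z.1.2 - Real.log z.1.1)) *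
        (w κ μ z.2.1 * w κ μ z.2.2 * kn (Real.log z.2.2 - Real.log z.2.1)) := ⟨_, rfl⟩
  let ψ : (ℕ × ℕ) × (ℕ × ℕ) → (ℕ × ℕ) × (ℕ × ℕ) := fun y =>
    ((y.2.1 * y.1.1, y.2.1 * y.1.2), (y.2.2 * y.1.1, y.2.2 * y.1.2))
  let η : (ℕ × ℕ) × (ℕ × ℕ) → (ℕ × ℕ) × (ℕ × ℕ) := fun z =>
    ((z.1.1 / Nat.gcd z.1.1 z.1.2, z.1.2 / Nat.gcd z.1.1 z.1.2),
      (Nat.gcd z.1.1 z.1.2, z.2.1 / (z.1.1 / Nat.gcd z.1.1 z.1.2)))
  have hpos : ∀ y, 0 ≤ F y := by
    intro y
    rw [hF]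
    have := w_nonneg κ μ y.1.1
    have := w_nonneg κ μ y.1.2
    have := w_nonneg κ μ y.2.1
    have := w_nonneg κ μ y.2.2
    have := h0 (Real.log y.1.2 - Real.log y.1.1)
    have := h0 (Real.log y.2.2 - Real.log y.2.1)
    positivity
  have hη : ∀ z ∈ ((A ×ˢ A) ×ˢ (A ×ˢ A)).filter
        (fun z : (ℕ × ℕ) × (ℕ × ℕ) => z.1.2 * z.2.1 = z.2.2 * z.1.1),
      ψ (η z) = z ∧ η z ∈ (A ×ˢ A) ×ˢ (A ×ˢ A) := by
    rintro ⟨⟨m, n⟩, ⟨m', n'⟩⟩ hz
    simp only [hA, Finset.mem_filter, Finset.mem_product, Finset.mem_Icc] at hz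
    obtain ⟨⟨⟨⟨hm1, hm2⟩, hn1, hn2⟩, ⟨hm1', hm2'⟩, hn1', hn2'⟩, heq⟩ := hz
    obtain ⟨g, a, b, hg, hab, rfl, rfl⟩ : ∃ g a b : ℕ, 0 < g ∧ Nat.Coprime a b ∧ m = g * a ∧ n = g * b := by
      obtain ⟨g, a, b, hg, hab, h1, h2⟩ := Nat.exists_coprime' (m := m) (n := n) (Nat.gcd_pos_of_pos_left n hm1)
      exact ⟨g, a, b, hg, hab, by rw [h1, mul_comm], by rw [h2, mul_comm]⟩
    have hgcd : Nat.gcd (g * a) (g * b) = g := by rw [Nat.gcd_mul_left, hab.gcd_eq_one, mul_one]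
    have ha0 : 0 < a := Nat.pos_of_mul_pos_left hm1 |> fun h => by
      rcases Nat.eq_zero_or_pos a with h' | h'
      · subst h'; simp at hm1
      · exact h'
    have hb0 : 0 < b := by
      rcases Nat.eq_zero_or_pos b with h' | h'
      · subst h'; simp at hn1
      · exact h'
    have heq2 : b * m' = n' * a := by
      have : g * (b * m') = g * (n' * a) := by
        calc g * (b * m') = g * b * m' := by ring
          _ = n' * (g * a) := heq
          _ = g * (n' * a) := by ring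
      exact Nat.eq_of_mul_eq_mul_left hg this
    have hdvd : a ∣ m' := by
      have : a ∣ b * m' := ⟨n', by rw [heq2]; ring⟩
      exact hab.dvd_of_dvd_mul_left this
    obtain ⟨g', rfl⟩ := hdvd
    have hn' : n' = g' * b := by
      have : a * (g' * b) = a * n' := by
        calc a * (g' * b) = b * (a * g') := by ring
          _ = n' * a := heq2
          _ = a * n' := by ring
      exact (Nat.eq_of_mul_eq_mul_left ha0 this).symm
    subst hn'
    have hg0' : 0 < g' := by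
      rcases Nat.eq_zero_or_pos g' with h' | h'
      · subst h'; simp at hm1'
      · exact h'
    have e1 : g * a / g = a := Nat.mul_div_cancel_left a hg
    have e2 : g * b / g = b := Nat.mul_div_cancel_left b hg
    have e3 : a * g' / a = g' := Nat.mul_div_cancel_left g' ha0
    have hηz : η ((g * a, g * b), (a * g', g' * b)) = ((a, b), (g, g')) := by
      simp only [η, hgcd, e1, e2, e3]
    rw [hηz]
    refine ⟨?_, ?_⟩
    · simp only [ψ]
      rw [mul_comm g' a]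
    · simp only [hA, Finset.mem_product, Finset.mem_Icc]
      refine ⟨⟨⟨ha0, le_trans (Nat.le_mul_of_pos_left a hg) hm2⟩, hb0, le_trans (Nat.le_mul_of_pos_left b hg) hn2⟩,
        ⟨hg, le_trans (Nat.le_mul_of_pos_right g ha0) hm2⟩, hg0', le_trans (Nat.le_mul_of_pos_left g' ha0) hm2'⟩
  obtain ⟨Qd, hQd⟩ : ∃ Qd : Finset ((ℕ × ℕ) × (ℕ × ℕ)), Qd = ((A ×ˢ A) ×ˢ (A ×ˢ A)).filter
        (fun z : (ℕ × ℕ) × (ℕ × ℕ) => z.1.2 * z.2.1 = z.2.2 * z.1.1) := ⟨_, rfl⟩
  rw [← hQd] at hη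
  have h1 : ∑ z ∈ Qd, F z ≤ ∑ y ∈ (A ×ˢ A) ×ˢ (A ×ˢ A), F (ψ y) := by
    have e1 : ∑ z ∈ Qd, F z = ∑ z ∈ Qd, F (ψ (η z)) := by
      apply Finset.sum_congr rfl
      intro z hz
      rw [(hη z hz).1]
    have e2 : ∑ z ∈ Qd, F (ψ (η z)) = ∑ y ∈ Qd.image η, F (ψ y) := by
      rw [Finset.sum_image]
      intro x hx y hy hxy
      rw [← (hη x hx).1, ← (hη y hy).1]
      exact congrArg ψ hxy
    rw [e1, e2]
    apply Finset.sum_le_sum_of_subset_of_nonneg
    · intro y hy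
      rw [Finset.mem_image] at hy
      obtain ⟨z, hz, rfl⟩ := hy
      exact (hη z hz).2
    · intro y _ _; exact hpos _
  have h3 : ∑ y ∈ (A ×ˢ A) ×ˢ (A ×ˢ A), F (ψ y) ≤
      ∑ a ∈ A, ∑ b ∈ A, (4 * Real.exp (9 / (8 * κ)) * Real.exp (-(2 * μ))) ^ 2 *
        (kn (Real.log b - Real.log a) ^ 2 * (1 / a * (1 / b))) := by
    rw [Finset.sum_product, Finset.sum_product]
    apply Finset.sum_le_sum
    intro a ha
    apply Finset.sum_le_sum
    intro b hb
    rw [hA, Finset.mem_Icc] at ha hb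
    have ha0 : (0 : ℝ) < a := by exact_mod_cast ha.1
    have hb0 : (0 : ℝ) < b := by exact_mod_cast hb.1
    have e1 : ∀ y ∈ A ×ˢ A, F (ψ ((a, b), y)) = kn (Real.log b - Real.log a) ^ 2 *
        ((w κ μ (y.1 * a) * w κ μ (y.1 * b)) * (w κ μ (y.2 * a) * w κ μ (y.2 * b))) := by
      rintro ⟨g, g'⟩ hy
      simp only [hA, Finset.mem_product, Finset.mem_Icc] at hy
      have hg0 : (0 : ℝ) < g := by exact_mod_cast hy.1.1
      have hg0' : (0 : ℝ) < g' := by exact_mod_cast hy.2.1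
      rw [hF]
      simp only [ψ]
      push_cast
      rw [Real.log_mul hg0.ne' hb0.ne', Real.log_mul hg0.ne' ha0.ne', Real.log_mul hg0'.ne' hb0.ne',
        Real.log_mul hg0'.ne' ha0.ne', show Real.log (g : ℝ) + Real.log b - (Real.log g + Real.log a) =
          Real.log b - Real.log a by ring, show Real.log (g' : ℝ) + Real.log b - (Real.log g' + Real.log a) =
          Real.log b - Real.log a by ring]
      ring
    rw [Finset.sum_congr rfl e1, ← Finset.mul_sum, Finset.sum_product]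
    have e2 : ∑ g ∈ A, ∑ g' ∈ A, w κ μ (g * a) * w κ μ (g * b) * (w κ μ (g' * a) * w κ μ (g' * b)) =
        (∑ g ∈ A, w κ μ (g * a) * w κ μ (g * b)) ^ 2 := by
      rw [sq, Finset.sum_mul_sum]
    dsimp only
    rw [e2]
    have e3 := Finset.sum_mul_sq_le_sq_mul_sq A (fun g => w κ μ (g * a)) (fun g => w κ μ (g * b))
    have e4 := sumS κ μ hκ N a ha.1
    have e5 := sumS κ μ hκ N b hb.1
    rw [← hA] at e4 e5
    calc kn (Real.log b - Real.log a) ^ 2 * (∑ g ∈ A, w κ μ (g * a) * w κ μ (g * b)) ^ 2 ≤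
        kn (Real.log b - Real.log a) ^ 2 * ((∑ g ∈ A, w κ μ (g * a) ^ 2) * (∑ g ∈ A, w κ μ (g * b) ^ 2)) :=
          mul_le_mul_of_nonneg_left e3 (by positivity)
      _ ≤ kn (Real.log b - Real.log a) ^ 2 * ((4 * Real.exp (9 / (8 * κ)) * Real.exp (-(2 * μ)) * (1 / a)) *
          (4 * Real.exp (9 / (8 * κ)) * Real.exp (-(2 * μ)) * (1 / b))) := by
          apply mul_le_mul_of_nonneg_left _ (by positivity)
          apply mul_le_mul e4 e5 (Finset.sum_nonneg fun _ _ => by positivity) (by positivity)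
      _ = _ := by ring
  have h5 := sumK kn R hR N hH h0 h2 h4 hs
  rw [← hA] at h5
  simp only [← Finset.mul_sum] at h3
  rw [← hA, ← hQd]
  have h6 : ∑ z ∈ Qd, (w κ μ z.1.1 * w κ μ z.1.2 * kn (Real.log z.1.2 - Real.log z.1.1)) *
        (w κ μ z.2.1 * w κ μ z.2.2 * kn (Real.log z.2.2 - Real.log z.2.1)) = ∑ z ∈ Qd, F z := by rw [hF]
  rw [h6]
  calc ∑ z ∈ Qd, F z ≤ _ := h1
    _ ≤ _ := h3
    _ ≤ (4 * Real.exp (9 / (8 * κ)) * Real.exp (-(2 * μ))) ^ 2 * 96 := by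
        apply mul_le_mul_of_nonneg_left _ (by positivity)
        exact h5
    _ = _ := by ring

/-- mean square of a trigonometric sum -/
theorem meansq {ι : Type} (P : Finset ι) (θ : ι → ℝ) (d : ι → ℂ) (A B δ : ℝ) (hAB : A ≤ B) (hδ : 0 < δ)
    (hsep : ∀ p ∈ P, ∀ q ∈ P, θ p ≠ θ q → δ ≤ |θ p - θ q|) :
    ∫ x in A..B, ‖∑ p ∈ P, d p * cexp (I * x * θ p)‖ ^ 2 ≤
      (B - A) * ∑ z ∈ (P ×ˢ P).filter (fun z => θ z.1 = θ z.2), ‖d z.1‖ * ‖d z.2‖ +
        2 / δ * (∑ p ∈ P, ‖d p‖) ^ 2 := by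
  classical
  have h1 : ∀ x : ℝ, ((‖∑ p ∈ P, d p * cexp (I * x * θ p)‖ ^ 2 : ℝ) : ℂ) =
      ∑ z ∈ P ×ˢ P, d z.1 * (starRingEnd ℂ) (d z.2) * cexp ((I * ((θ z.1 - θ z.2 : ℝ) : ℂ)) * x) := by
    intro x
    rw [Complex.ofReal_pow, ← Complex.mul_conj', map_sum, Finset.sum_mul_sum, ← Finset.sum_product']
    apply Finset.sum_congr rfl
    intro z _
    rw [map_mul, ← Complex.exp_conj]
    simp only [map_mul, Complex.conj_I, Complex.conj_ofReal]
    calc _ = d z.1 * (starRingEnd ℂ) (d z.2) * (cexp (I * x * θ z.1) * cexp (-I * x * θ z.2)) := by ring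
      _ = _ := by
        rw [← Complex.exp_add]
        congr 2
        push_cast; ring
  have h2 : ((∫ x in A..B, ‖∑ p ∈ P, d p * cexp (I * x * θ p)‖ ^ 2 : ℝ) : ℂ) =
      ∑ z ∈ P ×ˢ P, d z.1 * (starRingEnd ℂ) (d z.2) *
        ∫ x in A..B, cexp ((I * ((θ z.1 - θ z.2 : ℝ) : ℂ)) * x) := by
    rw [← intervalIntegral.integral_ofReal]
    simp_rw [h1]
    rw [intervalIntegral.integral_finsetSum]
    · apply Finset.sum_congr rfl
      intro z _
      rw [intervalIntegral.integral_const_mul]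
    · intro z _
      apply Continuous.intervalIntegrable
      fun_prop
  have hb : ∀ z ∈ P ×ˢ P, ‖d z.1 * (starRingEnd ℂ) (d z.2) *
        ∫ x in A..B, cexp ((I * ((θ z.1 - θ z.2 : ℝ) : ℂ)) * x)‖ ≤
      (if θ z.1 = θ z.2 then (B - A) * (‖d z.1‖ * ‖d z.2‖) else 0) + 2 / δ * (‖d z.1‖ * ‖d z.2‖) := by
    intro z hz
    rw [Finset.mem_product] at hz
    rw [norm_mul, norm_mul, RCLike.norm_conj]
    split_ifs with h
    · have e1 : ‖∫ x in A..B, cexp ((I * ((θ z.1 - θ z.2 : ℝ) : ℂ)) * x)‖ ≤ B - A := by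
        rw [h, sub_self]
        simp
        rw [← Complex.ofReal_sub, Complex.norm_real, Real.norm_of_nonneg (by linarith)]
      have : 0 ≤ 2 / δ * (‖d z.1‖ * ‖d z.2‖) := by positivity
      calc ‖d z.1‖ * ‖d z.2‖ * _ ≤ ‖d z.1‖ * ‖d z.2‖ * (B - A) := mul_le_mul_of_nonneg_left e1 (by positivity)
        _ ≤ _ := by linarith
    · rw [zero_add]
      have hne : θ z.1 - θ z.2 ≠ 0 := sub_ne_zero.2 h
      have e1 : ‖∫ x in A..B, cexp ((I * ((θ z.1 - θ z.2 : ℝ) : ℂ)) * x)‖ ≤ 2 / δ := by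
        rw [integral_exp_mul_complex (by
          apply mul_ne_zero Complex.I_ne_zero
          exact_mod_cast hne)]
        rw [norm_div, norm_mul, Complex.norm_I, one_mul, Complex.norm_real]
        have e2 : ∀ y : ℝ, ‖cexp (I * ((θ z.1 - θ z.2 : ℝ) : ℂ) * y)‖ = 1 := by
          intro y
          rw [Complex.norm_exp]
          simp
        calc _ ≤ 2 / ‖θ z.1 - θ z.2‖ := by
              apply div_le_div_of_nonneg_right _ (norm_nonneg _)
              refine (norm_sub_le _ _).trans ?_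
              rw [e2, e2]; norm_num
          _ ≤ 2 / δ := by
              apply div_le_div_of_nonneg_left (by norm_num) hδ
              exact hsep _ hz.1 _ hz.2 h
      calc ‖d z.1‖ * ‖d z.2‖ * _ ≤ ‖d z.1‖ * ‖d z.2‖ * (2 / δ) := mul_le_mul_of_nonneg_left e1 (by positivity)
        _ = _ := by ring
  have h3 : ∫ x in A..B, ‖∑ p ∈ P, d p * cexp (I * x * θ p)‖ ^ 2 ≤
      ∑ z ∈ P ×ˢ P, ((if θ z.1 = θ z.2 then (B - A) * (‖d z.1‖ * ‖d z.2‖) else 0) + 2 / δ * (‖d z.1‖ * ‖d z.2‖)) := by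
    calc _ ≤ ‖((∫ x in A..B, ‖∑ p ∈ P, d p * cexp (I * x * θ p)‖ ^ 2 : ℝ) : ℂ)‖ := by
          rw [Complex.norm_real]; exact le_abs_self _
      _ ≤ _ := by
          rw [h2]
          exact (norm_sum_le _ _).trans (Finset.sum_le_sum hb)
  refine h3.trans (le_of_eq ?_)
  rw [Finset.sum_add_distrib]
  congr 1
  · rw [Finset.sum_filter, Finset.mul_sum]
    apply Finset.sum_congr rfl
    intro z _
    split_ifs <;> simp
  · rw [← Finset.mul_sum, sq, Finset.sum_mul_sum, ← Finset.sum_product']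

/-- the Fejer kernel -/
noncomputable def kF (R v : ℝ) : ℂ := ∫ u in (-R)..R, (((1 - |u| / R) / R : ℝ) : ℂ) * cexp (I * u * v)

theorem kF_le (R : ℝ) (hR : 0 < R) (v : ℝ) : ‖kF R v‖ ≤ 2 := by
  unfold kF
  have h := intervalIntegral.norm_integral_le_of_norm_le_const (a := -R) (b := R) (C := 1 / R)
    (f := fun u : ℝ => (((1 - |u| / R) / R : ℝ) : ℂ) * cexp (I * u * v)) (by
      intro u hu
      rw [Set.uIoc_of_le (by linarith)] at hu
      have hu2 : |u| ≤ R := abs_le.2 ⟨by linarith [hu.1], hu.2⟩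
      rw [norm_mul, Complex.norm_real, Complex.norm_exp]
      simp only [Complex.mul_re, Complex.I_re, Complex.I_im, Complex.ofReal_re, Complex.ofReal_im]
      simp
      rw [abs_of_pos hR]
      have e1 : |1 - |u| / R| ≤ 1 := by
        have : |u| / R ≤ 1 := by rw [div_le_one hR]; exact hu2
        have : 0 ≤ |u| / R := by positivity
        rw [abs_of_nonneg (by linarith)]; linarith
      calc |1 - |u| / R| / R ≤ 1 / R := div_le_div_of_nonneg_right e1 hR.le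
        _ = R⁻¹ := one_div R)
  refine h.trans (le_of_eq ?_)
  rw [abs_of_pos (by linarith)]
  field_simp
  ring

theorem kF_half (R : ℝ) (hR : 0 < R) (v : ℝ) (hv : v ≠ 0) :
    ∫ u in (0 : ℝ)..R, (((1 - u / R) / R : ℝ) : ℂ) * cexp (I * u * v) =
      (1 / R ^ 2) * cexp (I * R * v) / (I * v) ^ 2 - (1 / R) / (I * v) - (1 / R ^ 2) / (I * v) ^ 2 := by
  have hv' : (I * (v : ℂ)) ≠ 0 := mul_ne_zero Complex.I_ne_zero (by exact_mod_cast hv)
  have hR' : (R : ℂ) ≠ 0 := by exact_mod_cast hR.ne'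
  have h := intervalIntegral.integral_eq_sub_of_hasDerivAt (a := 0) (b := R)
    (f := fun u : ℝ => (1 - (u : ℂ) / R) / R * (cexp (I * u * v) / (I * v)) + (1 / (R : ℂ) ^ 2) * (cexp (I * u * v) / (I * v) ^ 2))
    (f' := fun u : ℝ => (((1 - u / R) / R : ℝ) : ℂ) * cexp (I * u * v)) (by
      intro u _
      have e1 : HasDerivAt (fun u : ℝ => cexp (I * u * v)) (cexp (I * u * v) * (I * v)) u := by
        have : HasDerivAt (fun u : ℝ => I * (u : ℂ) * v) (I * v) u := by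
          have := ((Complex.ofRealCLM.hasDerivAt (x := u)).const_mul I).mul_const (v : ℂ)
          simpa using this
        exact this.cexp
      have e2 : HasDerivAt (fun u : ℝ => (1 - (u : ℂ) / R) / R) (-(1 / (R : ℂ)) / R) u := by
        have := ((Complex.ofRealCLM.hasDerivAt (x := u)).div_const (R : ℂ)).const_sub (1 : ℂ) |>.div_const (R : ℂ)
        simpa using this
      have e3 := (e2.mul (e1.div_const (I * v))).add ((e1.div_const ((I * (v : ℂ)) ^ 2)).const_mul (1 / (R : ℂ) ^ 2))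
      refine HasDerivAt.congr_deriv e3 ?_
      have hI : I ≠ 0 := Complex.I_ne_zero
      have hvc : (v : ℂ) ≠ 0 := by exact_mod_cast hv
      generalize cexp (I * u * v) = E
      push_cast
      field_simp
      ring) (by
      apply Continuous.intervalIntegrable
      fun_prop)
  rw [h]
  simp only [Complex.ofReal_zero, mul_zero, zero_mul, Complex.exp_zero, zero_div, sub_zero]
  rw [div_self hR']
  simp only [sub_self, zero_div, zero_mul, zero_add]
  ring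

theorem kF_le' (R : ℝ) (hR : 0 < R) (v : ℝ) (hv : v ≠ 0) : ‖kF R v‖ ≤ 4 / (R * v) ^ 2 := by
  have h1 : kF R v = (∫ u in (0 : ℝ)..R, (((1 - u / R) / R : ℝ) : ℂ) * cexp (I * u * v)) +
      ∫ u in (0 : ℝ)..R, (((1 - u / R) / R : ℝ) : ℂ) * cexp (I * u * ((-v : ℝ) : ℂ)) := by
    unfold kF
    have hc : ∀ a b : ℝ, IntervalIntegrable (fun u : ℝ => (((1 - |u| / R) / R : ℝ) : ℂ) * cexp (I * u * v)) volume a b := by
      intro a b
      apply Continuous.intervalIntegrable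
      fun_prop
    rw [← intervalIntegral.integral_add_adjacent_intervals (hc (-R) 0) (hc 0 R), add_comm]
    congr 1
    · apply intervalIntegral.integral_congr
      intro u hu
      rw [Set.uIcc_of_le hR.le] at hu
      dsimp only
      rw [abs_of_nonneg hu.1]
    · have e1 := intervalIntegral.integral_comp_neg (a := 0) (b := R)
        (fun u : ℝ => (((1 - |u| / R) / R : ℝ) : ℂ) * cexp (I * u * v))
      rw [neg_zero] at e1
      rw [← e1]
      apply intervalIntegral.integral_congr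
      intro u hu
      rw [Set.uIcc_of_le hR.le] at hu
      dsimp only
      rw [abs_neg, abs_of_nonneg hu.1]
      push_cast
      congr 2
      ring
  rw [h1, kF_half R hR v hv, kF_half R hR (-v) (neg_ne_zero.2 hv)]
  have hv' : (v : ℂ) ≠ 0 := by exact_mod_cast hv
  have hR' : (R : ℂ) ≠ 0 := by exact_mod_cast hR.ne'
  have h2 : (1 / (R : ℂ) ^ 2) * cexp (I * R * v) / (I * v) ^ 2 - (1 / R) / (I * v) - (1 / R ^ 2) / (I * v) ^ 2 +
      ((1 / (R : ℂ) ^ 2) * cexp (I * R * ((-v : ℝ) : ℂ)) / (I * ((-v : ℝ) : ℂ)) ^ 2 - (1 / R) / (I * ((-v : ℝ) : ℂ)) -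
        (1 / R ^ 2) / (I * ((-v : ℝ) : ℂ)) ^ 2) =
      (2 - cexp (((R * v : ℝ) : ℂ) * I) - cexp (((-(R * v) : ℝ) : ℂ) * I)) / (((R * v) ^ 2 : ℝ) : ℂ) := by
    push_cast
    rw [show I * (R : ℂ) * v = R * v * I by ring, show I * (R : ℂ) * -v = -(R * v) * I by ring]
    have hI : I ^ 2 = -1 := Complex.I_sq
    rw [show (I * (v : ℂ)) ^ 2 = -(v : ℂ) ^ 2 by rw [mul_pow, hI]; ring,
      show (I * -(v : ℂ)) ^ 2 = -(v : ℂ) ^ 2 by rw [mul_pow, hI]; ring]
    field_simp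
    ring
  rw [h2, norm_div, Complex.norm_real, Real.norm_of_nonneg (by positivity)]
  apply div_le_div_of_nonneg_right _ (by positivity)
  calc ‖2 - cexp (((R * v : ℝ) : ℂ) * I) - cexp (((-(R * v) : ℝ) : ℂ) * I)‖ ≤
      ‖(2 : ℂ)‖ + ‖cexp (((R * v : ℝ) : ℂ) * I)‖ + ‖cexp (((-(R * v) : ℝ) : ℂ) * I)‖ :=
        (norm_sub_le _ _).trans (add_le_add (norm_sub_le _ _) le_rfl)
    _ = 4 := by
        rw [Complex.norm_exp_ofReal_mul_I, Complex.norm_exp_ofReal_mul_I]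
        norm_num

theorem kF_neg (R : ℝ) (v : ℝ) : ‖kF R (-v)‖ = ‖kF R v‖ := by
  have h : kF R (-v) = kF R v := by
    unfold kF
    have e1 := intervalIntegral.integral_comp_neg (a := -R) (b := R)
      (fun u : ℝ => (((1 - |u| / R) / R : ℝ) : ℂ) * cexp (I * u * v))
    rw [neg_neg] at e1
    rw [← e1]
    apply intervalIntegral.integral_congr
    intro u _
    dsimp only
    rw [abs_neg]
    push_cast
    congr 2
    ring
  rw [h]

end Pool.Agent.U85.XLP.MB
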