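import Mathlib
import Pool.Agent.U85.XL.Stm
import Pool.Agent.U85.XLP.MBa
import Pool.Agent.U85.XLP.MBb

/-!
# Project XL, package MB (helper480): second moment of the local mean square
-/

set_option autoImplicit false

namespace Pool.Agent.U85.XLP.MB

open MeasureTheory Filter Topology Complex Finset
open Pool.Agent.U85.XL

theorem int_mono (f g : ℝ → ℝ) (a b : ℝ) (hab : a ≤ b) (hf : ∀ x ∈ Set.Ioc a b, 0 ≤ f x)
    (hfg : ∀ x ∈ Set.Ioc a b, f x ≤ g x) (hg : Continuous g) :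
    ∫ x in a..b, f x ≤ ∫ x in a..b, g x := by
  rw [intervalIntegral.integral_of_le hab, intervalIntegral.integral_of_le hab]
  apply integral_mono_of_nonneg
  · exact (ae_restrict_iff' measurableSet_Ioc).2 (ae_of_all _ hf)
  · exact hg.integrableOn_Ioc
  · exact (ae_restrict_iff' measurableSet_Ioc).2 (ae_of_all _ hfg)

noncomputable def VN (κ μ : ℝ) (N : ℕ) (x : ℝ) : ℂ :=
  ∑ m ∈ Finset.Icc 1 N, (w κ μ m : ℂ) * cexp (-(I * x * Real.log m))

noncomputable def Cz : ℝ := ∑' n : ℕ, ((n : ℝ) + 1) ^ (-(3 / 2) : ℝ)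

theorem summable_z : Summable (fun n : ℕ => ((n : ℝ) + 1) ^ (-(3 / 2) : ℝ)) := by
  have h := (summable_nat_add_iff 1).2 (Real.summable_nat_rpow (p := (-(3 / 2) : ℝ)) |>.2 (by norm_num))
  refine h.congr ?_
  intro n
  push_cast
  rfl

theorem Cz_nonneg : 0 ≤ Cz := tsum_nonneg fun n => by positivity

theorem w_le (κ μ : ℝ) (hκ : 0 < κ) (m : ℕ) : w κ μ m ≤ (m : ℝ) ^ (-(3 / 2) : ℝ) := by
  unfold w
  have h1 : Real.exp (-(κ * (μ - Real.log m) ^ 2)) ≤ 1 := by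
    rw [Real.exp_le_one_iff]
    have := mul_nonneg hκ.le (sq_nonneg (μ - Real.log m))
    linarith
  exact mul_le_of_le_one_right (by positivity) h1

theorem sum_range_Icc {M : Type} [AddCommMonoid M] (f : ℕ → M) (N : ℕ) :
    ∑ n ∈ Finset.range N, f (n + 1) = ∑ m ∈ Finset.Icc 1 N, f m := by
  induction N with
  | zero => simp
  | succ N ih => rw [Finset.sum_range_succ, ih, Finset.sum_Icc_succ_top (by omega)]

theorem sum_w (κ μ : ℝ) (hκ : 0 < κ) (N : ℕ) : ∑ m ∈ Finset.Icc 1 N, w κ μ m ≤ Cz := by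
  rw [← sum_range_Icc]
  refine (Finset.sum_le_sum fun n _ => w_le κ μ hκ (n + 1)).trans ?_
  unfold Cz
  have := summable_z.sum_le_tsum (Finset.range N) (fun n _ => by positivity)
  refine le_trans (le_of_eq ?_) this
  apply Finset.sum_congr rfl
  intro n _
  push_cast
  rfl

theorem tail (κ μ D : ℝ) (hκ : 0 < κ) (hD : 0 ≤ D) (N : ℕ) (hN : μ + D ≤ Real.log ((N : ℝ) + 1)) (x : ℝ) :
    ‖V κ μ x - VN κ μ N x‖ ≤ Cz * Real.exp (-(κ * D ^ 2)) := by
  obtain ⟨t, ht⟩ : ∃ t : ℕ → ℂ, t = fun m => (w κ μ m : ℂ) * cexp (-(I * x * Real.log m)) := ⟨_, rfl⟩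
  have hnorm : ∀ m, ‖t m‖ = w κ μ m := by
    intro m
    rw [ht]
    dsimp only
    rw [norm_mul, Complex.norm_real, Real.norm_of_nonneg (w_nonneg κ μ m), Complex.norm_exp]
    generalize Real.log (m : ℝ) = l
    simp
  have hV : V κ μ x = ∑' n : ℕ, t (n + 1) := by
    unfold V
    apply tsum_congr
    intro n
    rw [ht]
    unfold w
    push_cast
    rfl
  have hsum : Summable (fun n : ℕ => t (n + 1)) := by
    apply Summable.of_norm_bounded summable_z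
    intro n
    rw [hnorm]
    refine (w_le κ μ hκ (n + 1)).trans (le_of_eq ?_)
    push_cast
    rfl
  have hVN : VN κ μ N x = ∑ n ∈ Finset.range N, t (n + 1) := by
    rw [sum_range_Icc, ht]
    rfl
  rw [hV, hVN, ← hsum.sum_add_tsum_nat_add N, add_sub_cancel_left]
  have hg : HasSum (fun n : ℕ => ((n : ℝ) + 1) ^ (-(3 / 2) : ℝ) * Real.exp (-(κ * D ^ 2)))
      (Cz * Real.exp (-(κ * D ^ 2))) := summable_z.hasSum.mul_right _
  refine tsum_of_norm_bounded hg ?_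
  intro n
  rw [hnorm]
  unfold w
  push_cast
  apply mul_le_mul _ _ (Real.exp_pos _).le (by positivity)
  · apply Real.rpow_le_rpow_of_nonpos (by positivity) _ (by norm_num)
    have : (0 : ℝ) ≤ N := Nat.cast_nonneg N
    linarith
  · apply Real.exp_le_exp.2
    have h1 : Real.log ((N : ℝ) + 1) ≤ Real.log ((n : ℝ) + N + 1) := by
      apply Real.log_le_log (by positivity)
      have : (0 : ℝ) ≤ n := Nat.cast_nonneg n
      linarith
    have h2 : D ≤ Real.log ((n : ℝ) + N + 1) - μ := by linarith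
    have h3 : D ^ 2 ≤ (μ - Real.log ((n : ℝ) + N + 1)) ^ 2 := by nlinarith
    nlinarith [mul_le_mul_of_nonneg_left h3 hκ.le]

theorem VN_sq (κ μ : ℝ) (N : ℕ) (y : ℝ) : ((‖VN κ μ N y‖ ^ 2 : ℝ) : ℂ) =
    ∑ p ∈ Finset.Icc 1 N ×ˢ Finset.Icc 1 N, ((w κ μ p.1 * w κ μ p.2 : ℝ) : ℂ) *
      cexp (I * y * ((Real.log p.2 - Real.log p.1 : ℝ) : ℂ)) := by
  unfold VN
  rw [Complex.ofReal_pow, ← Complex.mul_conj', map_sum, Finset.sum_mul_sum, ← Finset.sum_product']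
  apply Finset.sum_congr rfl
  intro p _
  rw [map_mul, ← Complex.exp_conj]
  simp only [map_mul, map_neg, Complex.conj_I, Complex.conj_ofReal]
  calc _ = ((w κ μ p.1 : ℂ) * (w κ μ p.2 : ℂ)) *
        (cexp (-(I * y * Real.log p.1)) * cexp (-(-I * y * Real.log p.2))) := by ring
    _ = _ := by
      rw [← Complex.exp_add]
      push_cast
      congr 2
      ring

theorem VN_cont (κ μ : ℝ) (N : ℕ) : Continuous (VN κ μ N) := by
  unfold VN
  fun_prop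

/-- the truncated local mean square -/
noncomputable def FN (κ μ : ℝ) (N : ℕ) (R x : ℝ) : ℝ := ∫ u in (-R)..R, (1 - |u| / R) / R * ‖VN κ μ N (x + u)‖ ^ 2

theorem FN_eq (κ μ : ℝ) (N : ℕ) (R x : ℝ) : ((FN κ μ N R x : ℝ) : ℂ) =
    ∑ p ∈ Finset.Icc 1 N ×ˢ Finset.Icc 1 N,
      (((w κ μ p.1 * w κ μ p.2 : ℝ) : ℂ) * kF R (Real.log p.2 - Real.log p.1)) *
      cexp (I * x * ((Real.log p.2 - Real.log p.1 : ℝ) : ℂ)) := by
  unfold FN kF
  rw [← intervalIntegral.integral_ofReal]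
  have h1 : ∀ u : ℝ, (((1 - |u| / R) / R * ‖VN κ μ N (x + u)‖ ^ 2 : ℝ) : ℂ) =
      ∑ p ∈ Finset.Icc 1 N ×ˢ Finset.Icc 1 N,
        (((w κ μ p.1 * w κ μ p.2 : ℝ) : ℂ) * cexp (I * x * ((Real.log p.2 - Real.log p.1 : ℝ) : ℂ))) *
        ((((1 - |u| / R) / R : ℝ) : ℂ) * cexp (I * u * ((Real.log p.2 - Real.log p.1 : ℝ) : ℂ))) := by
    intro u
    rw [Complex.ofReal_mul, VN_sq, Finset.mul_sum]
    apply Finset.sum_congr rfl
    intro p _
    have : cexp (I * ((x + u : ℝ) : ℂ) * ((Real.log p.2 - Real.log p.1 : ℝ) : ℂ)) =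
        cexp (I * x * ((Real.log p.2 - Real.log p.1 : ℝ) : ℂ)) *
          cexp (I * u * ((Real.log p.2 - Real.log p.1 : ℝ) : ℂ)) := by
      rw [← Complex.exp_add]
      congr 1
      push_cast
      ring
    rw [this]
    ring
  simp_rw [h1]
  rw [intervalIntegral.integral_finsetSum]
  · apply Finset.sum_congr rfl
    intro p _
    rw [intervalIntegral.integral_const_mul]
    ring
  · intro p _
    apply Continuous.intervalIntegrable
    fun_prop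

theorem FL_le (κ μ D : ℝ) (hκ : 0 < κ) (hD : 0 ≤ D) (N : ℕ) (hN : μ + D ≤ Real.log ((N : ℝ) + 1)) (R : ℝ)
    (hR : 0 < R) (x : ℝ) : FL κ μ R x ≤ 2 * FN κ μ N R x + 4 * (Cz * Real.exp (-(κ * D ^ 2))) ^ 2 := by
  obtain ⟨δ, hδ⟩ : ∃ δ : ℝ, δ = Cz * Real.exp (-(κ * D ^ 2)) := ⟨_, rfl⟩
  rw [← hδ]
  have hwt : ∀ u ∈ Set.Ioc (-R) R, 0 ≤ (1 - |u| / R) / R := by
    intro u hu
    have hu2 : |u| ≤ R := abs_le.2 ⟨by linarith [hu.1], hu.2⟩
    have : |u| / R ≤ 1 := by rw [div_le_one hR]; exact hu2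
    apply div_nonneg (by linarith) hR.le
  have hwt2 : ∀ u : ℝ, (1 - |u| / R) / R ≤ 1 / R := by
    intro u
    apply div_le_div_of_nonneg_right _ hR.le
    have : 0 ≤ |u| / R := by positivity
    linarith
  have h1 : FL κ μ R x ≤ ∫ u in (-R)..R, (2 * ((1 - |u| / R) / R * ‖VN κ μ N (x + u)‖ ^ 2) + 2 * δ ^ 2 * (1 / R)) := by
    unfold FL
    apply int_mono _ _ _ _ (by linarith)
    · intro u hu
      exact mul_nonneg (hwt u hu) (by positivity)
    · intro u hu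
      have e1 := tail κ μ D hκ hD N hN (x + u)
      rw [← hδ] at e1
      have e2 : ‖V κ μ (x + u)‖ ≤ ‖VN κ μ N (x + u)‖ + δ := by
        calc ‖V κ μ (x + u)‖ = ‖VN κ μ N (x + u) + (V κ μ (x + u) - VN κ μ N (x + u))‖ := by congr 1; ring
          _ ≤ _ := (norm_add_le _ _).trans (by linarith)
      have e3 : ‖V κ μ (x + u)‖ ^ 2 ≤ 2 * ‖VN κ μ N (x + u)‖ ^ 2 + 2 * δ ^ 2 := by
        have := norm_nonneg (V κ μ (x + u))
        nlinarith [sq_nonneg (‖VN κ μ N (x + u)‖ - δ)]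
      have e4 := hwt u hu
      have e5 := hwt2 u
      have hδ2 : 0 ≤ 2 * δ ^ 2 := by positivity
      calc _ ≤ (1 - |u| / R) / R * (2 * ‖VN κ μ N (x + u)‖ ^ 2 + 2 * δ ^ 2) := mul_le_mul_of_nonneg_left e3 e4
        _ = 2 * ((1 - |u| / R) / R * ‖VN κ μ N (x + u)‖ ^ 2) + 2 * δ ^ 2 * ((1 - |u| / R) / R) := by ring
        _ ≤ _ := by
          have := mul_le_mul_of_nonneg_left e5 hδ2
          linarith
    · have := VN_cont κ μ N
      fun_prop
  refine h1.trans (le_of_eq ?_)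
  rw [intervalIntegral.integral_add, intervalIntegral.integral_const_mul, intervalIntegral.integral_const]
  · unfold FN
    simp only [smul_eq_mul]
    field_simp
    ring
  · apply Continuous.intervalIntegrable
    have := VN_cont κ μ N
    fun_prop
  · apply Continuous.intervalIntegrable
    fun_prop

theorem FL_nonneg (κ μ R x : ℝ) (hR : 0 < R) : 0 ≤ FL κ μ R x := by
  unfold FL
  apply intervalIntegral.integral_nonneg (by linarith)
  intro u hu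
  have hu2 : |u| ≤ R := abs_le.2 ⟨by linarith [hu.1], hu.2⟩
  have : |u| / R ≤ 1 := by rw [div_le_one hR]; exact hu2
  exact mul_nonneg (div_nonneg (by linarith) hR.le) (by positivity)

theorem logsep (A B M : ℕ) (hA : 1 ≤ A) (hB : 1 ≤ B) (hAM : A ≤ M) (hBM : B ≤ M) (hAB : A ≠ B) :
    1 / (M : ℝ) ≤ |Real.log A - Real.log B| := by
  wlog h : A < B generalizing A B
  · rw [abs_sub_comm]
    exact this B A hB hA hBM hAM hAB.symm (by omega)
  have hA0 : (0 : ℝ) < A := by exact_mod_cast hA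
  have hB0 : (0 : ℝ) < B := by exact_mod_cast hB
  have hBM' : (B : ℝ) ≤ M := by exact_mod_cast hBM
  have h1 : (A : ℝ) + 1 ≤ B := by exact_mod_cast h
  have h2 := Real.one_sub_inv_le_log_of_pos (x := (B : ℝ) / A) (by positivity)
  rw [Real.log_div hB0.ne' hA0.ne'] at h2
  have h3 : 1 / (M : ℝ) ≤ 1 - ((B : ℝ) / A)⁻¹ := by
    calc 1 / (M : ℝ) ≤ 1 / B := one_div_le_one_div_of_le hB0 hBM'
      _ ≤ (B - A) / B := by apply div_le_div_of_nonneg_right _ hB0.le; linarith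
      _ = _ := by field_simp
  rw [abs_sub_comm]
  exact (h3.trans h2).trans (le_abs_self _)

theorem main (κ μ D : ℝ) (hκ : 0 < κ) (hD : 0 ≤ D) (N : ℕ) (hN1 : 1 ≤ N) (hN : μ + D ≤ Real.log ((N : ℝ) + 1)) (R : ℝ)
    (hR : 0 < R) (hH : ∑ h ∈ Finset.Icc 1 N, 1 / (h : ℝ) ≤ R) (A B : ℝ) (hAB : A ≤ B) :
    ∫ x in A..B, FL κ μ R x ^ 2 ≤ 8 * ((B - A) * (96 * (4 * Real.exp (9 / (8 * κ)) * Real.exp (-(2 * μ))) ^ 2) +
      2 / (1 / (N : ℝ) ^ 2) * (2 * Cz ^ 2) ^ 2) + 32 * (Cz * Real.exp (-(κ * D ^ 2))) ^ 4 * (B - A) := by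
  classical
  obtain ⟨δ, hδ⟩ : ∃ δ : ℝ, δ = Cz * Real.exp (-(κ * D ^ 2)) := ⟨_, rfl⟩
  obtain ⟨P, hP⟩ : ∃ P : Finset (ℕ × ℕ), P = Finset.Icc 1 N ×ˢ Finset.Icc 1 N := ⟨_, rfl⟩
  obtain ⟨θ, hθ⟩ : ∃ θ : ℕ × ℕ → ℝ, θ = fun p => Real.log p.2 - Real.log p.1 := ⟨_, rfl⟩
  obtain ⟨d, hd⟩ : ∃ d : ℕ × ℕ → ℂ, d = fun p => ((w κ μ p.1 * w κ μ p.2 : ℝ) : ℂ) * kF R (Real.log p.2 - Real.log p.1) :=
    ⟨_, rfl⟩
  have hN0 : (0 : ℝ) < N := by exact_mod_cast hN1
  have hFN : ∀ x : ℝ, FN κ μ N R x ^ 2 = ‖∑ p ∈ P, d p * cexp (I * x * θ p)‖ ^ 2 := by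
    intro x
    have h := FN_eq κ μ N R x
    rw [hP, hd, hθ]
    dsimp only
    rw [← h, Complex.norm_real, Real.norm_eq_abs, sq_abs]
  have h1 : ∫ x in A..B, FL κ μ R x ^ 2 ≤ ∫ x in A..B, (8 * ‖∑ p ∈ P, d p * cexp (I * x * θ p)‖ ^ 2 + 32 * δ ^ 4) := by
    apply int_mono _ _ _ _ hAB
    · intro x _; positivity
    · intro x _
      rw [← hFN]
      have e1 := FL_le κ μ D hκ hD N hN R hR x
      rw [← hδ] at e1
      have e2 := FL_nonneg κ μ R x hR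
      have e3 : FL κ μ R x ^ 2 ≤ (2 * FN κ μ N R x + 4 * δ ^ 2) ^ 2 := pow_le_pow_left₀ e2 e1 2
      nlinarith [sq_nonneg (2 * FN κ μ N R x - 4 * δ ^ 2)]
    · fun_prop
  have hnd : ∀ p : ℕ × ℕ, ‖d p‖ = w κ μ p.1 * w κ μ p.2 * ‖kF R (Real.log p.2 - Real.log p.1)‖ := by
    intro p
    rw [hd]
    dsimp only
    rw [norm_mul, Complex.norm_real, Real.norm_of_nonneg (mul_nonneg (w_nonneg _ _ _) (w_nonneg _ _ _))]
  have hlogs : ∀ p ∈ P, ∀ q ∈ P, θ p - θ q = Real.log ((p.2 * q.1 : ℕ) : ℝ) - Real.log ((q.2 * p.1 : ℕ) : ℝ) := by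
    intro p hp q hq
    rw [hP, Finset.mem_product, Finset.mem_Icc, Finset.mem_Icc] at hp hq
    have a1 : (0 : ℝ) < p.1 := by exact_mod_cast hp.1.1
    have a2 : (0 : ℝ) < p.2 := by exact_mod_cast hp.2.1
    have a3 : (0 : ℝ) < q.1 := by exact_mod_cast hq.1.1
    have a4 : (0 : ℝ) < q.2 := by exact_mod_cast hq.2.1
    rw [hθ]
    push_cast
    rw [Real.log_mul a2.ne' a3.ne', Real.log_mul a4.ne' a1.ne']
    ring
  have hsep : ∀ p ∈ P, ∀ q ∈ P, θ p ≠ θ q → 1 / (N : ℝ) ^ 2 ≤ |θ p - θ q| := by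
    intro p hp q hq hne
    have e1 := hlogs p hp q hq
    have hne2 : p.2 * q.1 ≠ q.2 * p.1 := by
      intro h
      rw [h, sub_self, sub_eq_zero] at e1
      exact hne e1
    rw [e1]
    rw [hP, Finset.mem_product, Finset.mem_Icc, Finset.mem_Icc] at hp hq
    have := logsep (p.2 * q.1) (q.2 * p.1) (N ^ 2) (Nat.mul_pos hp.2.1 hq.1.1) (Nat.mul_pos hq.2.1 hp.1.1)
      (by rw [sq]; exact Nat.mul_le_mul hp.2.2 hq.1.2) (by rw [sq]; exact Nat.mul_le_mul hq.2.2 hp.1.2) hne2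
    push_cast at this ⊢
    exact this
  have h2 := meansq P θ d A B (1 / (N : ℝ) ^ 2) hAB (by positivity) hsep
  have h3 : ∑ z ∈ (P ×ˢ P).filter (fun z => θ z.1 = θ z.2), ‖d z.1‖ * ‖d z.2‖ ≤
      96 * (4 * Real.exp (9 / (8 * κ)) * Real.exp (-(2 * μ))) ^ 2 := by
    have e1 := diag κ μ hκ (fun v => ‖kF R v‖) R hR N hH (fun v => norm_nonneg _) (kF_le R hR) (kF_le' R hR) (kF_neg R)
    refine le_trans ?_ e1
    rw [hP]
    simp only [hnd]
    apply Finset.sum_le_sum_of_subset_of_nonneg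
    · intro z hz
      rw [Finset.mem_filter] at hz ⊢
      refine ⟨hz.1, ?_⟩
      have hz1 := hz.1
      rw [Finset.mem_product] at hz1
      have e2 := hlogs z.1 (by rw [hP]; exact hz1.1) z.2 (by rw [hP]; exact hz1.2)
      rw [hz.2, sub_self] at e2
      obtain ⟨hp, hq⟩ := hz1
      rw [Finset.mem_product, Finset.mem_Icc, Finset.mem_Icc] at hp hq
      have e3 : Real.log ((z.1.2 * z.2.1 : ℕ) : ℝ) = Real.log ((z.2.2 * z.1.1 : ℕ) : ℝ) := by linarith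
      have e4 := Real.log_injOn_pos (x₁ := ((z.1.2 * z.2.1 : ℕ) : ℝ)) (x₂ := ((z.2.2 * z.1.1 : ℕ) : ℝ))
        (by rw [Set.mem_Ioi]; exact_mod_cast Nat.mul_pos hp.2.1 hq.1.1)
        (by rw [Set.mem_Ioi]; exact_mod_cast Nat.mul_pos hq.2.1 hp.1.1) e3
      exact_mod_cast e4
    · intro z _ _
      have := w_nonneg κ μ z.1.1
      have := w_nonneg κ μ z.1.2
      have := w_nonneg κ μ z.2.1
      have := w_nonneg κ μ z.2.2
      positivity
  have h4 : ∑ p ∈ P, ‖d p‖ ≤ 2 * Cz ^ 2 := by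
    calc ∑ p ∈ P, ‖d p‖ ≤ ∑ p ∈ P, 2 * (w κ μ p.1 * w κ μ p.2) := by
          apply Finset.sum_le_sum
          intro p _
          rw [hnd]
          have e1 := kF_le R hR (Real.log p.2 - Real.log p.1)
          have e2 := mul_nonneg (w_nonneg κ μ p.1) (w_nonneg κ μ p.2)
          nlinarith
      _ = 2 * ((∑ m ∈ Finset.Icc 1 N, w κ μ m) * ∑ m ∈ Finset.Icc 1 N, w κ μ m) := by
          rw [← Finset.mul_sum, Finset.sum_mul_sum, ← Finset.sum_product', hP]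
      _ ≤ 2 * (Cz * Cz) := by
          apply mul_le_mul_of_nonneg_left _ (by norm_num)
          have e1 := sum_w κ μ hκ N
          have e2 : 0 ≤ ∑ m ∈ Finset.Icc 1 N, w κ μ m := Finset.sum_nonneg fun m _ => w_nonneg κ μ m
          exact mul_le_mul e1 e1 e2 Cz_nonneg
      _ = _ := by ring
  have h5 : (∑ p ∈ P, ‖d p‖) ^ 2 ≤ (2 * Cz ^ 2) ^ 2 :=
    pow_le_pow_left₀ (Finset.sum_nonneg fun p _ => norm_nonneg _) h4 2
  have h6 : ∫ x in A..B, (8 * ‖∑ p ∈ P, d p * cexp (I * x * θ p)‖ ^ 2 + 32 * δ ^ 4) =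
      8 * (∫ x in A..B, ‖∑ p ∈ P, d p * cexp (I * x * θ p)‖ ^ 2) + 32 * δ ^ 4 * (B - A) := by
    rw [intervalIntegral.integral_add, intervalIntegral.integral_const_mul, intervalIntegral.integral_const]
    · simp only [smul_eq_mul]; ring
    · apply Continuous.intervalIntegrable
      fun_prop
    · apply Continuous.intervalIntegrable
      fun_prop
  rw [← hδ]
  refine h1.trans ?_
  rw [h6]
  have h7 : (B - A) * ∑ z ∈ (P ×ˢ P).filter (fun z => θ z.1 = θ z.2), ‖d z.1‖ * ‖d z.2‖ ≤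
      (B - A) * (96 * (4 * Real.exp (9 / (8 * κ)) * Real.exp (-(2 * μ))) ^ 2) :=
    mul_le_mul_of_nonneg_left h3 (by linarith)
  have h8 : 2 / (1 / (N : ℝ) ^ 2) * (∑ p ∈ P, ‖d p‖) ^ 2 ≤ 2 / (1 / (N : ℝ) ^ 2) * (2 * Cz ^ 2) ^ 2 :=
    mul_le_mul_of_nonneg_left h5 (by positivity)
  linarith

theorem t_MB : S_MB := by
  intro κ b hκ
  refine ⟨192 * (4 * Real.exp (9 / (8 * κ))) ^ 2 + 72 * Cz ^ 4 , Real.exp (2 + 50 * |b| + 75 / κ), by
    have := Cz_nonneg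
    positivity, ?_, ?_⟩
  · have h1 : (2 : ℝ) ≤ 2 + 50 * |b| + 75 / κ := by
      have := abs_nonneg b
      have : 0 < 75 / κ := by positivity
      linarith
    have h2 := Real.add_one_le_exp (2 + 50 * |b| + 75 / κ)
    linarith
  intro X hX
  have hX0 : 0 < X := lt_of_lt_of_le (Real.exp_pos _) hX
  obtain ⟨L, hL⟩ : ∃ L : ℝ, L = Real.log X := ⟨_, rfl⟩
  have hXL : X = Real.exp L := by rw [hL, Real.exp_log hX0]
  have hLb : 2 + 50 * |b| + 75 / κ ≤ L := by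
    rw [hL, Real.le_log_iff_exp_le hX0]; exact hX
  have hab := abs_nonneg b
  have hb1 := le_abs_self b
  have hb2 := neg_abs_le b
  have hκ75 : 0 < 75 / κ := by positivity
  rw [← hL]
  obtain ⟨μ, hμ⟩ : ∃ μ : ℝ, μ = L / 100 + b := ⟨_, rfl⟩
  rw [← hμ]
  obtain ⟨N, hN⟩ : ∃ N : ℕ, N = ⌊Real.exp (L / 20)⌋₊ := ⟨_, rfl⟩
  have hNle : (N : ℝ) ≤ Real.exp (L / 20) := by rw [hN]; exact Nat.floor_le (Real.exp_pos _).le
  have hNgt : Real.exp (L / 20) < (N : ℝ) + 1 := by rw [hN]; exact Nat.lt_floor_add_one _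
  have hN1 : 1 ≤ N := by
    rw [hN]
    apply Nat.le_floor
    push_cast
    exact Real.one_le_exp (by linarith)
  have hN0 : (0 : ℝ) < N := by exact_mod_cast hN1
  have hlog : L / 20 ≤ Real.log ((N : ℝ) + 1) := by
    rw [Real.le_log_iff_exp_le (by positivity)]; exact hNgt.le
  have hD : 0 ≤ L / 20 - μ := by rw [hμ]; linarith
  have hH : ∑ h ∈ Finset.Icc 1 N, 1 / (h : ℝ) ≤ L := by
    have h1 := harmonic_le_one_add_log N
    rw [harmonic_eq_sum_Icc] at h1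
    push_cast at h1
    have h2 : Real.log N ≤ L / 20 := by
      rw [Real.log_le_iff_le_exp hN0]; exact hNle
    simp only [one_div]
    linarith
  have hsq : 0 ≤ Real.sqrt X := Real.sqrt_nonneg X
  have hm := main κ μ (L / 20 - μ) hκ hD N hN1 (by linarith) L (by linarith) hH (X + Real.sqrt X / 4)
    (X + Real.sqrt X / 2) (by linarith)
  refine hm.trans ?_
  have hBA : X + Real.sqrt X / 2 - (X + Real.sqrt X / 4) = Real.sqrt X / 4 := by ring
  rw [hBA]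
  have hsX : Real.sqrt X = Real.exp (L / 2) := by
    rw [Real.sqrt_eq_iff_mul_self_eq_of_pos (Real.exp_pos _), ← Real.exp_add, hXL]
    congr 1; ring
  have e1 : Real.exp (-(2 * μ)) ^ 2 = Real.exp (-(4 * μ)) := by
    rw [← Real.exp_nat_mul]; congr 1; push_cast; ring
  have e2 : (N : ℝ) ^ 2 ≤ Real.sqrt X * Real.exp (-(4 * μ)) := by
    calc (N : ℝ) ^ 2 ≤ Real.exp (L / 20) ^ 2 := pow_le_pow_left₀ hN0.le hNle 2
      _ = Real.exp (L / 10) := by rw [← Real.exp_nat_mul]; congr 1; push_cast; ring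
      _ ≤ Real.exp (L / 2 + -(4 * μ)) := by
          apply Real.exp_le_exp.2
          rw [hμ]; linarith
      _ = _ := by rw [hsX, ← Real.exp_add]
  have e3 : Real.exp (-(κ * (L / 20 - μ) ^ 2)) ^ 4 ≤ Real.exp (-(4 * μ)) := by
    rw [← Real.exp_nat_mul]
    apply Real.exp_le_exp.2
    push_cast
    have f1 : L / 50 ≤ L / 20 - μ := by rw [hμ]; linarith
    have f2 : (L / 50) ^ 2 ≤ (L / 20 - μ) ^ 2 := pow_le_pow_left₀ (by linarith) f1 2
    have f3 : κ * (L / 50) ^ 2 ≤ κ * (L / 20 - μ) ^ 2 := mul_le_mul_of_nonneg_left f2 hκ.le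
    have f4 : 75 ≤ κ * L := by
      have : 75 / κ ≤ L := by linarith
      rw [div_le_iff₀ hκ] at this
      linarith
    have f5 : μ ≤ κ * (L / 50) ^ 2 := by
      have g1 : 3 * L / 100 ≤ κ * (L / 50) ^ 2 := by nlinarith
      have g2 : μ ≤ 3 * L / 100 := by rw [hμ]; linarith
      linarith
    linarith
  have hCz := Cz_nonneg
  have hC4 : 0 ≤ Cz ^ 4 := by positivity
  calc _ = Real.sqrt X * Real.exp (-(2 * μ)) ^ 2 * (192 * (4 * Real.exp (9 / (8 * κ))) ^ 2) +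
        64 * Cz ^ 4 * (N : ℝ) ^ 2 + 8 * Cz ^ 4 * Real.sqrt X * Real.exp (-(κ * (L / 20 - μ) ^ 2)) ^ 4 := by
        field_simp
        ring
    _ ≤ Real.sqrt X * Real.exp (-(4 * μ)) * (192 * (4 * Real.exp (9 / (8 * κ))) ^ 2) +
        64 * Cz ^ 4 * (Real.sqrt X * Real.exp (-(4 * μ))) + 8 * Cz ^ 4 * Real.sqrt X * Real.exp (-(4 * μ)) := by
        rw [e1]
        have g1 := mul_le_mul_of_nonneg_left e2 (by positivity : 0 ≤ 64 * Cz ^ 4)
        have g2 := mul_le_mul_of_nonneg_left e3 (by positivity : 0 ≤ 8 * Cz ^ 4 * Real.sqrt X)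
        linarith
    _ = _ := by ring

end Pool.Agent.U85.XLP.MB
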