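import Pool.Agent.U85.XL.Stm

/-!
# Package POT of project XL: potential theory

A large value at `z₁` next to a region where the function has modulus close to one forces many zeros: divide
by the polynomial of the zeros, take the logarithm of the quotient, apply the Borel-Caratheodory theorem and the
three lines theorem.
-/

set_option autoImplicit false

namespace Pool.Agent.U85.XLP.POT

open Pool.Agent.U85.XL
open Filter Topology Complex Metric

theorem core (q r ρ K c : ℝ) (hρ : 0 < ρ) (hρq : ρ < q) (hqr : q < r) (h2 : 2 * ρ < r) (hK : 0 < K)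
    (hc : 0 < c) : ∃ ε : ℝ, 0 < ε ∧ ∀ (e : ℂ → ℂ) (M : ℝ), 0 < M →
      DifferentiableOn ℂ e (ball 0 r) → (∀ w ∈ ball (0 : ℂ) r, e w ≠ 0) →
      (∀ w ∈ ball (0 : ℂ) r, ‖e w‖ ≤ Real.exp (K * M)) →
      (∀ w ∈ ball (0 : ℂ) (2 * ρ), Real.exp (-(ε * M)) ≤ ‖e w‖ ∧ ‖e w‖ ≤ Real.exp (ε * M)) →
      ∀ w : ℂ, ‖w‖ ≤ q → ‖e w‖ < Real.exp (c * M) := by
  set s : ℝ := (q + r) / 2 with hs
  have hqs : q < s := by rw [hs]; linarith
  have hsr : s < r := by rw [hs]; linarith
  have hq0 : 0 < q := hρ.trans hρq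
  have hs0 : 0 < s := hq0.trans hqs
  have hr0 : 0 < r := hs0.trans hsr
  have hl1 : Real.log ρ < Real.log q := Real.log_lt_log hρ hρq
  have hl2 : Real.log q < Real.log s := Real.log_lt_log hq0 hqs
  set θ : ℝ := (Real.log q - Real.log ρ) / (Real.log s - Real.log ρ) with hθ
  have hθ0 : 0 < θ := div_pos (by linarith) (by linarith)
  have hθ1 : θ < 1 := (div_lt_one (by linarith)).2 (by linarith)
  set B : ℝ := 2 * (K + 1) * s / (r - s) with hB
  have hB0 : 0 < B := div_pos (by positivity) (by linarith)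
  obtain ⟨ε, hε0, hε1, hεc⟩ : ∃ ε : ℝ, 0 < ε ∧ ε < 1 ∧ ε + (4 * ε) ^ (1 - θ) * B ^ θ < c := by
    have h1 : ContinuousAt (fun ε : ℝ => ε + (4 * ε) ^ (1 - θ) * B ^ θ) 0 := by
      refine continuousAt_id.add (ContinuousAt.mul ?_ continuousAt_const)
      exact ContinuousAt.rpow_const (continuousAt_const.mul continuousAt_id)
        (Or.inr (by linarith))
    have h2 : (fun ε : ℝ => ε + (4 * ε) ^ (1 - θ) * B ^ θ) 0 < c := by
      simp only [mul_zero, zero_add]
      rw [Real.zero_rpow (by linarith), zero_mul]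
      exact hc
    have h3 : ∀ᶠ ε in 𝓝 (0 : ℝ), ε + (4 * ε) ^ (1 - θ) * B ^ θ < c := h1.eventually_lt_const h2
    have h4 : ∀ᶠ ε in 𝓝[>] (0 : ℝ), ε + (4 * ε) ^ (1 - θ) * B ^ θ < c :=
      h3.filter_mono nhdsWithin_le_nhds
    have h5 : ∀ᶠ ε in 𝓝[>] (0 : ℝ), ε ∈ Set.Ioo (0 : ℝ) 1 := Ioo_mem_nhdsGT one_pos
    obtain ⟨ε, h6, h7⟩ := (h4.and h5).exists
    exact ⟨ε, h7.1, h7.2, h6⟩
  refine ⟨ε, hε0, ?_⟩
  intro e M hM hde hne hub hin w hw
  have h0r : (0 : ℂ) ∈ ball (0 : ℂ) r := mem_ball_self hr0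
  have h0ρ : (0 : ℂ) ∈ ball (0 : ℂ) (2 * ρ) := mem_ball_self (by linarith)
  -- logarithm
  have hdl : DifferentiableOn ℂ (fun z => deriv e z / e z) (ball 0 r) :=
    (hde.deriv isOpen_ball).div hde hne
  obtain ⟨H, hH0, hH⟩ := hdl.isExactOn_ball.with_val_at 0 (0 : ℂ)
  have hdH : DifferentiableOn ℂ H (ball 0 r) := fun z hz =>
    (hH z hz).differentiableAt.differentiableWithinAt
  have hconst : ∀ z ∈ ball (0 : ℂ) r, e z = e 0 * cexp (H z) := by
    intro z hz
    have h1 : ∀ x ∈ ball (0 : ℂ) r, HasDerivAt (fun z => e z * cexp (-H z)) 0 x := by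
      intro x hx
      have hx1 : HasDerivAt e (deriv e x) x :=
        ((hde x hx).differentiableAt (isOpen_ball.mem_nhds hx)).hasDerivAt
      have h3 := hx1.mul (hH x hx).neg.cexp
      have h4 : deriv e x * cexp (-H x) + e x * (cexp (-H x) * -(deriv e x / e x)) = 0 := by
        have := hne x hx
        field_simp
        ring
      have h5 : HasDerivAt (fun z => e z * cexp (-H z))
          (deriv e x * cexp (-H x) + e x * (cexp (-H x) * -(deriv e x / e x))) x := h3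
      rw [h4] at h5
      exact h5
    have h2 : e z * cexp (-H z) = e 0 * cexp (-H 0) := by
      refine isOpen_ball.is_const_of_deriv_eq_zero (𝕜 := ℂ) (f := fun z => e z * cexp (-H z))
        (convex_ball (0 : ℂ) r).isPreconnected (fun x hx => (h1 x hx).differentiableAt.differentiableWithinAt)
        (fun x hx => (h1 x hx).deriv) hz h0r
    rw [hH0, neg_zero, Complex.exp_zero, mul_one] at h2
    rw [← h2, mul_assoc, ← Complex.exp_add, neg_add_cancel, Complex.exp_zero, mul_one]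
  have hnorm : ∀ z ∈ ball (0 : ℂ) r, ‖e z‖ = ‖e 0‖ * Real.exp (H z).re := by
    intro z hz
    conv_lhs => rw [hconst z hz]
    rw [norm_mul, Complex.norm_exp]
  have he0 := hin 0 h0ρ
  have hre1 : ∀ z ∈ ball (0 : ℂ) r, (H z).re ≤ (K + 1) * M := by
    intro z hz
    have h1 := hnorm z hz
    have h2 := hub z hz
    rw [h1] at h2
    have h3 : Real.exp (-(ε * M)) * Real.exp (H z).re ≤ Real.exp (K * M) :=
      (mul_le_mul_of_nonneg_right he0.1 (Real.exp_pos _).le).trans h2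
    rw [← Real.exp_add, Real.exp_le_exp] at h3
    nlinarith
  have hre2 : ∀ z ∈ ball (0 : ℂ) (2 * ρ), (H z).re ≤ 2 * ε * M := by
    intro z hz
    have hz' : z ∈ ball (0 : ℂ) r := ball_subset_ball h2.le hz
    have h1 := hnorm z hz'
    have h2 := (hin z hz).2
    rw [h1] at h2
    have h3 : Real.exp (-(ε * M)) * Real.exp (H z).re ≤ Real.exp (ε * M) :=
      (mul_le_mul_of_nonneg_right he0.1 (Real.exp_pos _).le).trans h2
    rw [← Real.exp_add, Real.exp_le_exp] at h3
    linarith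
  have hb1 : ∀ z : ℂ, ‖z‖ ≤ s → ‖H z‖ ≤ B * M := by
    intro z hz
    have hz' : z ∈ ball (0 : ℂ) r := by rw [mem_ball_zero_iff]; linarith
    have h1 := Complex.borelCaratheodory_zero (M := (K + 1) * M) (by positivity) hdH
      (fun x hx => hre1 x hx) hr0 hz' hH0
    refine h1.trans ?_
    rw [hB]
    have h2 : 2 * ((K + 1) * M) * ‖z‖ / (r - ‖z‖) ≤ 2 * ((K + 1) * M) * s / (r - s) := by
      apply div_le_div₀ (by positivity) _ (by linarith) (by linarith)
      exact mul_le_mul_of_nonneg_left hz (by positivity)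
    refine h2.trans (le_of_eq ?_)
    ring
  have hb2 : ∀ z : ℂ, ‖z‖ ≤ ρ → ‖H z‖ ≤ 4 * ε * M := by
    intro z hz
    have hz' : z ∈ ball (0 : ℂ) (2 * ρ) := by rw [mem_ball_zero_iff]; linarith
    have h1 := Complex.borelCaratheodory_zero (M := 2 * ε * M) (by positivity)
      (hdH.mono (ball_subset_ball h2.le))
      (fun x hx => hre2 x hx) (by linarith) hz' hH0
    refine h1.trans ?_
    rw [div_le_iff₀ (by linarith)]
    have h3 : 0 ≤ ε * M := by positivity
    nlinarith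
  -- three lines
  have hb3 : ∀ z : ℂ, ‖z‖ = q → ‖H z‖ ≤ M * ((4 * ε) ^ (1 - θ) * B ^ θ) := by
    intro z hz
    have hz0 : z ≠ 0 := by
      intro h
      rw [h, norm_zero] at hz
      linarith
    have hmem : ∀ ζ : ℂ, ζ.re ≤ Real.log s → ‖cexp ζ‖ ≤ s := by
      intro ζ hζ
      rw [Complex.norm_exp, ← Real.exp_log hs0]
      exact Real.exp_le_exp.2 hζ
    have hdg : ∀ ζ : ℂ, ζ.re ≤ Real.log s → DifferentiableAt ℂ (fun ζ => H (cexp ζ)) ζ := by
      intro ζ hζ
      have h3 : cexp ζ ∈ ball (0 : ℂ) r := by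
        rw [mem_ball_zero_iff]; exact (hmem ζ hζ).trans_lt hsr
      exact ((hH _ h3).differentiableAt).comp ζ Complex.differentiable_exp.differentiableAt
    have hcl : closure (HadamardThreeLines.verticalStrip (Real.log ρ) (Real.log s)) ⊆
        {ζ : ℂ | ζ.re ≤ Real.log s} := by
      refine closure_minimal (fun ζ hζ => ?_) (isClosed_le Complex.continuous_re continuous_const)
      exact (hζ : ζ.re ∈ Set.Ioo _ _).2.le
    have h4 := HadamardThreeLines.norm_le_interp_of_mem_verticalClosedStrip' (l := Real.log ρ)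
      (u := Real.log s) (f := fun ζ => H (cexp ζ)) (z := Complex.log z) (a := 4 * ε * M) (b := B * M)
      (by linarith) (by
        show (Complex.log z).re ∈ Set.Icc _ _
        rw [Complex.log_re, hz]
        exact ⟨hl1.le, hl2.le⟩)
      (DifferentiableOn.diffContOnCl fun ζ hζ => (hdg ζ (hcl hζ)).differentiableWithinAt)
      ⟨B * M, by
        rintro _ ⟨ζ, hζ, rfl⟩
        exact hb1 _ (hmem ζ (hζ : ζ.re ∈ Set.Icc _ _).2)⟩
      (fun ζ hζ => hb2 _ (by
        rw [Complex.norm_exp, (hζ : ζ.re = Real.log ρ), Real.exp_log hρ]))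
      (fun ζ hζ => hb1 _ (hmem ζ (le_of_eq (hζ : ζ.re = Real.log s))))
    simp only [Complex.exp_log hz0, Complex.log_re, hz] at h4
    rw [← hθ, Real.mul_rpow (by positivity) hM.le, Real.mul_rpow hB0.le hM.le] at h4
    refine h4.trans (le_of_eq ?_)
    have h5 : M ^ (1 - θ) * M ^ θ = M := by
      rw [← Real.rpow_add hM, sub_add_cancel, Real.rpow_one]
    calc (4 * ε) ^ (1 - θ) * M ^ (1 - θ) * (B ^ θ * M ^ θ)
        = (M ^ (1 - θ) * M ^ θ) * ((4 * ε) ^ (1 - θ) * B ^ θ) := by ring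
      _ = _ := by rw [h5]
  have hb4 : ‖H w‖ ≤ M * ((4 * ε) ^ (1 - θ) * B ^ θ) := by
    refine Complex.norm_le_of_forall_mem_frontier_norm_le (U := ball (0 : ℂ) q) isBounded_ball
      ?_ ?_ ?_
    · refine DifferentiableOn.diffContOnCl ?_
      refine hdH.mono ((closure_ball_subset_closedBall).trans ?_)
      exact closedBall_subset_ball hqr
    · intro z hz
      rw [frontier_ball _ hq0.ne', mem_sphere_zero_iff_norm] at hz
      exact hb3 z hz
    · rw [closure_ball _ hq0.ne', mem_closedBall_zero_iff]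
      exact hw
  have hwr : w ∈ ball (0 : ℂ) r := by rw [mem_ball_zero_iff]; linarith
  rw [hnorm w hwr]
  calc ‖e 0‖ * Real.exp (H w).re ≤ Real.exp (ε * M) * Real.exp (M * ((4 * ε) ^ (1 - θ) * B ^ θ)) :=
        mul_le_mul he0.2 (Real.exp_le_exp.2 ((Complex.re_le_norm _).trans hb4)) (Real.exp_pos _).le
          (Real.exp_pos _).le
    _ = Real.exp ((ε + (4 * ε) ^ (1 - θ) * B ^ θ) * M) := by rw [← Real.exp_add]; congr 1; ring
    _ < Real.exp (c * M) := Real.exp_lt_exp.2 (mul_lt_mul_of_pos_right hεc hM)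

theorem fac (F : ℂ → ℂ) (hF : Differentiable ℂ F) (hne : ∀ z, analyticOrderAt F z ≠ ⊤)
    (Z : Finset ℂ) : ∃ E : ℂ → ℂ, Differentiable ℂ E ∧
      (∀ z, F z = (∏ ρ ∈ Z, (z - ρ) ^ analyticOrderNatAt F ρ) * E z) ∧ ∀ ρ ∈ Z, E ρ ≠ 0 := by
  classical
  induction Z using Finset.induction_on with
  | empty => exact ⟨F, hF, fun z => by simp, fun ρ h => absurd h (Finset.notMem_empty ρ)⟩
  | insert a Z ha ih =>
    obtain ⟨E, hE, hfac, hEne⟩ := ih
    set P : ℂ → ℂ := fun z => ∏ ρ ∈ Z, (z - ρ) ^ analyticOrderNatAt F ρ with hP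
    have hPd : Differentiable ℂ P := by
      rw [hP]
      fun_prop
    have hPa : P a ≠ 0 := by
      rw [hP]
      refine Finset.prod_ne_zero_iff.2 fun ρ hρ => pow_ne_zero _ (sub_ne_zero.2 ?_)
      rintro rfl
      exact ha hρ
    set n := analyticOrderNatAt F a with hn
    obtain ⟨g, hg, hga, hgF⟩ := (hF.analyticAt a).analyticOrderAt_ne_top.1 (hne a)
    have hFa : F a = (a - a) ^ n * g a := by
      have := hgF.self_of_nhds
      simpa [smul_eq_mul] using this
    refine ⟨fun z => if z = a then g a / P a else E z / (z - a) ^ n, ?_, ?_, ?_⟩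
    · intro z
      by_cases hz : z = a
      · subst hz
        have h1 : (fun w => if w = z then g z / P z else E w / (w - z) ^ n) =ᶠ[𝓝 z]
            fun w => g w / P w := by
          have h2 : ∀ᶠ w in 𝓝 z, P w ≠ 0 := hPd.continuous.continuousAt.eventually_ne hPa
          filter_upwards [hgF, h2] with w hw1 hw2
          by_cases hwz : w = z
          · rw [if_pos hwz, hwz]
          · rw [if_neg hwz]
            have h3 : (w - z) ^ n ≠ 0 := pow_ne_zero _ (sub_ne_zero.2 hwz)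
            rw [div_eq_div_iff h3 hw2]
            have h4 : F w = P w * E w := hfac w
            rw [h4, smul_eq_mul] at hw1
            rw [mul_comm (E w), hw1, mul_comm]
        exact (hg.differentiableAt.div (hPd z) hPa).congr_of_eventuallyEq h1
      · have h1 : (fun w => if w = a then g a / P a else E w / (w - a) ^ n) =ᶠ[𝓝 z]
            fun w => E w / (w - a) ^ n := by
          filter_upwards [isOpen_ne.mem_nhds hz] with w hw
          exact if_neg hw
        refine DifferentiableAt.congr_of_eventuallyEq ?_ h1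
        exact (hE z).div (by fun_prop) (pow_ne_zero _ (sub_ne_zero.2 hz))
    · intro z
      rw [Finset.prod_insert ha]
      by_cases hz : z = a
      · subst hz
        beta_reduce
        rw [if_pos rfl, hFa]
        change (z - z) ^ n * g z = (z - z) ^ n * P z * (g z / P z)
        field_simp
      · beta_reduce
        rw [if_neg hz, hfac z]
        have h3 : (z - a) ^ n ≠ 0 := pow_ne_zero _ (sub_ne_zero.2 hz)
        change P z * E z = (z - a) ^ n * P z * (E z / (z - a) ^ n)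
        field_simp
    · intro ρ hρ
      rcases Finset.mem_insert.1 hρ with h | h
      · subst h
        simp only [if_true]
        exact div_ne_zero hga hPa
      · have h1 : ρ ≠ a := by
          rintro rfl
          exact ha h
        simp only [if_neg h1]
        exact div_ne_zero (hEne ρ h) (pow_ne_zero _ (sub_ne_zero.2 h1))

theorem prod_low {Z : Finset ℂ} {n : ℂ → ℕ} {x : ℂ → ℂ} {a : ℝ} (ha : 0 ≤ a)
    (h : ∀ ρ ∈ Z, a ≤ ‖x ρ‖) : a ^ (∑ ρ ∈ Z, n ρ) ≤ ‖∏ ρ ∈ Z, x ρ ^ n ρ‖ := by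
  rw [← Finset.prod_pow_eq_pow_sum, norm_prod]
  refine Finset.prod_le_prod (fun ρ _ => pow_nonneg ha _) fun ρ hρ => ?_
  rw [norm_pow]
  exact pow_le_pow_left₀ ha (h ρ hρ) _

theorem prod_up {Z : Finset ℂ} {n : ℂ → ℕ} {x : ℂ → ℂ} {b : ℝ}
    (h : ∀ ρ ∈ Z, ‖x ρ‖ ≤ b) : ‖∏ ρ ∈ Z, x ρ ^ n ρ‖ ≤ b ^ (∑ ρ ∈ Z, n ρ) := by
  rw [← Finset.prod_pow_eq_pow_sum, norm_prod]
  refine Finset.prod_le_prod (fun ρ _ => norm_nonneg _) fun ρ hρ => ?_
  rw [norm_pow]
  exact pow_le_pow_left₀ (norm_nonneg _) (h ρ hρ) _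

theorem t_POT : S_POT := by
  classical
  intro K c q₀ η hK hc hq0 hq1 hη0 hη1
  set q : ℝ := max q₀ (1 / 2) with hq
  have hqq : q₀ ≤ q := le_max_left _ _
  have hq2 : 1 / 2 ≤ q := le_max_right _ _
  have hq3 : q < 1 := max_lt hq1 (by norm_num)
  set r : ℝ := (1 + q) / 2 with hr
  have hqr : q < r := by rw [hr]; linarith
  have hr1 : r < 1 := by rw [hr]; linarith
  have hr0 : 0 < r := by linarith
  obtain ⟨ε₀, hε₀, hcore⟩ := core q r (η / 4) (K + 1) (c / 2) (by linarith) (by linarith) hqr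
    (by linarith) (by linarith) (by linarith)
  set a : ℝ := min (1 - r) (η / 2) with ha
  have ha0 : 0 < a := lt_min (by linarith) (by linarith)
  have ha1 : a ≤ 1 - r := min_le_left _ _
  have ha2 : a ≤ η / 2 := min_le_right _ _
  have ha3 : a < 1 / 2 := by linarith
  set L : ℝ := -Real.log a with hL
  have hL0 : 0 < L := by
    rw [hL, Left.neg_pos_iff]
    exact Real.log_neg ha0 (by linarith)
  set δ : ℝ := min (ε₀ / 2) (min 1 (c / 4)) with hδ
  have hδ0 : 0 < δ := lt_min (by linarith) (lt_min one_pos (by linarith))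
  have hδ1 : δ ≤ ε₀ / 2 := min_le_left _ _
  have hδ2 : δ ≤ 1 := (min_le_right _ _).trans (min_le_left _ _)
  have hδ3 : δ ≤ c / 4 := (min_le_right _ _).trans (min_le_right _ _)
  refine ⟨ε₀ / 2, δ / L, by linarith, div_pos hδ0 hL0, ?_⟩
  intro F c₀ z₁ R M hF hR hM hz₁ hup hin hbig
  by_contra hcon
  have hcon' : ∀ Z : Finset ℂ, (∀ z ∈ Z, F z = 0 ∧ ‖z - c₀‖ ≤ R) →
      ∑ z ∈ Z, (analyticOrderNatAt F z : ℝ) < δ / L * M := by
    intro Z hZ
    by_contra h
    exact hcon ⟨Z, hZ, not_lt.1 h⟩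
  have hM0 : 0 < M := by linarith
  have hne : ∀ z, analyticOrderAt F z ≠ ⊤ := by
    intro z hz
    rw [analyticOrderAt_eq_top] at hz
    have h1 : F = fun _ => 0 :=
      AnalyticOnNhd.eq_of_eventuallyEq (fun x _ => hF.analyticAt x) (fun x _ => analyticAt_const) hz
    have h2 := (hin c₀ (by rw [sub_self, norm_zero]; positivity)).1
    rw [h1, norm_zero] at h2
    exact absurd h2 (not_le.2 (Real.exp_pos _))
  have hone : ∀ z, F z = 0 → (1 : ℝ) ≤ analyticOrderNatAt F z := by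
    intro z hz
    have h1 : analyticOrderNatAt F z ≠ 0 := by
      intro h
      have h2 : analyticOrderAt F z = 0 := by
        rcases (ENat.toNat_eq_zero).1 h with h3 | h3
        · exact h3
        · exact absurd h3 (hne z)
      exact ((hF.analyticAt z).analyticOrderAt_eq_zero.1 h2) hz
    exact_mod_cast Nat.one_le_iff_ne_zero.2 h1
  have hfin : {z : ℂ | F z = 0 ∧ ‖z - c₀‖ ≤ R}.Finite := by
    by_contra hinf
    obtain ⟨T, hT1, hT2⟩ := Set.Infinite.exists_subset_card_eq hinf ⌈δ / L * M⌉₊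
    have h1 := hcon' T fun z hz => hT1 hz
    have h2 : (T.card : ℝ) ≤ ∑ z ∈ T, (analyticOrderNatAt F z : ℝ) := by
      calc (T.card : ℝ) = ∑ z ∈ T, (1 : ℝ) := by simp
        _ ≤ _ := Finset.sum_le_sum fun z hz => hone z (hT1 hz).1
    have h3 : δ / L * M ≤ T.card := by
      rw [hT2]
      exact Nat.le_ceil _
    linarith
  have hfin2 : {z : ℂ | F z = 0 ∧ ‖z - c₀‖ ≤ r * R}.Finite :=
    hfin.subset fun z hz => ⟨hz.1, hz.2.trans (by nlinarith)⟩
  set Z := hfin2.toFinset with hZ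
  have hZmem : ∀ z, z ∈ Z ↔ F z = 0 ∧ ‖z - c₀‖ ≤ r * R := by
    intro z
    rw [hZ, Set.Finite.mem_toFinset]
    rfl
  have hN := hcon' Z fun z hz => ⟨((hZmem z).1 hz).1, ((hZmem z).1 hz).2.trans (by nlinarith)⟩
  obtain ⟨E, hEd, hfac, hEne⟩ := fac F hF hne Z
  have hEne' : ∀ z, ‖z - c₀‖ ≤ r * R → E z ≠ 0 := by
    intro z hz
    by_cases hz2 : z ∈ Z
    · exact hEne z hz2
    · intro h0
      apply hz2
      rw [hZmem]
      refine ⟨?_, hz⟩
      rw [hfac z, h0, mul_zero]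
  set p : ℂ → ℂ := fun w => ∏ ρ ∈ Z, (w - (ρ - c₀) / R) ^ analyticOrderNatAt F ρ with hp
  set e : ℂ → ℂ := fun w => E (c₀ + R * w) * ∏ ρ ∈ Z, (R : ℂ) ^ analyticOrderNatAt F ρ with he
  have hRc : (R : ℂ) ≠ 0 := by exact_mod_cast hR.ne'
  have hpe : ∀ w, F (c₀ + R * w) = p w * e w := by
    intro w
    rw [hfac, hp, he]
    have h1 : ∏ ρ ∈ Z, (c₀ + R * w - ρ) ^ analyticOrderNatAt F ρ =
        (∏ ρ ∈ Z, (w - (ρ - c₀) / R) ^ analyticOrderNatAt F ρ) *
          ∏ ρ ∈ Z, (R : ℂ) ^ analyticOrderNatAt F ρ := by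
      rw [← Finset.prod_mul_distrib]
      refine Finset.prod_congr rfl fun ρ _ => ?_
      rw [← mul_pow]
      congr 1
      field_simp
      ring
    rw [h1]
    ring
  have hed : Differentiable ℂ e := by
    rw [he]
    exact (hEd.comp (by fun_prop)).mul_const _
  have hnormR : ∀ w : ℂ, ‖c₀ + R * w - c₀‖ = R * ‖w‖ := by
    intro w
    rw [add_sub_cancel_left, norm_mul, Complex.norm_real, Real.norm_eq_abs, abs_of_pos hR]
  have hene : ∀ w : ℂ, ‖w‖ ≤ r → e w ≠ 0 := by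
    intro w hw
    rw [he]
    refine mul_ne_zero (hEne' _ ?_) (Finset.prod_ne_zero_iff.2 fun ρ _ => pow_ne_zero _ hRc)
    rw [hnormR, mul_comm]
    exact mul_le_mul_of_nonneg_right hw hR.le
  have hσ1 : ∀ ρ ∈ Z, ‖(ρ - c₀) / (R : ℂ)‖ ≤ r := by
    intro ρ hρ
    rw [norm_div, Complex.norm_real, Real.norm_eq_abs, abs_of_pos hR, div_le_iff₀ hR]
    exact ((hZmem ρ).1 hρ).2
  have hσ2 : ∀ ρ ∈ Z, η ≤ ‖(ρ - c₀) / (R : ℂ)‖ := by
    intro ρ hρ
    rw [norm_div, Complex.norm_real, Real.norm_eq_abs, abs_of_pos hR, le_div_iff₀ hR]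
    by_contra h
    have h1 := (hin ρ (not_le.1 h).le).1
    rw [((hZmem ρ).1 hρ).1, norm_zero] at h1
    exact absurd h1 (not_le.2 (Real.exp_pos _))
  set N : ℕ := ∑ ρ ∈ Z, analyticOrderNatAt F ρ with hNdef
  have hN' : (N : ℝ) < δ / L * M := by
    rw [hNdef]
    push_cast
    exact hN
  have hLN : L * N ≤ δ * M := by
    have h1 : L * N ≤ L * (δ / L * M) := mul_le_mul_of_nonneg_left hN'.le hL0.le
    have h2 : L * (δ / L * M) = δ * M := by field_simp
    linarith
  have haN : Real.exp (-(δ * M)) ≤ a ^ N := by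
    rw [← Real.exp_log ha0, ← Real.exp_nat_mul]
    refine Real.exp_le_exp.2 ?_
    have : Real.log a = -L := by rw [hL, neg_neg]
    rw [this]
    nlinarith
  have hbN : (2 : ℝ) ^ N ≤ Real.exp (δ * M) := by
    have h1 : (2 : ℝ) ≤ a⁻¹ := by
      rw [le_inv_comm₀ two_pos ha0]
      linarith
    calc (2 : ℝ) ^ N ≤ (a⁻¹) ^ N := pow_le_pow_left₀ (by norm_num) h1 _
      _ = Real.exp (L * N) := by
          rw [hL, neg_mul, Real.exp_neg, mul_comm, Real.exp_nat_mul, Real.exp_log ha0, inv_pow]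
      _ ≤ _ := Real.exp_le_exp.2 hLN
  have hpup : ∀ w : ℂ, ‖w‖ ≤ 1 → ‖p w‖ ≤ Real.exp (δ * M) := by
    intro w hw
    refine le_trans (prod_up fun ρ hρ => ?_) hbN
    refine (norm_sub_le _ _).trans ?_
    have := hσ1 ρ hρ
    linarith
  have hplow1 : ∀ w : ℂ, ‖w‖ = 1 → Real.exp (-(δ * M)) ≤ ‖p w‖ := by
    intro w hw
    refine le_trans haN (prod_low ha0.le fun ρ hρ => ?_)
    have h1 := norm_sub_norm_le w ((ρ - c₀) / (R : ℂ))
    have h2 := hσ1 ρ hρ
    linarith
  have hplow2 : ∀ w : ℂ, ‖w‖ ≤ η / 2 → Real.exp (-(δ * M)) ≤ ‖p w‖ := by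
    intro w hw
    refine le_trans haN (prod_low ha0.le fun ρ hρ => ?_)
    have h1 := norm_sub_norm_le ((ρ - c₀) / (R : ℂ)) w
    rw [norm_sub_rev] at h1
    have h2 := hσ2 ρ hρ
    linarith
  have hmul : ∀ w, ‖F (c₀ + R * w)‖ = ‖p w‖ * ‖e w‖ := by
    intro w
    rw [hpe w, norm_mul]
  have hediv : ∀ (w : ℂ) (A : ℝ), Real.exp (-(δ * M)) ≤ ‖p w‖ → ‖F (c₀ + R * w)‖ ≤ Real.exp A →
      ‖e w‖ ≤ Real.exp (A + δ * M) := by
    intro w A h1 h2
    rw [hmul w] at h2
    have h3 : Real.exp (-(δ * M)) * ‖e w‖ ≤ Real.exp A :=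
      (mul_le_mul_of_nonneg_right h1 (norm_nonneg _)).trans h2
    calc ‖e w‖ = Real.exp (δ * M) * (Real.exp (-(δ * M)) * ‖e w‖) := by
          rw [← mul_assoc, ← Real.exp_add, add_neg_cancel, Real.exp_zero, one_mul]
      _ ≤ Real.exp (δ * M) * Real.exp A := mul_le_mul_of_nonneg_left h3 (Real.exp_pos _).le
      _ = _ := by rw [← Real.exp_add, add_comm]
  have hediv2 : ∀ (w : ℂ) (A : ℝ), ‖p w‖ ≤ Real.exp (δ * M) → Real.exp A ≤ ‖F (c₀ + R * w)‖ →
      Real.exp (A - δ * M) ≤ ‖e w‖ := by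
    intro w A h1 h2
    rw [hmul w] at h2
    have h3 : Real.exp A ≤ Real.exp (δ * M) * ‖e w‖ :=
      h2.trans (mul_le_mul_of_nonneg_right h1 (norm_nonneg _))
    calc Real.exp (A - δ * M) = Real.exp (-(δ * M)) * Real.exp A := by
          rw [← Real.exp_add]; congr 1; ring
      _ ≤ Real.exp (-(δ * M)) * (Real.exp (δ * M) * ‖e w‖) :=
          mul_le_mul_of_nonneg_left h3 (Real.exp_pos _).le
      _ = ‖e w‖ := by rw [← mul_assoc, ← Real.exp_add, neg_add_cancel, Real.exp_zero, one_mul]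
  have hsph : ∀ w : ℂ, ‖w‖ = 1 → ‖e w‖ ≤ Real.exp ((K + 1) * M) := by
    intro w hw
    refine (hediv w (K * M) (hplow1 w hw) (hup _ ?_)).trans (Real.exp_le_exp.2 ?_)
    · rw [hnormR, hw, mul_one]
    · nlinarith
  have hball : ∀ w : ℂ, ‖w‖ ≤ 1 → ‖e w‖ ≤ Real.exp ((K + 1) * M) := by
    intro w hw
    refine Complex.norm_le_of_forall_mem_frontier_norm_le (U := ball (0 : ℂ) 1) isBounded_ball
      hed.diffContOnCl ?_ ?_
    · intro z hz
      rw [frontier_ball _ one_ne_zero, mem_sphere_zero_iff_norm] at hz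
      exact hsph z hz
    · rw [closure_ball _ one_ne_zero, mem_closedBall_zero_iff]
      exact hw
  have hδM : δ * M ≤ ε₀ / 2 * M := mul_le_mul_of_nonneg_right hδ1 hM0.le
  have hδM2 : δ * M ≤ 1 * M := mul_le_mul_of_nonneg_right hδ2 hM0.le
  have hδM3 : δ * M ≤ c / 4 * M := mul_le_mul_of_nonneg_right hδ3 hM0.le
  have hcM : 0 < c * M := mul_pos hc hM0
  have hmain := hcore e M hM0 hed.differentiableOn
    (fun w hw => hene w (by rw [mem_ball_zero_iff] at hw; exact hw.le))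
    (fun w hw => hball w (by rw [mem_ball_zero_iff] at hw; linarith))
    (fun w hw => by
      rw [mem_ball_zero_iff] at hw
      have hw2 : ‖w‖ ≤ η / 2 := by linarith
      have h1 := hin (c₀ + R * w) (by
        rw [hnormR, mul_comm]
        exact mul_le_mul_of_nonneg_right (by linarith) hR.le)
      constructor
      · refine le_trans (Real.exp_le_exp.2 ?_)
          (hediv2 w (-(ε₀ / 2 * M)) (hpup w (by linarith)) h1.1)
        linarith
      · refine le_trans (hediv w (ε₀ / 2 * M) (hplow2 w hw2) h1.2) (Real.exp_le_exp.2 ?_)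
        linarith)
    ((z₁ - c₀) / R) (by
      rw [norm_div, Complex.norm_real, Real.norm_eq_abs, abs_of_pos hR, div_le_iff₀ hR]
      exact hz₁.trans (mul_le_mul_of_nonneg_right hqq hR.le))
  have hz : c₀ + R * ((z₁ - c₀) / R) = z₁ := by
    field_simp
    ring
  have hfinal := hediv2 ((z₁ - c₀) / R) (c * M) (hpup _ (by
      rw [norm_div, Complex.norm_real, Real.norm_eq_abs, abs_of_pos hR, div_le_iff₀ hR]
      rw [one_mul]
      exact hz₁.trans (mul_le_of_le_one_left hR.le hq1.le))) (by rw [hz]; exact hbig)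
  have h9 := hfinal.trans_lt hmain
  rw [Real.exp_lt_exp] at h9
  linarith

end Pool.Agent.U85.XLP.POT
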