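import Mathlib
import Pool.Agent.U85.XL.Stm

set_option autoImplicit false

/-!
Project XL (helper85), package REP (helper356): representation by a Gaussian mean on a vertical line.
-/

namespace Pool.Agent.U85.XLP.REP

open MeasureTheory Filter Topology Complex
open Pool.Agent.U85.XL

noncomputable section

/-- the Gaussian integral -/
lemma gauss {κ : ℝ} (hκ : 0 < κ) (a t : ℝ) :
    ∫ u : ℝ, cexp (-(u : ℂ) ^ 2 / (4 * κ) - I * u * a / (2 * κ)) * cexp (I * u * t) =
      ((Real.sqrt (4 * Real.pi * κ) : ℝ) : ℂ) *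
        ((Real.exp (-(κ * (t - a / (2 * κ)) ^ 2)) : ℝ) : ℂ) := by
  have hκ' : (κ : ℂ) ≠ 0 := Complex.ofReal_ne_zero.2 hκ.ne'
  have hb : (0 : ℝ) < ((1 / (4 * κ) : ℝ) : ℂ).re := by
    rw [Complex.ofReal_re]
    positivity
  have h := fourierIntegral_gaussian hb ((t - a / (2 * κ) : ℝ) : ℂ)
  have e1 : ∀ u : ℝ, cexp (-(u : ℂ) ^ 2 / (4 * κ) - I * u * a / (2 * κ)) * cexp (I * u * t) =
      cexp (I * ((t - a / (2 * κ) : ℝ) : ℂ) * u) *
        cexp (-((1 / (4 * κ) : ℝ) : ℂ) * (u : ℂ) ^ 2) := by
    intro u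
    rw [← Complex.exp_add, ← Complex.exp_add]
    congr 1
    push_cast
    field_simp
    ring
  simp_rw [e1]
  rw [h]
  congr 1
  · have e2 : (Real.pi : ℂ) / ((1 / (4 * κ) : ℝ) : ℂ) = ((4 * Real.pi * κ : ℝ) : ℂ) := by
      push_cast
      field_simp
    rw [e2, Real.sqrt_eq_rpow, Complex.ofReal_cpow (by positivity)]
    norm_num
  · rw [Complex.ofReal_exp]
    congr 1
    push_cast
    field_simp

theorem t_REP : S_X0 → S_REP := by
  rintro ⟨hint, hpos, hxi⟩ κ hκ x y a
  have hκ' : (κ : ℂ) ≠ 0 := Complex.ofReal_ne_zero.2 hκ.ne'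
  obtain ⟨A, hA⟩ : ∃ A : ℝ → ℂ, A = fun t : ℝ => (Phi t : ℂ) * cexp ((I * x + (y - a)) * t) :=
    ⟨_, rfl⟩
  obtain ⟨B, hB⟩ : ∃ B : ℝ → ℂ, B = fun u : ℝ =>
    cexp (-(u : ℂ) ^ 2 / (4 * κ) - I * u * a / (2 * κ)) := ⟨_, rfl⟩
  have hPhi : AEStronglyMeasurable (fun t : ℝ => Phi t) volume := by
    have h := (hint 0).aestronglyMeasurable
    refine h.congr (Eventually.of_forall fun t => ?_)
    simp [abs_of_pos (hpos t)]
  have hAint : Integrable A := by
    refine (hint |y - a|).mono ?_ (Eventually.of_forall fun t => ?_)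
    · rw [hA]
      refine (Complex.continuous_ofReal.comp_aestronglyMeasurable hPhi).mul ?_
      exact (by fun_prop : Continuous fun t : ℝ => cexp ((I * x + (y - a)) * t)).aestronglyMeasurable
    · rw [hA]
      simp only [norm_mul, Complex.norm_real, Complex.norm_exp, Real.norm_eq_abs, abs_abs]
      rw [Real.abs_exp]
      refine mul_le_mul_of_nonneg_left (Real.exp_le_exp.2 ?_) (abs_nonneg _)
      have e : ((I * x + (y - a)) * t : ℂ).re = (y - a) * t := by
        simp
      rw [e]
      calc (y - a) * t ≤ |(y - a) * t| := le_abs_self _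
        _ = |y - a| * |t| := abs_mul _ _
  have hBint : Integrable B := by
    have h := integrable_cexp_quadratic' (b := ((-(1 / (4 * κ)) : ℝ) : ℂ)) (by
      rw [Complex.ofReal_re]
      have : (0 : ℝ) < 1 / (4 * κ) := by positivity
      linarith) (-(I * a / (2 * κ))) 0
    rw [hB]
    refine h.congr (Eventually.of_forall fun u => ?_)
    simp only
    congr 1
    push_cast
    field_simp
    ring
  -- Fubini
  have hprod : Integrable (Function.uncurry fun u t : ℝ => B u * A t * cexp (I * u * t))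
      (volume.prod volume) := by
    have h := hBint.mul_prod hAint
    refine h.mono ?_ (Eventually.of_forall fun z => ?_)
    · refine h.aestronglyMeasurable.mul ?_
      exact (by fun_prop : Continuous fun z : ℝ × ℝ => cexp (I * z.1 * z.2)).aestronglyMeasurable
    · obtain ⟨u, t⟩ := z
      simp only [Function.uncurry]
      rw [norm_mul _ (cexp _), Complex.norm_exp]
      have e : (I * u * t : ℂ).re = 0 := by simp
      rw [e, Real.exp_zero, mul_one]
  have hswap := integral_integral_swap hprod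
  -- the inner integrals
  have hL : ∀ u : ℝ, xi (1 / 2 + (y - a) + I * (x + u)) *
      cexp (-(u : ℂ) ^ 2 / (4 * κ) - I * u * a / (2 * κ)) =
        ∫ t : ℝ, B u * A t * cexp (I * u * t) := by
    intro u
    have h1 := hxi (x + u - I * (y - a))
    have e1 : (1 / 2 + I * (x + u - I * (y - a)) : ℂ) = 1 / 2 + (y - a) + I * (x + u) := by
      linear_combination -(y - a : ℂ) * I_sq
    rw [e1] at h1
    rw [← h1]
    unfold Xi
    rw [mul_comm, ← integral_const_mul]
    refine integral_congr_ae (Eventually.of_forall fun t => ?_)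
    simp only
    rw [hA, hB]
    simp only
    rw [zero_mul, Real.exp_zero, mul_one]
    have e5 : cexp (I * (x + u - I * (y - a)) * t) =
        cexp ((I * x + (y - a)) * t) * cexp (I * u * t) := by
      rw [← Complex.exp_add]
      congr 1
      linear_combination -(y - a : ℂ) * t * I_sq
    rw [e5]
    ring
  have hR : ∀ t : ℝ, ∫ u : ℝ, B u * A t * cexp (I * u * t) =
      A t * (((Real.sqrt (4 * Real.pi * κ) : ℝ) : ℂ) *
        ((Real.exp (-(κ * (t - a / (2 * κ)) ^ 2)) : ℝ) : ℂ)) := by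
    intro t
    rw [← gauss hκ a t, ← integral_const_mul]
    refine integral_congr_ae (Eventually.of_forall fun u => ?_)
    simp only
    rw [hB]
    ring
  simp_rw [hL]
  rw [hswap]
  simp_rw [hR]
  rw [← integral_const_mul]
  unfold Xi
  refine integral_congr_ae (Eventually.of_forall fun t => ?_)
  simp only
  rw [hA]
  simp only
  have hs : ((Real.sqrt (4 * Real.pi * κ) : ℝ) : ℂ) ≠ 0 :=
    Complex.ofReal_ne_zero.2 (Real.sqrt_ne_zero'.2 (by positivity))
  have e3 : (((Phi t * Real.exp (-κ * t ^ 2)) : ℝ) : ℂ) * cexp (I * (x - I * y) * t) =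
      (Phi t : ℂ) * cexp ((a : ℂ) ^ 2 / (4 * κ) + (I * x + (y - a)) * t +
        -(κ * (t - a / (2 * κ)) ^ 2)) := by
    push_cast
    rw [mul_assoc, ← Complex.exp_add]
    congr 2
    have e4 : (κ : ℂ) * (t - a / (2 * κ)) ^ 2 = κ * t ^ 2 - a * t + (a : ℂ) ^ 2 / (4 * κ) := by
      field_simp
      ring
    rw [e4]
    linear_combination (-(y : ℂ) * t) * I_sq
  rw [e3, Complex.exp_add, Complex.exp_add]
  push_cast
  field_simp

end

end Pool.Agent.U85.XLP.REP
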