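import Pool.Agent.U85.XL.Stm

set_option autoImplicit false

/-!
Project XL (helper85), package UP: upper bound for the deformed Xi function.
-/

namespace Pool.Agent.U85.XLP.UP

open Pool.Agent.U85.XL
open MeasureTheory Filter Topology Complex

noncomputable section

/-- xi is gg times zeta -/
lemma xi_eq (v : ℂ) (h0 : 1 < v.re) : xi v = gg v * riemannZeta v := by
  have hv0 : v ≠ 0 := by
    intro h
    rw [h] at h0
    norm_num at h0
  have hv1 : v ≠ 1 := by
    intro h
    rw [h] at h0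
    norm_num at h0
  have hG : Gammaℝ v ≠ 0 := Gammaℝ_ne_zero_of_re_pos (by linarith)
  have h1 : 1 - v ≠ 0 := sub_ne_zero.mpr (Ne.symm hv1)
  unfold xi gg
  rw [riemannZeta_def_of_ne_zero hv0, completedRiemannZeta_eq]
  field_simp
  ring

/-- zeta is bounded on the line of real part three halves -/
lemma zeta_bd : ∃ Z : ℝ, 1 ≤ Z ∧ ∀ s : ℂ, s.re = 3 / 2 → ‖riemannZeta s‖ ≤ Z := by
  refine ⟨max 1 (∑' n : ℕ, 1 / ((n : ℝ) + 1) ^ (3 / 2 : ℝ)), le_max_left _ _, ?_⟩
  intro s hs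
  refine le_trans ?_ (le_max_right _ _)
  rw [zeta_eq_tsum_one_div_nat_add_one_cpow (by rw [hs]; norm_num)]
  have hn : ∀ n : ℕ, ‖(1 : ℂ) / ((n : ℂ) + 1) ^ s‖ = 1 / ((n : ℝ) + 1) ^ (3 / 2 : ℝ) := by
    intro n
    have hp : (0 : ℝ) < (n : ℝ) + 1 := by positivity
    have he : ((n : ℂ) + 1) = (((n : ℝ) + 1 : ℝ) : ℂ) := by push_cast; rfl
    rw [norm_div, norm_one, he, norm_cpow_eq_rpow_re_of_pos hp, hs]
  have hsum : Summable (fun n : ℕ => 1 / ((n : ℝ) + 1) ^ (3 / 2 : ℝ)) := by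
    have h := (summable_nat_add_iff 1).mpr (Real.summable_one_div_nat_rpow.mpr (by norm_num : (1 : ℝ) < 3 / 2))
    simpa using h
  have hsn : Summable (fun n : ℕ => ‖(1 : ℂ) / ((n : ℂ) + 1) ^ s‖) := by
    simp_rw [hn]
    exact hsum
  refine le_trans (norm_tsum_le_tsum_norm hsn) ?_
  simp_rw [hn]
  exact le_refl _

/-- crude lower bound for gg -/
lemma gg_low (hGR : S_GR) : ∃ K x₀ : ℝ, 1 ≤ K ∧ 3 ≤ x₀ ∧ ∀ x : ℝ, x₀ ≤ x →
    Real.exp (-(K * x)) ≤ ‖gg (3 / 2 + I * x)‖ := by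
  obtain ⟨C, x₀, hC, hx₀, H⟩ := hGR 2 (by norm_num)
  have hlog : ∀ x : ℝ, x₀ ≤ x → (3 / 2 : ℝ) ≤ 2 * Real.log x := by
    intro x hx
    have h1 : (1 : ℝ) ≤ Real.log x := by
      rw [Real.le_log_iff_exp_le (by linarith)]
      have := Real.exp_one_lt_d9
      linarith
    linarith
  have H1 : ∀ x : ℝ, x₀ ≤ x → ∀ u : ℝ, |u| ≤ x / 2 → 0 < ‖gg (3 / 2 + I * x)‖ ∧
      ‖gg (3 / 2 + I * x)‖ * Real.exp (-|u| - C * Real.log x) ≤ ‖gg (3 / 2 + I * ((x + u : ℝ) : ℂ))‖ := by
    intro x hx u hu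
    have h := (H x hx (3 / 2) (3 / 2) (by norm_num) (hlog x hx) (by norm_num) (hlog x hx)).1
    have h0 := (h 0 (by rw [abs_zero]; linarith)).1
    have h2 := (h u hu).2.2
    push_cast at h0 h2 ⊢
    constructor
    · rw [norm_pos_iff]
      simpa using h0
    · have he : ((3 / 2 - 3 / 2 : ℝ)) / 2 * Real.log x - |u| - C * Real.log x = -|u| - C * Real.log x := by ring
      rw [he] at h2
      exact h2
  have hg0 := (H1 x₀ le_rfl 0 (by rw [abs_zero]; linarith)).1
  set m : ℝ := ‖gg (3 / 2 + I * x₀)‖ with hm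
  set K : ℝ := 1 + 3 * C + |Real.log m| + x₀ / 2 + C * Real.log x₀ with hK
  have hl0 : 1 ≤ Real.log x₀ := by
    rw [Real.le_log_iff_exp_le (by linarith)]
    have := Real.exp_one_lt_d9
    linarith
  have hCl : 0 ≤ C * Real.log x₀ := by positivity
  have hK1 : 1 + 3 * C ≤ K := by
    rw [hK]
    have := abs_nonneg (Real.log m)
    linarith
  have hK2 : |Real.log m| + x₀ / 2 + C * Real.log x₀ ≤ K := by
    rw [hK]
    linarith
  have hKp : 0 ≤ K := by linarith
  refine ⟨K, x₀, by linarith, hx₀, ?_⟩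
  have key : ∀ n : ℕ, ∀ x : ℝ, x₀ ≤ x → x ≤ x₀ * (3 / 2) ^ (n + 1) →
      Real.exp (-(K * x)) ≤ ‖gg (3 / 2 + I * x)‖ := by
    intro n
    induction n with
    | zero =>
      intro x hx hx2
      have h := (H1 x₀ le_rfl (x - x₀) (by
        rw [abs_of_nonneg (by linarith)]
        norm_num at hx2
        linarith)).2
      have he : x₀ + (x - x₀) = x := by ring
      rw [he] at h
      refine le_trans ?_ h
      rw [← hm]
      have hme : m = Real.exp (Real.log m) := (Real.exp_log hg0).symm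
      rw [hme, ← Real.exp_add]
      apply Real.exp_le_exp.mpr
      have h3 : |x - x₀| ≤ x₀ / 2 := by
        rw [abs_of_nonneg (by linarith)]
        norm_num at hx2
        linarith
      have h4 := neg_abs_le (Real.log m)
      have h5 : K * 1 ≤ K * x := mul_le_mul_of_nonneg_left (by linarith) hKp
      linarith
    | succ n ih =>
      intro x hx hx2
      by_cases hc : x ≤ x₀ * (3 / 2) ^ (n + 1)
      · exact ih x hx hc
      · push Not at hc
        have h1 : x₀ ≤ 2 / 3 * x := by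
          have h2 : x₀ * (3 / 2) ≤ x₀ * (3 / 2) ^ (n + 1) := by
            apply mul_le_mul_of_nonneg_left _ (by linarith)
            calc (3 / 2 : ℝ) = (3 / 2) ^ 1 := by norm_num
              _ ≤ (3 / 2) ^ (n + 1) := pow_le_pow_right₀ (by norm_num) (by omega)
          linarith
        have h2 : 2 / 3 * x ≤ x₀ * (3 / 2) ^ (n + 1) := by
          have : x₀ * (3 / 2 : ℝ) ^ (n + 1 + 1) = x₀ * (3 / 2) ^ (n + 1) * (3 / 2) := by rw [pow_succ]; ring
          rw [this] at hx2
          linarith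
        have h3 := ih (2 / 3 * x) h1 h2
        have h4 := (H1 (2 / 3 * x) h1 (1 / 3 * x) (by
          rw [abs_of_nonneg (by linarith)]
          linarith)).2
        have he : 2 / 3 * x + 1 / 3 * x = x := by ring
        rw [he] at h4
        refine le_trans ?_ h4
        refine le_trans ?_ (mul_le_mul_of_nonneg_right h3 (Real.exp_pos _).le)
        rw [← Real.exp_add]
        apply Real.exp_le_exp.mpr
        rw [abs_of_nonneg (by linarith : (0 : ℝ) ≤ 1 / 3 * x)]
        have h5 : Real.log (2 / 3 * x) ≤ x := by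
          have := Real.log_le_sub_one_of_pos (by linarith : (0 : ℝ) < 2 / 3 * x)
          linarith
        have h6 : C * Real.log (2 / 3 * x) ≤ C * x := mul_le_mul_of_nonneg_left h5 (by linarith)
        have h7 : (1 + 3 * C) * x ≤ K * x := mul_le_mul_of_nonneg_right hK1 (by linarith)
        nlinarith [h6, h7]
  intro x hx
  obtain ⟨n, hn⟩ := pow_unbounded_of_one_lt (x / x₀) (by norm_num : (1 : ℝ) < 3 / 2)
  apply key n x hx
  rw [div_lt_iff₀ (by linarith)] at hn
  have h8 : (3 / 2 : ℝ) ^ n ≤ (3 / 2) ^ (n + 1) := pow_le_pow_right₀ (by norm_num) (by omega)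
  have h9 := mul_le_mul_of_nonneg_left h8 (by linarith : (0 : ℝ) ≤ x₀)
  linarith

/-- pointwise bound for xi on the line of real part three halves -/
lemma xi_bd (hCR : S_CR) (hGR : S_GR) (κ : ℝ) (hκ : 0 < κ) : ∃ D x₁ : ℝ, 1 ≤ D ∧ 3 ≤ x₁ ∧
    ∀ x : ℝ, x₁ ≤ x → ∀ u : ℝ, ‖xi (3 / 2 + I * (x + u))‖ ≤
      ‖gg (3 / 2 + I * x)‖ * Real.exp (D * Real.log x) * Real.exp (u ^ 2 / (8 * κ)) := by
  obtain ⟨Z, hZ1, hZ⟩ := zeta_bd
  obtain ⟨K, x₀, hK, hx₀, hlow⟩ := gg_low hGR
  obtain ⟨C, x₂, hC, hx₂, H⟩ := hGR 2 (by norm_num)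
  obtain ⟨A, hA, hcr⟩ := hCR
  have hlogmono : ∀ x : ℝ, 3 ≤ x → 1 ≤ Real.log x := by
    intro x hx
    rw [Real.le_log_iff_exp_le (by linarith)]
    have := Real.exp_one_lt_d9
    linarith
  set W : ℝ := max 4 ((8 * κ * (16 * A + 2 * K)) ^ 2) with hW
  have hlZ : 0 ≤ Real.log Z := Real.log_nonneg hZ1
  refine ⟨Real.log Z + 2 * κ + C, max (max x₀ x₂) (2 * W), by linarith, le_trans hx₀ (le_trans (le_max_left _ _) (le_max_left _ _)), ?_⟩
  intro x hx u
  have hxa : x₀ ≤ x := le_trans (le_trans (le_max_left _ _) (le_max_left _ _)) hx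
  have hxb : x₂ ≤ x := le_trans (le_trans (le_max_right _ _) (le_max_left _ _)) hx
  have hxW : 2 * W ≤ x := le_trans (le_max_right _ _) hx
  have hx3 : 3 ≤ x := le_trans hx₀ hxa
  have hl1 := hlogmono x hx3
  have hre : ((3 / 2 : ℂ) + I * ((x : ℂ) + (u : ℂ))).re = 3 / 2 := by
    simp
  have hDl : Real.log Z + 2 * κ + C * Real.log x ≤ (Real.log Z + 2 * κ + C) * Real.log x := by
    nlinarith [hlZ, hκ, hl1]
  by_cases hu : |u| ≤ x / 2
  · have h := ((H x hxb (3 / 2) (3 / 2) (by norm_num) (by linarith) (by norm_num) (by linarith)).1 u hu).2.1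
    have he : ((3 / 2 - 3 / 2 : ℝ)) / 2 * Real.log x + |u| + C * Real.log x = |u| + C * Real.log x := by ring
    rw [he] at h
    push_cast at h
    rw [xi_eq _ (by rw [hre]; norm_num), norm_mul]
    have hz := hZ _ hre
    have hu2 : |u| ≤ 2 * κ + u ^ 2 / (8 * κ) := by
      have h1 : 0 ≤ (|u| - 4 * κ) ^ 2 / (8 * κ) := by positivity
      have h2 : (|u| - 4 * κ) ^ 2 / (8 * κ) = 2 * κ + u ^ 2 / (8 * κ) - |u| := by
        have : u ^ 2 = |u| ^ 2 := (sq_abs u).symm
        rw [this]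
        field_simp
        ring
      linarith
    calc ‖gg (3 / 2 + I * ((x : ℂ) + (u : ℂ)))‖ * ‖riemannZeta (3 / 2 + I * ((x : ℂ) + (u : ℂ)))‖
        ≤ (‖gg (3 / 2 + I * x)‖ * Real.exp (|u| + C * Real.log x)) * Z :=
          mul_le_mul h hz (norm_nonneg _) (by positivity)
      _ = ‖gg (3 / 2 + I * x)‖ * (Real.exp (|u| + C * Real.log x) * Real.exp (Real.log Z)) := by
          rw [Real.exp_log (by linarith)]
          ring
      _ ≤ ‖gg (3 / 2 + I * x)‖ * (Real.exp ((Real.log Z + 2 * κ + C) * Real.log x) * Real.exp (u ^ 2 / (8 * κ))) := by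
          apply mul_le_mul_of_nonneg_left _ (norm_nonneg _)
          rw [← Real.exp_add, ← Real.exp_add]
          apply Real.exp_le_exp.mpr
          linarith
      _ = _ := by ring
  · push Not at hu
    set w : ℝ := |u| with hw
    have hwW : W ≤ w := by linarith
    have hw4 : 4 ≤ w := le_trans (le_max_left _ _) hwW
    have hwS : (8 * κ * (16 * A + 2 * K)) ^ 2 ≤ w := le_trans (le_max_right _ _) hwW
    have hnv : ‖(3 / 2 : ℂ) + I * ((x : ℂ) + (u : ℂ))‖ ≤ 3 / 2 + 3 * w := by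
      refine le_trans (norm_add_le _ _) ?_
      rw [norm_mul, norm_I, one_mul]
      have h1 : ‖(x : ℂ) + (u : ℂ)‖ ≤ x + w := by
        refine le_trans (norm_add_le _ _) ?_
        rw [norm_real, norm_real, Real.norm_eq_abs, Real.norm_eq_abs, abs_of_nonneg (by linarith : (0 : ℝ) ≤ x)]
      have h2 : ‖(3 / 2 : ℂ)‖ = 3 / 2 := by
        norm_num
      rw [h2]
      linarith
    have h1 := hcr _ (by rw [hre]; norm_num : 1 ≤ ((3 / 2 : ℂ) + I * ((x : ℂ) + (u : ℂ))).re)
    set N : ℝ := ‖(3 / 2 : ℂ) + I * ((x : ℂ) + (u : ℂ))‖ with hN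
    have hN0 : 0 ≤ N := norm_nonneg _
    have hsw : 0 < Real.sqrt w := Real.sqrt_pos.mpr (by linarith)
    have hsq : Real.sqrt w * Real.sqrt w = w := Real.mul_self_sqrt (by linarith)
    have hlogN : Real.log (2 + N) ≤ 4 * Real.sqrt w := by
      have h2 : Real.log (2 + N) ≤ Real.log (4 * w) := Real.log_le_log (by linarith) (by linarith)
      have h3 : Real.log (4 * w) = 2 * Real.log (2 * Real.sqrt w) := by
        have : 4 * w = (2 * Real.sqrt w) ^ 2 := by
          rw [mul_pow, pow_two (Real.sqrt w), hsq]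
          norm_num
        rw [this, Real.log_pow]
        norm_num
      have h4 := Real.log_le_sub_one_of_pos (by positivity : (0 : ℝ) < 2 * Real.sqrt w)
      rw [h3] at h2
      linarith
    have hprod : A * (1 + N) * Real.log (2 + N) ≤ A * (4 * w) * (4 * Real.sqrt w) := by
      apply mul_le_mul _ hlogN (Real.log_nonneg (by linarith)) (by positivity)
      apply mul_le_mul_of_nonneg_left _ (by linarith)
      linarith
    have hfin : A * (4 * w) * (4 * Real.sqrt w) ≤ -(K * x) + u ^ 2 / (8 * κ) := by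
      have hu2 : u ^ 2 = w ^ 2 := (sq_abs u).symm
      rw [hu2]
      have h5 : 8 * κ * (16 * A + 2 * K) ≤ Real.sqrt w := Real.le_sqrt_of_sq_le hwS
      have h6 : w * Real.sqrt w * (8 * κ * (16 * A + 2 * K)) ≤ w * Real.sqrt w * Real.sqrt w :=
        mul_le_mul_of_nonneg_left h5 (by positivity)
      have h7 : w * Real.sqrt w * Real.sqrt w = w ^ 2 := by
        rw [mul_assoc, hsq]
        ring
      rw [h7] at h6
      have h8 : w * Real.sqrt w * (16 * A + 2 * K) ≤ w ^ 2 / (8 * κ) := by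
        rw [le_div_iff₀ (by positivity)]
        linarith
      have h9 : K * x ≤ 2 * K * (w * Real.sqrt w) := by
        have h10 : (1 : ℝ) ≤ Real.sqrt w := by
          rw [show (1 : ℝ) = Real.sqrt 1 by simp]
          exact Real.sqrt_le_sqrt (by linarith)
        have h11 : w * 1 ≤ w * Real.sqrt w := mul_le_mul_of_nonneg_left h10 (by linarith)
        have h12 : K * x ≤ K * (2 * w) := mul_le_mul_of_nonneg_left (by linarith) (by linarith)
        have h13 : K * (2 * w) ≤ K * (2 * (w * Real.sqrt w)) := mul_le_mul_of_nonneg_left (by linarith) (by linarith)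
        linarith
      nlinarith [h8, h9]
    have hl := hlow x hxa
    have hDp : 0 ≤ (Real.log Z + 2 * κ + C) * Real.log x := by
      apply mul_nonneg <;> linarith
    calc ‖xi (3 / 2 + I * ((x : ℂ) + (u : ℂ)))‖ ≤ Real.exp (A * (1 + N) * Real.log (2 + N)) := h1
      _ ≤ Real.exp (-(K * x) + u ^ 2 / (8 * κ)) := Real.exp_le_exp.mpr (le_trans hprod hfin)
      _ = Real.exp (-(K * x)) * 1 * Real.exp (u ^ 2 / (8 * κ)) := by
          rw [Real.exp_add]
          ring
      _ ≤ ‖gg (3 / 2 + I * x)‖ * Real.exp ((Real.log Z + 2 * κ + C) * Real.log x) * Real.exp (u ^ 2 / (8 * κ)) := by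
          apply mul_le_mul_of_nonneg_right _ (Real.exp_pos _).le
          apply mul_le_mul hl _ (by norm_num) (norm_nonneg _)
          rw [show (1 : ℝ) = Real.exp 0 by simp]
          exact Real.exp_le_exp.mpr hDp

theorem t_UP : S_REP -> S_CR -> S_GR -> S_UP := by
  intro hREP hCR hGR κ B hκ hB
  obtain ⟨D, x₁, hD, hx₁, hxi⟩ := xi_bd hCR hGR κ hκ
  refine ⟨(B * κ + 1) ^ 2 / (4 * κ) + 2 * D + 1, 2 * x₁, ?_, by linarith, ?_⟩
  · have : 0 ≤ (B * κ + 1) ^ 2 / (4 * κ) := by positivity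
    linarith
  intro X hX x hxl hxr y hy
  have hX3 : 3 ≤ X := by linarith
  have hl1 : 1 ≤ Real.log X := by
    rw [Real.le_log_iff_exp_le (by linarith)]
    have := Real.exp_one_lt_d9
    linarith
  have hx : x₁ ≤ x := by linarith
  have hxp : 0 < x := by linarith
  have hrep := hREP κ hκ x y (y - 1)
  rw [hrep, norm_mul, norm_real, Real.norm_eq_abs,
    abs_of_nonneg (by positivity : (0 : ℝ) ≤ Real.exp ((y - 1) ^ 2 / (4 * κ)) / Real.sqrt (4 * Real.pi * κ))]
  set G : ℝ := ‖gg (3 / 2 + I * x)‖ with hG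
  have hG0 : 0 ≤ G := norm_nonneg _
  have hint : ‖∫ u : ℝ, xi (1 / 2 + (y - ((y - 1 : ℝ) : ℂ)) + I * (x + u)) *
      cexp (-(u : ℂ) ^ 2 / (4 * κ) - I * u * ((y - 1 : ℝ) : ℂ) / (2 * κ))‖ ≤
      G * Real.exp (D * Real.log x) * Real.sqrt (Real.pi / (1 / (8 * κ))) := by
    have h1 : ∀ u : ℝ, ‖xi (1 / 2 + (y - ((y - 1 : ℝ) : ℂ)) + I * (x + u)) *
        cexp (-(u : ℂ) ^ 2 / (4 * κ) - I * u * ((y - 1 : ℝ) : ℂ) / (2 * κ))‖ ≤
        G * Real.exp (D * Real.log x) * Real.exp (-(1 / (8 * κ)) * u ^ 2) := by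
      intro u
      rw [norm_mul, norm_exp]
      have he : (1 / 2 : ℂ) + (y - ((y - 1 : ℝ) : ℂ)) + I * (x + u) = 3 / 2 + I * (x + u) := by
        push_cast
        ring
      rw [he]
      have hre : (-(u : ℂ) ^ 2 / (4 * κ) - I * u * ((y - 1 : ℝ) : ℂ) / (2 * κ)).re = -(u ^ 2 / (4 * κ)) := by
        have hz : -(u : ℂ) ^ 2 / (4 * κ) - I * u * ((y - 1 : ℝ) : ℂ) / (2 * κ) =
            ((-(u ^ 2 / (4 * κ)) : ℝ) : ℂ) + ((-(u * (y - 1) / (2 * κ)) : ℝ) : ℂ) * I := by
          push_cast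
          ring
        rw [hz, add_re, ofReal_re, re_ofReal_mul, I_re]
        ring
      rw [hre]
      have h2 := hxi x hx u
      calc ‖xi (3 / 2 + I * ((x : ℂ) + (u : ℂ)))‖ * Real.exp (-(u ^ 2 / (4 * κ)))
          ≤ (G * Real.exp (D * Real.log x) * Real.exp (u ^ 2 / (8 * κ))) * Real.exp (-(u ^ 2 / (4 * κ))) :=
            mul_le_mul_of_nonneg_right h2 (Real.exp_pos _).le
        _ = G * Real.exp (D * Real.log x) * Real.exp (-(1 / (8 * κ)) * u ^ 2) := by
            rw [mul_assoc, ← Real.exp_add]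
            congr 2
            field_simp
            ring
    refine le_trans (norm_integral_le_integral_norm _) ?_
    have hbi : Integrable (fun u : ℝ => G * Real.exp (D * Real.log x) * Real.exp (-(1 / (8 * κ)) * u ^ 2)) :=
      (integrable_exp_neg_mul_sq (by positivity : (0 : ℝ) < 1 / (8 * κ))).const_mul _
    refine le_trans (integral_mono_of_nonneg (Eventually.of_forall fun u => norm_nonneg _) hbi
      (Eventually.of_forall h1)) ?_
    rw [integral_const_mul, integral_gaussian]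
  have hs : Real.sqrt (Real.pi / (1 / (8 * κ))) = Real.sqrt 2 * Real.sqrt (4 * Real.pi * κ) := by
    rw [← Real.sqrt_mul (by norm_num)]
    congr 1
    field_simp
    ring
  have hs2 : Real.sqrt 2 ≤ Real.exp 1 := by
    have h1 : Real.sqrt 2 ≤ 2 := by
      rw [Real.sqrt_le_left (by norm_num)]
      norm_num
    have := Real.exp_one_gt_d9
    linarith
  have hsp : 0 < Real.sqrt (4 * Real.pi * κ) := Real.sqrt_pos.mpr (by positivity)
  have hlx : Real.log x ≤ 2 * Real.log X := by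
    have h1 : Real.log x ≤ Real.log (X ^ 2) := Real.log_le_log hxp (by nlinarith)
    rw [Real.log_pow] at h1
    push_cast at h1
    exact h1
  have hLL : Real.log X ≤ Real.log X ^ 2 := by nlinarith
  have ha : (y - 1) ^ 2 / (4 * κ) ≤ (B * κ + 1) ^ 2 / (4 * κ) * Real.log X ^ 2 := by
    have h1 : |y - 1| ≤ (B * κ + 1) * Real.log X := by
      have := abs_sub y 1
      rw [abs_one] at this
      linarith
    have h2 : (y - 1) ^ 2 ≤ ((B * κ + 1) * Real.log X) ^ 2 := by
      rw [← sq_abs (y - 1)]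
      exact pow_le_pow_left₀ (abs_nonneg _) h1 2
    rw [div_mul_eq_mul_div]
    apply div_le_div_of_nonneg_right _ (by positivity)
    rw [← mul_pow]
    exact h2
  calc Real.exp ((y - 1) ^ 2 / (4 * κ)) / Real.sqrt (4 * Real.pi * κ) * ‖∫ u : ℝ, xi (1 / 2 + (y - ((y - 1 : ℝ) : ℂ)) + I * (x + u)) *
      cexp (-(u : ℂ) ^ 2 / (4 * κ) - I * u * ((y - 1 : ℝ) : ℂ) / (2 * κ))‖
      ≤ Real.exp ((y - 1) ^ 2 / (4 * κ)) / Real.sqrt (4 * Real.pi * κ) *
        (G * Real.exp (D * Real.log x) * Real.sqrt (Real.pi / (1 / (8 * κ)))) :=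
        mul_le_mul_of_nonneg_left hint (by positivity)
    _ = G * (Real.exp ((y - 1) ^ 2 / (4 * κ)) * Real.exp (D * Real.log x) * Real.sqrt 2) := by
        rw [hs]
        field_simp
    _ ≤ G * (Real.exp ((y - 1) ^ 2 / (4 * κ)) * Real.exp (D * Real.log x) * Real.exp 1) := by
        apply mul_le_mul_of_nonneg_left _ hG0
        exact mul_le_mul_of_nonneg_left hs2 (by positivity)
    _ ≤ G * Real.exp (((B * κ + 1) ^ 2 / (4 * κ) + 2 * D + 1) * Real.log X ^ 2) := by
        apply mul_le_mul_of_nonneg_left _ hG0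
        rw [← Real.exp_add, ← Real.exp_add]
        apply Real.exp_le_exp.mpr
        have h1 : D * Real.log x ≤ D * (2 * Real.log X) := mul_le_mul_of_nonneg_left hlx (by linarith)
        have h2 : D * Real.log X ≤ D * Real.log X ^ 2 := mul_le_mul_of_nonneg_left hLL (by linarith)
        nlinarith [h1, h2, ha, hLL]

end

end Pool.Agent.U85.XLP.UP
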