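import Pool.Agent.U85.XL.Stm
import Pool.Agent.H24R2.JP.Mom

set_option autoImplicit false

/-!
# The kernel of the Riemann Xi function

From the library files of helper242 and of the project on Jensen polynomials.
-/

namespace Pool.Agent.U85.XLP.X0

open MeasureTheory Filter Topology Complex
open Pool.Agent.Helper242.KK Pool.Agent.U85.XL

theorem Phi_eq (t : ℝ) : Phi t = Ph t := by
  unfold Pool.Agent.U85.XL.Phi Ph Pool.Agent.Helper242.RK.Phi
  congr 1
  refine tsum_congr fun n => ?_
  rw [show 9 * (t / 2) = 9 * t / 2 by ring, show 5 * (t / 2) = 5 * t / 2 by ring,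
    show 4 * (t / 2) = 2 * t by ring]
  have e : -(Real.pi * ((n : ℝ) + 1) ^ 2 * Real.exp (2 * t)) =
      -(((n : ℝ) + 1) ^ 2 * Real.pi * Real.exp (2 * t)) := by ring
  rw [e]
  ring

theorem t_X0 : S_X0 := by
  refine ⟨fun c => ?_, fun t => ?_, fun z => ?_⟩
  · obtain ⟨A, -, hA⟩ := Ph_upper
    have hc : Continuous fun t : ℝ => |Ph t| * Real.exp (c * |t|) := by
      have := continuous_Ph
      fun_prop
    have hi : Integrable fun t : ℝ => |Ph t| * Real.exp (c * |t|) := by
      refine Integrable.mono' ((integrable_exp_neg_mul_sq one_pos).const_mul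
        (A * Real.exp ((c + 5) ^ 2))) hc.aestronglyMeasurable (Eventually.of_forall fun t => ?_)
      rw [Real.norm_of_nonneg (by positivity)]
      exact FT_aux_bd hA c t
    refine hi.congr (Eventually.of_forall fun t => ?_)
    simp only [Phi_eq]
  · rw [Phi_eq]
    exact Ph_pos t
  · have h1 := congrFun Pool.Agent.H24R2.JP.MomAux.XX_eq (I * z)
    have h2 : Xi 0 z = Pool.Agent.H24R2.JP.MomAux.L Ph (I * z) := by
      unfold Xi Pool.Agent.H24R2.JP.MomAux.L
      refine integral_congr_ae (Eventually.of_forall fun t => ?_)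
      simp only [Phi_eq, zero_mul, Real.exp_zero, mul_one]
    rw [h2]
    unfold Pool.Agent.H24R2.JP.XX at h1
    unfold xi
    linear_combination (-1 / 8) * h1

end Pool.Agent.U85.XLP.X0
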